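import Mathlib
import Pool.Agent.RevMaps.TwoCases

/-!
# RTH: three variables, maps tangent to the identity are products of four involutions.

Definitions.  Coordinates `x = X 0`, `y = X 1`, `z = X 2`.  A tuple `v : V 3` is the vector field
`v 0 ∂_x + v 1 ∂_y + v 2 ∂_z`; `br k q = Dd q k - Dd k q` is the commutator `[q, k]`
(`q` applied to `k` minus `k` applied to `q`).
-/

namespace Pool.Agent.RTH

open MvPowerSeries Pool.Agent.RevMaps

/-- the exponent `(a, b, c)` -/
noncomputable def ex (a b c : ℕ) : Fin 3 →₀ ℕ :=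
  Finsupp.single 0 a + Finsupp.single 1 b + Finsupp.single 2 c

/-- the monomial `x^a y^b z^c` -/
noncomputable def mo (a b c : ℕ) : PS 3 := X 0 ^ a * X 1 ^ b * X 2 ^ c

/-- the coefficient of `x^a y^b z^c` -/
noncomputable def cf3 (a b c : ℕ) : PS 3 →ₗ[ℂ] ℂ := coeff (ex a b c)

/-- the field `x^a y^b z^c ∂_i` -/
noncomputable def fl (i : Fin 3) (a b c : ℕ) : V 3 := tens (mo a b c) (Pi.single i 1)

/-- `2 p^i z^j E_p = p^i z^j (x ∂_x + y ∂_y)`, `p = x y` -/
noncomputable def EP (i j : ℕ) : V 3 := fl 0 (i + 1) i j + fl 1 i (i + 1) j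

/-- `p^i z^j H = p^i z^j (x ∂_x - y ∂_y)` -/
noncomputable def HH (i j : ℕ) : V 3 := fl 0 (i + 1) i j - fl 1 i (i + 1) j

/-- `diag(2, 1/2, 1)` -/
noncomputable def DD : Matrix (Fin 3) (Fin 3) ℂ := !![2, 0, 0; 0, 1 / 2, 0; 0, 0, 1]

/-- the inverse of `DD` -/
noncomputable def DD' : Matrix (Fin 3) (Fin 3) ℂ := !![1 / 2, 0, 0; 0, 2, 0; 0, 0, 1]

/-- the involution: swap `x`, `y`, change the sign of `z` -/
noncomputable def tt : Matrix (Fin 3) (Fin 3) ℂ := !![0, 1, 0; 1, 0, 0; 0, 0, -1]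

/-- the other linear involution, `DD * tt`; `T0 * tt = DD`, `tt * T0 = DD'` -/
noncomputable def T0 : Matrix (Fin 3) (Fin 3) ℂ := !![0, 2, 0; 1 / 2, 0, 0; 0, 0, -1]

/-- `z^2 ∂_z + b z E_p` -/
noncomputable def a2 (b : ℂ) : V 3 := fl 2 0 0 2 + (b / 2) • EP 0 1

/-- the admissible parameters -/
def GoodB (b : ℂ) : Prop :=
  (∀ i j : ℕ, (i ≠ 0 ∨ j ≠ 0) → (j : ℂ) + b * i ≠ 0) ∧ ∀ l : ℕ, b * (l : ℂ) ≠ 2

/-- The corrections of degree `d` (modulo order `d + 1`) that can be realised: conjugations of the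
two outer involutions by `1 + a0`, `1 + a3` and of the middle factor by `1 + x`. -/
noncomputable def ZT {n : ℕ} (T T' : Matrix (Fin n) (Fin n) ℂ) (a : V n) (d : ℕ) :
    Submodule ℂ (V n) where
  carrier := {r | ∃ a0 a3 x : V n, OV d a0 ∧ OV d a3 ∧ OV (d - 1) x ∧ OV 2 x ∧
    act (T * T') (T' * T) x = x ∧
    OV (d + 1) (r - ((a0 - act T T a0) + (a3 - act T' T' a3) + br x a))}
  add_mem' := by
    rintro r s ⟨a0, a3, x, h1, h2, h3, h4, h5, h6⟩ ⟨b0, b3, y, g1, g2, g3, g4, g5, g6⟩
    refine ⟨a0 + b0, a3 + b3, x + y, h1.add g1, h2.add g2, h3.add g3, h4.add g4, ?_, ?_⟩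
    · rw [act_add, h5, g5]
    · have h := h6.add g6
      have e : r + s - ((a0 + b0 - act T T (a0 + b0)) + (a3 + b3 - act T' T' (a3 + b3)) +
          br (x + y) a) = (r - ((a0 - act T T a0) + (a3 - act T' T' a3) + br x a)) +
          (s - ((b0 - act T T b0) + (b3 - act T' T' b3) + br y a)) := by
        rw [act_add, act_add, br_add_left]; abel
      rw [e]; exact h
  zero_mem' := by
    refine ⟨0, 0, 0, fun i => O_of_zero _, fun i => O_of_zero _, fun i => O_of_zero _,
      fun i => O_of_zero _, ?_, ?_⟩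
    · have := act_smul (T * T') (T' * T) 0 (0 : V n)
      simpa using this
    · have e1 : ∀ M M' : Matrix (Fin n) (Fin n) ℂ, act M M' (0 : V n) = 0 := by
        intro M M'
        have := act_smul M M' 0 (0 : V n)
        simpa using this
      rw [e1, e1, br_zero_left]
      intro i
      simp only [Pi.sub_apply, Pi.add_apply, Pi.zero_apply, sub_zero, add_zero]
      exact O_of_zero _
  smul_mem' := by
    rintro c r ⟨a0, a3, x, h1, h2, h3, h4, h5, h6⟩
    refine ⟨c • a0, c • a3, c • x, h1.smul c, h2.smul c, h3.smul c, h4.smul c, ?_, ?_⟩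
    · rw [act_smul, h5]
    · have h := h6.smul c
      have e : c • r - ((c • a0 - act T T (c • a0)) + (c • a3 - act T' T' (c • a3)) +
          br (c • x) a) = c • (r - ((a0 - act T T a0) + (a3 - act T' T' a3) + br x a)) := by
        rw [act_smul, act_smul, br_smul_left]
        simp only [smul_sub, smul_add]
      rw [e]; exact h

/-- the submodule of reachable corrections in three variables -/
noncomputable abbrev ZB (b : ℂ) (d : ℕ) : Submodule ℂ (V 3) := ZT T0 tt (a2 b) d

/-- the obstruction functional in degree `2 l + 1` -/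
noncomputable def om (b : ℂ) (l : ℕ) (r : V 3) : ℂ :=
  cf3 (l + 1) l 0 (r 0) + cf3 l (l + 1) 0 (r 1) + b / (b * l - 2) * cf3 l l 1 (r 2)

/-- elementary matrix `1 + s e_{ij}`: as a formal map `X_i ↦ X_i + s X_j` -/
noncomputable def Sh (i j : Fin 3) (s : ℂ) : Matrix (Fin 3) (Fin 3) ℂ :=
  1 + s • Matrix.single i j 1

/-- conjugation of a tuple by the elementary matrix: new component `k ≠ i` is `q_k ∘ Sh`, new
component `i` is `(q_i - s q_j) ∘ Sh` -/
noncomputable def shq (i j : Fin 3) (s : ℂ) (q : V 3) : V 3 := act (Sh i j (-s)) (Sh i j s) q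

/-- the homogeneous part of degree `m` as a polynomial -/
noncomputable def hpart (m : ℕ) (p : PS 3) : MvPolynomial (Fin 3) ℂ :=
  ∑ e ∈ (Finset.univ : Finset (Fin 3)).finsuppAntidiag m, MvPolynomial.monomial e (coeff e p)

/-- the value of the homogeneous part of degree `m` at a vector -/
noncomputable def ev (m : ℕ) (p : PS 3) (w : Fin 3 → ℂ) : ℂ := MvPolynomial.eval w (hpart m p)

/-- `I4` of the tuple is invariant under linear changes of coordinates: bookkeeping predicate.
`Conj q q'` : `q'` is the tuple `q` in other linear coordinates. -/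
def Conj (q q' : V 3) : Prop :=
  ∃ P P' : Matrix (Fin 3) (Fin 3) ℂ, P * P' = 1 ∧ P' * P = 1 ∧ q' = act P' P q

/-- every map `1 + q` is a product of four involutions (for any proof that `q` has no constant
term) -/
def I4q (q : V 3) : Prop := ∀ hq1 : OV 1 q, I4 (oneAdd q hq1)

end Pool.Agent.RTH
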