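import Mathlib
import Pool.Agent.RTH.Defs
import Pool.Agent.INV5.N2

/-!
The action of an invertible matrix is compatible with the bracket.  `n` arbitrary.
The chain rule is `INV5.Dd_subst`: `Dd a (p ∘ f) = ∑ (∂_l p ∘ f) * Dd a (f_l)`; for `f = linMap M'` and
`a = act M M' q` the derivative `Dd a (f_l)` is `(mv M' a)_l = q_l ∘ M'` since `M' M = 1`.
Then `act M M' (br k q) = mv M (sb (linMap M') (br k q))`, and
`Dd` is linear: `mv M` of `(Dd q (k i))∘M'` is `Dd (act q) (mv M (k∘M'))`.
-/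

namespace Pool.Agent.RTH

open MvPowerSeries Pool.Agent.RevMaps

private theorem ab_lin {n : ℕ} (M : Matrix (Fin n) (Fin n) ℂ) (a : V n) (i : Fin n) :
    Dd a ((linMap M).toFun i) = mv M a i := by
  rw [linMap_toFun]
  simp only [mv, Dd_sum, Dd_smul, Dd_X]

theorem Dd_subst {n : ℕ} (M M' : Matrix (Fin n) (Fin n) ℂ) (h1 : M * M' = 1) (h2 : M' * M = 1)
    (q : V n) (p : PS n) :
    Dd (act M M' q) (p.subst (linMap M').toFun) = (Dd q p).subst (linMap M').toFun := by
  have _ := h1
  have h3 : mv M' (act M M' q) = sb (linMap M') q := by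
    unfold act
    rw [mv_mv, h2, mv_one]
  rw [Pool.Agent.INV5.Dd_subst]
  unfold Dd
  rw [subst_sumC]
  refine Finset.sum_congr rfl (fun l _ => ?_)
  rw [subst_mulC]
  congr 1
  have h4 := ab_lin M' (act M M' q) l
  rw [h3] at h4
  exact h4

private theorem ab_DD {n : ℕ} (M M' : Matrix (Fin n) (Fin n) ℂ) (h1 : M * M' = 1)
    (h2 : M' * M = 1) (a b : V n) :
    act M M' (fun i => Dd b (a i)) = fun i => Dd (act M M' b) (act M M' a i) := by
  funext i
  have h3 : act M M' a i = ∑ j, M i j • (a j).subst (linMap M').toFun := rfl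
  have h4 : act M M' (fun i => Dd b (a i)) i =
      ∑ j, M i j • (Dd b (a j)).subst (linMap M').toFun := rfl
  rw [h3, h4, Dd_sum]
  refine Finset.sum_congr rfl (fun j _ => ?_)
  rw [Dd_smul, Dd_subst M M' h1 h2]

theorem act_br {n : ℕ} (M M' : Matrix (Fin n) (Fin n) ℂ) (h1 : M * M' = 1) (h2 : M' * M = 1)
    (k q : V n) : act M M' (br k q) = br (act M M' k) (act M M' q) := by
  have h3 : br k q = (fun i => Dd q (k i)) - (fun i => Dd k (q i)) := rfl
  have h4 : br (act M M' k) (act M M' q) = (fun i => Dd (act M M' q) (act M M' k i)) -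
      (fun i => Dd (act M M' k) (act M M' q i)) := rfl
  rw [h3, h4, act_sub, ab_DD M M' h1 h2, ab_DD M M' h1 h2]

end Pool.Agent.RTH
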