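import Mathlib
import Pool.Agent.RTH.Defs

/-!
Monomials in three variables.  Model: `Pool.Agent.RevMaps.TwoMono` (same lemmas in two variables).
-/

namespace Pool.Agent.RTH

open MvPowerSeries Pool.Agent.RevMaps

theorem mo_eq (a b c : ℕ) : mo a b c = monomial (ex a b c) (1 : ℂ) := by
  rw [mo, ex, X_pow_eq, X_pow_eq, X_pow_eq, monomial_mul_monomial, monomial_mul_monomial, one_mul,
    one_mul]

theorem ex_inj {a b c a' b' c' : ℕ} : ex a b c = ex a' b' c' ↔ (a = a' ∧ b = b' ∧ c = c') := by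
  constructor
  · intro h
    have h0 := DFunLike.congr_fun h 0
    have h1 := DFunLike.congr_fun h 1
    have h2 := DFunLike.congr_fun h 2
    simp [ex] at h0 h1 h2
    exact ⟨h0, h1, h2⟩
  · rintro ⟨rfl, rfl, rfl⟩; rfl

theorem degree_ex (a b c : ℕ) : (ex a b c).degree = a + b + c := by
  rw [ex, map_add, map_add, Finsupp.degree_single, Finsupp.degree_single, Finsupp.degree_single]

theorem ex_surj (m : Fin 3 →₀ ℕ) : m = ex (m 0) (m 1) (m 2) := by
  ext i
  fin_cases i <;> simp [ex]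

theorem ex_x (m : ℕ) : ex m 0 0 = Finsupp.single 0 m := by
  rw [ex, Finsupp.single_zero, Finsupp.single_zero, add_zero, add_zero]

theorem ex_z (m : ℕ) : ex 0 0 m = Finsupp.single 2 m := by
  rw [ex, Finsupp.single_zero, Finsupp.single_zero, add_zero, zero_add]

theorem cf3_mo (a b c a' b' c' : ℕ) :
    cf3 a b c (mo a' b' c') = if a = a' ∧ b = b' ∧ c = c' then 1 else 0 := by
  classical
  rw [cf3, mo_eq, coeff_monomial]
  simp only [ex_inj]

theorem mo_mul (a b c a' b' c' : ℕ) : mo a b c * mo a' b' c' = mo (a + a') (b + b') (c + c') := by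
  simp only [mo, pow_add]; ring

theorem O_mo (a b c : ℕ) : O (a + b + c) (mo a b c) := by
  rw [mo_eq]
  have := O_monomial (ex a b c)
  rwa [degree_ex] at this

theorem cf3_O {a b c k : ℕ} {p : PS 3} (hp : O k p) (h : a + b + c < k) : cf3 a b c p = 0 :=
  hp _ (by rw [degree_ex]; exact h)

theorem O_iff_cf3 {k : ℕ} {p : PS 3} : O k p ↔ ∀ a b c, a + b + c < k → cf3 a b c p = 0 := by
  constructor
  · intro h a b c hab; exact cf3_O h hab
  · intro h m hm
    rw [ex_surj m] at hm ⊢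
    rw [degree_ex] at hm
    exact h _ _ _ hm

theorem le_of_mo (W : Submodule ℂ (PS 3)) (k : ℕ)
    (h1 : ∀ a b c : ℕ, a + b + c = k → mo a b c ∈ W)
    (h2 : ∀ q : PS 3, O (k + 1) q → q ∈ W) : ∀ q : PS 3, O k q → q ∈ W := by
  apply le_of_monomials W k _ h2
  intro m hm
  rw [ex_surj m] at hm ⊢
  rw [degree_ex] at hm
  rw [← mo_eq]
  exact h1 _ _ _ hm

theorem fl_apply (i j : Fin 3) (a b c : ℕ) : fl i a b c j = if j = i then mo a b c else 0 := by
  show (Pi.single i (1 : ℂ) : Fin 3 → ℂ) j • mo a b c = _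
  by_cases h : j = i
  · subst h
    rw [Pi.single_eq_same, one_smul, if_pos rfl]
  · rw [Pi.single_eq_of_ne h, zero_smul, if_neg h]

theorem OV_fl (i : Fin 3) (a b c : ℕ) : OV (a + b + c) (fl i a b c) := OV_tens (O_mo a b c) _

private theorem mo_tuple_eq (q : V 3) : q = tens (q 0) (Pi.single 0 1) +
    tens (q 1) (Pi.single 1 1) + tens (q 2) (Pi.single 2 1) := by
  funext i
  fin_cases i <;> simp [tens]

/-- linear map `q ↦ q ⊗ v` -/
private noncomputable def moTm (v : Fin 3 → ℂ) : PS 3 →ₗ[ℂ] V 3 where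
  toFun q := tens q v
  map_add' p q := tens_add _ _ _
  map_smul' c p := tens_smul _ _ _

theorem le_of_fl (W : Submodule ℂ (V 3)) (k : ℕ)
    (h1 : ∀ i a b c, a + b + c = k → fl i a b c ∈ W)
    (h2 : ∀ q : V 3, OV (k + 1) q → q ∈ W) : ∀ q : V 3, OV k q → q ∈ W := by
  intro q hq
  have key : ∀ i : Fin 3, tens (q i) (Pi.single i 1) ∈ W := fun i =>
    le_of_mo (W.comap (moTm (Pi.single i 1))) k (fun a b c habc => h1 i a b c habc)
      (fun p hp => h2 _ (OV_tens hp _)) (q i) (hq i)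
  rw [mo_tuple_eq q]
  exact W.add_mem (W.add_mem (key 0) (key 1)) (key 2)

end Pool.Agent.RTH
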