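import Mathlib
import Pool.Agent.RTH.Mo

/-!
Action of `DD`, `tt`, `T0` on the monomial fields.  Use `act_tens`, `subst_X_linMap`, `act_act`
(Model: `RevMaps.TwoMono`, `act_Dg_mx`, `act_JJ_mx`).
-/

namespace Pool.Agent.RTH

open MvPowerSeries Pool.Agent.RevMaps

theorem tt_sq : tt * tt = 1 := by
  ext i j
  fin_cases i <;> fin_cases j <;> simp [tt, Matrix.mul_apply, Fin.sum_univ_three]

theorem T0_sq : T0 * T0 = 1 := by
  ext i j
  fin_cases i <;> fin_cases j <;> simp [T0, Matrix.mul_apply, Fin.sum_univ_three]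

theorem T0_tt : T0 * tt = DD := by
  ext i j
  fin_cases i <;> fin_cases j <;> simp [T0, tt, DD, Matrix.mul_apply, Fin.sum_univ_three]

theorem tt_T0 : tt * T0 = DD' := by
  ext i j
  fin_cases i <;> fin_cases j <;> simp [T0, tt, DD', Matrix.mul_apply, Fin.sum_univ_three]

theorem subst_X_three (M : Matrix (Fin 3) (Fin 3) ℂ) (i : Fin 3) :
    (X i : PS 3).subst (linMap M).toFun = M i 0 • X 0 + M i 1 • X 1 + M i 2 • X 2 := by
  rw [subst_X_linMap, ell, Fin.sum_univ_three]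

theorem mo_subst_DD' (a b c : ℕ) :
    (mo a b c).subst (linMap DD').toFun = ((1 / 2) ^ a * 2 ^ b : ℂ) • mo a b c := by
  rw [mo, subst_mulC, subst_mulC, subst_powC, subst_powC, subst_powC, subst_X_three,
    subst_X_three, subst_X_three]
  simp only [DD', Matrix.of_apply, Matrix.cons_val', Matrix.cons_val_zero, Matrix.cons_val_one,
    Matrix.cons_val, Matrix.cons_val_fin_one, zero_smul, add_zero, zero_add, smul_pow, one_smul]
  rw [smul_mul_smul_comm, smul_mul_assoc]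

theorem mo_subst_tt (a b c : ℕ) :
    (mo a b c).subst (linMap tt).toFun = ((-1 : ℂ) ^ c) • mo b a c := by
  rw [mo, subst_mulC, subst_mulC, subst_powC, subst_powC, subst_powC, subst_X_three,
    subst_X_three, subst_X_three]
  simp only [tt, Matrix.of_apply, Matrix.cons_val', Matrix.cons_val_zero, Matrix.cons_val_one,
    Matrix.cons_val, Matrix.cons_val_fin_one, zero_smul, add_zero, zero_add, smul_pow, one_smul,
    mo]
  rw [mul_smul_comm, mul_comm (X 1 ^ a : PS 3)]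

theorem act_DD_fl0 (a b c : ℕ) :
    act DD DD' (fl 0 a b c) = (2 * ((1 / 2) ^ a * 2 ^ b) : ℂ) • fl 0 a b c := by
  rw [fl, act_tens, mo_subst_DD']
  funext i
  fin_cases i <;> simp [tens, DD, smul_smul]

theorem act_DD_fl1 (a b c : ℕ) :
    act DD DD' (fl 1 a b c) = (1 / 2 * ((1 / 2) ^ a * 2 ^ b) : ℂ) • fl 1 a b c := by
  rw [fl, act_tens, mo_subst_DD']
  funext i
  fin_cases i <;> simp [tens, DD, smul_smul]

theorem act_DD_fl2 (a b c : ℕ) :
    act DD DD' (fl 2 a b c) = ((1 / 2) ^ a * 2 ^ b : ℂ) • fl 2 a b c := by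
  rw [fl, act_tens, mo_subst_DD']
  funext i
  fin_cases i <;> simp [tens, DD, smul_smul]

theorem act_tt_fl0 (a b c : ℕ) : act tt tt (fl 0 a b c) = ((-1 : ℂ) ^ c) • fl 1 b a c := by
  rw [fl, act_tens, mo_subst_tt]
  funext i
  fin_cases i <;> simp [tens, tt, fl]

theorem act_tt_fl1 (a b c : ℕ) : act tt tt (fl 1 a b c) = ((-1 : ℂ) ^ c) • fl 0 b a c := by
  rw [fl, act_tens, mo_subst_tt]
  funext i
  fin_cases i <;> simp [tens, tt, fl]

theorem act_tt_fl2 (a b c : ℕ) : act tt tt (fl 2 a b c) = (-(-1 : ℂ) ^ c) • fl 2 b a c := by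
  rw [fl, act_tens, mo_subst_tt]
  funext i
  fin_cases i <;> simp [tens, tt, fl]

theorem act_DD_EP (i j : ℕ) : act DD DD' (EP i j) = EP i j := by
  have h : (1 / 2 : ℂ) ^ i * 2 ^ i = 1 := by rw [← mul_pow]; norm_num
  rw [EP, act_add, act_DD_fl0, act_DD_fl1]
  have h0 : (2 * ((1 / 2) ^ (i + 1) * 2 ^ i) : ℂ) = 1 := by
    rw [pow_succ]; linear_combination h
  have h1 : (1 / 2 * ((1 / 2) ^ i * 2 ^ (i + 1)) : ℂ) = 1 := by
    rw [pow_succ]; linear_combination h
  rw [h0, h1, one_smul, one_smul]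

theorem act_DD_HH (i j : ℕ) : act DD DD' (HH i j) = HH i j := by
  have h : (1 / 2 : ℂ) ^ i * 2 ^ i = 1 := by rw [← mul_pow]; norm_num
  rw [HH, act_sub, act_DD_fl0, act_DD_fl1]
  have h0 : (2 * ((1 / 2) ^ (i + 1) * 2 ^ i) : ℂ) = 1 := by
    rw [pow_succ]; linear_combination h
  have h1 : (1 / 2 * ((1 / 2) ^ i * 2 ^ (i + 1)) : ℂ) = 1 := by
    rw [pow_succ]; linear_combination h
  rw [h0, h1, one_smul, one_smul]

theorem act_DD_fl2_diag (i j : ℕ) : act DD DD' (fl 2 i i j) = fl 2 i i j := by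
  have h : (1 / 2 : ℂ) ^ i * 2 ^ i = 1 := by rw [← mul_pow]; norm_num
  rw [act_DD_fl2, h, one_smul]

theorem act_DD_a2 (b : ℂ) : act (T0 * tt) (tt * T0) (a2 b) = a2 b := by
  rw [T0_tt, tt_T0, a2, act_add, act_smul, act_DD_EP, act_DD_fl2_diag]

theorem act_tt_a2 (b : ℂ) : act tt tt (a2 b) = -a2 b := by
  rw [a2, act_add, act_smul, EP, act_add, act_tt_fl0, act_tt_fl1, act_tt_fl2]
  simp only [pow_one, zero_add, even_two, Even.neg_pow, one_pow, neg_smul, one_smul, smul_add,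
    smul_neg, neg_add]
  abel

theorem act_T0_a2 (b : ℂ) : act T0 T0 (a2 b) = -a2 b := by
  have e : T0 = (T0 * tt) * tt := by rw [mul_assoc, tt_sq, mul_one]
  have e' : T0 = tt * (tt * T0) := by rw [← mul_assoc, tt_sq, one_mul]
  have h : act (T0 * tt) (tt * T0) (act tt tt (a2 b)) = act T0 T0 (a2 b) := by
    rw [act_act, ← e, ← e']
  rw [← h, act_tt_a2, ← neg_one_smul ℂ (a2 b), act_smul, act_DD_a2]

theorem OV_a2 (b : ℂ) : OV 2 (a2 b) := by
  refine OV.add (OV_fl 2 0 0 2) (OV.smul _ ?_)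
  exact OV.add (OV_fl 0 1 0 1) (OV_fl 1 0 1 1)

theorem OV_EP (i j : ℕ) : OV (2 * i + 1 + j) (EP i j) := by
  refine OV.add ?_ ?_
  · exact (OV_fl 0 (i + 1) i j).mono (by omega)
  · exact (OV_fl 1 i (i + 1) j).mono (by omega)

theorem OV_HH (i j : ℕ) : OV (2 * i + 1 + j) (HH i j) := by
  refine OV.sub ?_ ?_
  · exact (OV_fl 0 (i + 1) i j).mono (by omega)
  · exact (OV_fl 1 i (i + 1) j).mono (by omega)

end Pool.Agent.RTH
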