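import Mathlib
import Pool.Agent.RTH.Mo

/-!
Derivatives and products of monomials in three variables.
-/

namespace Pool.Agent.RTH

open MvPowerSeries Pool.Agent.RevMaps

theorem pderiv0_mo (a b c : ℕ) : pderiv ℂ 0 (mo a b c) = (a : ℂ) • mo (a - 1) b c := by
  rw [mo, Derivation.leibniz, Derivation.leibniz, pderiv_pow, pderiv_pow, pderiv_pow, pderiv_X_self,
    pderiv_X_of_ne (by decide), pderiv_X_of_ne (by decide), mo, MvPowerSeries.smul_eq_C_mul,
    map_natCast]
  simp only [smul_eq_mul]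
  ring

theorem pderiv1_mo (a b c : ℕ) : pderiv ℂ 1 (mo a b c) = (b : ℂ) • mo a (b - 1) c := by
  rw [mo, Derivation.leibniz, Derivation.leibniz, pderiv_pow, pderiv_pow, pderiv_pow, pderiv_X_self,
    pderiv_X_of_ne (by decide), pderiv_X_of_ne (by decide), mo, MvPowerSeries.smul_eq_C_mul,
    map_natCast]
  simp only [smul_eq_mul]
  ring

theorem pderiv2_mo (a b c : ℕ) : pderiv ℂ 2 (mo a b c) = (c : ℂ) • mo a b (c - 1) := by
  rw [mo, Derivation.leibniz, Derivation.leibniz, pderiv_pow, pderiv_pow, pderiv_pow, pderiv_X_self,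
    pderiv_X_of_ne (by decide), pderiv_X_of_ne (by decide), mo, MvPowerSeries.smul_eq_C_mul,
    map_natCast]
  simp only [smul_eq_mul]
  ring

theorem cf3_pderiv0 (a b c : ℕ) (p : PS 3) :
    cf3 a b c (pderiv ℂ 0 p) = ((a : ℂ) + 1) * cf3 (a + 1) b c p := by
  rw [cf3, cf3, coeff_pderiv]
  have h1 : ex a b c + Finsupp.single 0 1 = ex (a + 1) b c := by
    unfold ex
    ext i
    fin_cases i <;> simp
  have h2 : (ex a b c) 0 = a := by simp [ex]
  rw [h1, h2, mul_comm]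

theorem cf3_pderiv1 (a b c : ℕ) (p : PS 3) :
    cf3 a b c (pderiv ℂ 1 p) = ((b : ℂ) + 1) * cf3 a (b + 1) c p := by
  rw [cf3, cf3, coeff_pderiv]
  have h1 : ex a b c + Finsupp.single 1 1 = ex a (b + 1) c := by
    unfold ex
    ext i
    fin_cases i <;> simp
  have h2 : (ex a b c) 1 = b := by simp [ex]
  rw [h1, h2, mul_comm]

theorem cf3_pderiv2 (a b c : ℕ) (p : PS 3) :
    cf3 a b c (pderiv ℂ 2 p) = ((c : ℂ) + 1) * cf3 a b (c + 1) p := by
  rw [cf3, cf3, coeff_pderiv]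
  have h1 : ex a b c + Finsupp.single 2 1 = ex a b (c + 1) := by
    unfold ex
    ext i
    fin_cases i <;> simp
  have h2 : (ex a b c) 2 = c := by simp [ex]
  rw [h1, h2, mul_comm]

private theorem ex_add (a b c a' b' c' : ℕ) : ex (a + a') (b + b') (c + c') = ex a' b' c' + ex a b c := by
  unfold ex
  ext i
  fin_cases i <;> simp [add_comm]

theorem cf3_mo_mul (a b c a' b' c' : ℕ) (p : PS 3) :
    cf3 (a + a') (b + b') (c + c') (mo a' b' c' * p) = cf3 a b c p := by
  rw [cf3, cf3, mo_eq, ex_add, coeff_add_monomial_mul, one_mul]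

theorem cf3_mo_mul_zero {a b c a' b' c' : ℕ} (h : a < a' ∨ b < b' ∨ c < c') (p : PS 3) :
    cf3 a b c (mo a' b' c' * p) = 0 := by
  rw [cf3, mo_eq, coeff_monomial_mul, if_neg]
  intro hle
  have h0 := hle 0
  have h1 := hle 1
  have h2 := hle 2
  simp [ex] at h0 h1 h2
  omega

/-- general form -/
theorem cf3_mo_mul' {a b c a' b' c' : ℕ} (ha : a' ≤ a) (hb : b' ≤ b) (hc : c' ≤ c) (p : PS 3) :
    cf3 a b c (mo a' b' c' * p) = cf3 (a - a') (b - b') (c - c') p := by
  have h := cf3_mo_mul (a - a') (b - b') (c - c') a' b' c' p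
  rwa [Nat.sub_add_cancel ha, Nat.sub_add_cancel hb, Nat.sub_add_cancel hc] at h

theorem Dd_three (q : V 3) (p : PS 3) :
    Dd q p = pderiv ℂ 0 p * q 0 + pderiv ℂ 1 p * q 1 + pderiv ℂ 2 p * q 2 := by
  rw [Dd, Fin.sum_univ_three]

end Pool.Agent.RTH
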