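import Mathlib
import Pool.Agent.RTH.Pd

/-!
Brackets with `a2 b = z^2 ∂_z + b z E_p` (checked by computer).
`a2` applied to a monomial `p^i z^j` is `(j + b i) p^i z^(j+1)`; `E_p`, `H` commute with everything
that depends on `p`, `z` only up to this, and `[a2, ∂_z] = -(2 z ∂_z + b E_p)`.
Direct proof: `funext`, `fin_cases`, `Dd_three`, `pderiv*_mo`, `mo_mul`.
-/

namespace Pool.Agent.RTH

open MvPowerSeries Pool.Agent.RevMaps

private theorem flv (i j : Fin 3) (a b c : ℕ) (h : j = i) : fl i a b c j = mo a b c := by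
  rw [fl_apply, if_pos h]

private theorem flz (i j : Fin 3) (a b c : ℕ) (h : j ≠ i) : fl i a b c j = 0 := by
  rw [fl_apply, if_neg h]

private theorem EP_0 (i j : ℕ) : EP i j 0 = mo (i + 1) i j := by
  show fl 0 (i + 1) i j 0 + fl 1 i (i + 1) j 0 = _
  rw [flv _ _ _ _ _ rfl, flz _ _ _ _ _ (by decide), add_zero]

private theorem EP_1 (i j : ℕ) : EP i j 1 = mo i (i + 1) j := by
  show fl 0 (i + 1) i j 1 + fl 1 i (i + 1) j 1 = _
  rw [flz _ _ _ _ _ (by decide), flv _ _ _ _ _ rfl, zero_add]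

private theorem EP_2 (i j : ℕ) : EP i j 2 = 0 := by
  show fl 0 (i + 1) i j 2 + fl 1 i (i + 1) j 2 = _
  rw [flz _ _ _ _ _ (by decide), flz _ _ _ _ _ (by decide), zero_add]

private theorem HH_0 (i j : ℕ) : HH i j 0 = mo (i + 1) i j := by
  show fl 0 (i + 1) i j 0 - fl 1 i (i + 1) j 0 = _
  rw [flv _ _ _ _ _ rfl, flz _ _ _ _ _ (by decide), sub_zero]

private theorem HH_1 (i j : ℕ) : HH i j 1 = -mo i (i + 1) j := by
  show fl 0 (i + 1) i j 1 - fl 1 i (i + 1) j 1 = _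
  rw [flz _ _ _ _ _ (by decide), flv _ _ _ _ _ rfl, zero_sub]

private theorem HH_2 (i j : ℕ) : HH i j 2 = 0 := by
  show fl 0 (i + 1) i j 2 - fl 1 i (i + 1) j 2 = _
  rw [flz _ _ _ _ _ (by decide), flz _ _ _ _ _ (by decide), sub_zero]

private theorem a2_0 (b : ℂ) : a2 b 0 = (b / 2) • mo 1 0 1 := by
  show fl 2 0 0 2 0 + (b / 2) • EP 0 1 0 = _
  rw [flz _ _ _ _ _ (by decide), zero_add, EP_0]

private theorem a2_1 (b : ℂ) : a2 b 1 = (b / 2) • mo 0 1 1 := by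
  show fl 2 0 0 2 1 + (b / 2) • EP 0 1 1 = _
  rw [flz _ _ _ _ _ (by decide), zero_add, EP_1]

private theorem a2_2 (b : ℂ) : a2 b 2 = mo 0 0 2 := by
  show fl 2 0 0 2 2 + (b / 2) • EP 0 1 2 = _
  rw [flv _ _ _ _ _ rfl, EP_2, smul_zero, add_zero]

/-- `a2` on a monomial -/
private theorem Dd_a2_mo (b : ℂ) (a a' c : ℕ) :
    Dd (a2 b) (mo a a' c) = (b / 2 * (a + a') + c) • mo a a' (c + 1) := by
  rw [Dd_three, pderiv0_mo, pderiv1_mo, pderiv2_mo, a2_0, a2_1, a2_2]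
  have h0 : (a : ℂ) • mo (a - 1) a' c * (b / 2) • mo 1 0 1 =
      ((a : ℂ) * (b / 2)) • mo a a' (c + 1) := by
    rw [smul_mul_smul_comm, mo_mul]
    rcases Nat.eq_zero_or_pos a with h | h
    · subst h
      rw [Nat.cast_zero, zero_mul, zero_smul, zero_smul]
    · rw [show a - 1 + 1 = a by omega, add_zero]
  have h1 : (a' : ℂ) • mo a (a' - 1) c * (b / 2) • mo 0 1 1 =
      ((a' : ℂ) * (b / 2)) • mo a a' (c + 1) := by
    rw [smul_mul_smul_comm, mo_mul]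
    rcases Nat.eq_zero_or_pos a' with h | h
    · subst h
      rw [Nat.cast_zero, zero_mul, zero_smul, zero_smul]
    · rw [show a' - 1 + 1 = a' by omega, add_zero]
  have h2 : (c : ℂ) • mo a a' (c - 1) * mo 0 0 2 = (c : ℂ) • mo a a' (c + 1) := by
    rw [smul_mul_assoc, mo_mul]
    rcases Nat.eq_zero_or_pos c with h | h
    · subst h
      rw [Nat.cast_zero, zero_smul, zero_smul]
    · rw [show c - 1 + 2 = c + 1 by omega, add_zero, add_zero]
  rw [h0, h1, h2, ← add_smul, ← add_smul]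
  congr 1
  ring

/-- derivative of the components of `a2` -/
private theorem Dd_a0 (b : ℂ) (q : V 3) :
    Dd q (a2 b 0) = (b / 2) • (mo 0 0 1 * q 0 + mo 1 0 0 * q 2) := by
  rw [a2_0, Dd_smul, Dd_three, pderiv0_mo, pderiv1_mo, pderiv2_mo]
  simp only [Nat.cast_one, Nat.cast_zero, one_smul, zero_smul, zero_mul, add_zero, Nat.sub_self]

private theorem Dd_a1 (b : ℂ) (q : V 3) :
    Dd q (a2 b 1) = (b / 2) • (mo 0 0 1 * q 1 + mo 0 1 0 * q 2) := by
  rw [a2_1, Dd_smul, Dd_three, pderiv0_mo, pderiv1_mo, pderiv2_mo]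
  simp only [Nat.cast_one, Nat.cast_zero, one_smul, zero_smul, zero_mul, zero_add, Nat.sub_self]

private theorem Dd_a2 (b : ℂ) (q : V 3) :
    Dd q (a2 b 2) = (2 : ℂ) • (mo 0 0 1 * q 2) := by
  rw [a2_2, Dd_three, pderiv0_mo, pderiv1_mo, pderiv2_mo]
  simp only [Nat.cast_zero, zero_smul, zero_mul, zero_add, Nat.cast_ofNat, smul_mul_assoc]

theorem br_EP (b : ℂ) (i j : ℕ) : br (EP i j) (a2 b) = ((j : ℂ) + b * i) • EP i (j + 1) := by
  funext k
  fin_cases k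
  · show Dd (a2 b) (EP i j 0) - Dd (EP i j) (a2 b 0) = ((j : ℂ) + b * i) • EP i (j + 1) 0
    rw [Dd_a0, EP_0, EP_2, EP_0, Dd_a2_mo, mul_zero, add_zero, mo_mul, zero_add, zero_add,
      Nat.add_comm 1 j, ← sub_smul]
    congr 1
    push_cast
    ring
  · show Dd (a2 b) (EP i j 1) - Dd (EP i j) (a2 b 1) = ((j : ℂ) + b * i) • EP i (j + 1) 1
    rw [Dd_a1, EP_1, EP_2, EP_1, Dd_a2_mo, mul_zero, add_zero, mo_mul, zero_add, zero_add,
      Nat.add_comm 1 j, ← sub_smul]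
    congr 1
    push_cast
    ring
  · show Dd (a2 b) (EP i j 2) - Dd (EP i j) (a2 b 2) = ((j : ℂ) + b * i) • EP i (j + 1) 2
    rw [Dd_a2, EP_2, EP_2, mul_zero, smul_zero, smul_zero, sub_zero, Dd_three, map_zero,
      map_zero, map_zero, zero_mul, zero_mul, zero_mul, add_zero, add_zero]

theorem br_HH (b : ℂ) (i j : ℕ) : br (HH i j) (a2 b) = ((j : ℂ) + b * i) • HH i (j + 1) := by
  funext k
  fin_cases k
  · show Dd (a2 b) (HH i j 0) - Dd (HH i j) (a2 b 0) = ((j : ℂ) + b * i) • HH i (j + 1) 0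
    rw [Dd_a0, HH_0, HH_2, HH_0, Dd_a2_mo, mul_zero, add_zero, mo_mul, zero_add, zero_add,
      Nat.add_comm 1 j, ← sub_smul]
    congr 1
    push_cast
    ring
  · show Dd (a2 b) (HH i j 1) - Dd (HH i j) (a2 b 1) = ((j : ℂ) + b * i) • HH i (j + 1) 1
    have e : Dd (a2 b) (-mo i (i + 1) j) = -Dd (a2 b) (mo i (i + 1) j) := by
      rw [← neg_one_smul ℂ, Dd_smul, neg_one_smul]
    rw [Dd_a1, HH_1, HH_2, HH_1, e, Dd_a2_mo, mul_zero, add_zero, mul_neg, mo_mul, zero_add,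
      zero_add, Nat.add_comm 1 j, smul_neg, smul_neg, sub_neg_eq_add, neg_add_eq_sub, ← sub_smul,
      ← neg_smul]
    congr 1
    push_cast
    ring
  · show Dd (a2 b) (HH i j 2) - Dd (HH i j) (a2 b 2) = ((j : ℂ) + b * i) • HH i (j + 1) 2
    rw [Dd_a2, HH_2, HH_2, mul_zero, smul_zero, smul_zero, sub_zero, Dd_three, map_zero,
      map_zero, map_zero, zero_mul, zero_mul, zero_mul, add_zero, add_zero]

theorem br_fl2 (b : ℂ) (i j : ℕ) : br (fl 2 i i j) (a2 b) =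
    ((j : ℂ) - 2 + b * i) • fl 2 i i (j + 1) - (b / 2) • EP i j := by
  have hz : Dd (a2 b) (0 : PS 3) = 0 := by
    rw [Dd_three, map_zero, map_zero, map_zero, zero_mul, zero_mul, zero_mul, add_zero, add_zero]
  funext k
  fin_cases k
  · show Dd (a2 b) (fl 2 i i j 0) - Dd (fl 2 i i j) (a2 b 0) =
      ((j : ℂ) - 2 + b * i) • fl 2 i i (j + 1) 0 - (b / 2) • EP i j 0
    rw [Dd_a0, flz 2 0 i i j (by decide), flz 2 0 i i (j + 1) (by decide), flv 2 2 i i j rfl,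
      EP_0, hz, mul_zero, zero_add, smul_zero, mo_mul, zero_add, zero_add, Nat.add_comm 1 i]
  · show Dd (a2 b) (fl 2 i i j 1) - Dd (fl 2 i i j) (a2 b 1) =
      ((j : ℂ) - 2 + b * i) • fl 2 i i (j + 1) 1 - (b / 2) • EP i j 1
    rw [Dd_a1, flz 2 1 i i j (by decide), flz 2 1 i i (j + 1) (by decide), flv 2 2 i i j rfl,
      EP_1, hz, mul_zero, zero_add, smul_zero, mo_mul, zero_add, zero_add, Nat.add_comm 1 i]
  · show Dd (a2 b) (fl 2 i i j 2) - Dd (fl 2 i i j) (a2 b 2) =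
      ((j : ℂ) - 2 + b * i) • fl 2 i i (j + 1) 2 - (b / 2) • EP i j 2
    rw [Dd_a2, flv 2 2 i i j rfl, flv 2 2 i i (j + 1) rfl, EP_2, Dd_a2_mo, smul_zero, sub_zero,
      mo_mul, zero_add, Nat.add_comm 1 j, ← sub_smul]
    congr 1
    ring

end Pool.Agent.RTH
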