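import Mathlib
import Pool.Agent.RTH.Defs

/-!
Admissible parameters.
-/

namespace Pool.Agent.RTH

open MvPowerSeries Pool.Agent.RevMaps

theorem goodB_three : GoodB 3 := by
  refine ⟨?_, ?_⟩
  · intro i j hij h
    have h1 : ((j + 3 * i : ℕ) : ℂ) = ((0 : ℕ) : ℂ) := by push_cast; exact h
    have h2 := Nat.cast_injective h1
    omega
  · intro l h
    have h1 : ((3 * l : ℕ) : ℂ) = ((2 : ℕ) : ℂ) := by push_cast; exact h
    have h2 := Nat.cast_injective h1
    omega

theorem goodB_five : GoodB 5 := by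
  refine ⟨?_, ?_⟩
  · intro i j hij h
    have h1 : ((j + 5 * i : ℕ) : ℂ) = ((0 : ℕ) : ℂ) := by push_cast; exact h
    have h2 := Nat.cast_injective h1
    omega
  · intro l h
    have h1 : ((5 * l : ℕ) : ℂ) = ((2 : ℕ) : ℂ) := by push_cast; exact h
    have h2 := Nat.cast_injective h1
    omega

/-- `b = 4 / m`, `m = 2 h + 1`: `4 i / m + j = 0` iff `i = j = 0`; `4 l / m = 2` iff `2 l = m`: impossible -/
theorem goodB_frac (h : ℕ) : GoodB (4 / (2 * (h : ℂ) + 1)) := by
  have hm : (2 * (h : ℂ) + 1) ≠ 0 := by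
    have h1 : ((2 * h + 1 : ℕ) : ℂ) ≠ 0 := Nat.cast_ne_zero.2 (by omega)
    push_cast at h1
    exact h1
  refine ⟨?_, ?_⟩
  · intro i j hij h0
    have h1 : ((j * (2 * h + 1) + 4 * i : ℕ) : ℂ) = ((0 : ℕ) : ℂ) := by
      push_cast
      field_simp at h0
      linear_combination h0
    have h2 := Nat.cast_injective h1
    have h3 : j * (2 * h + 1) = 0 := by omega
    rcases Nat.mul_eq_zero.1 h3 with h4 | h4 <;> omega
  · intro l h0
    have h1 : ((4 * l : ℕ) : ℂ) = ((2 * (2 * h + 1) : ℕ) : ℂ) := by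
      push_cast
      field_simp at h0
      linear_combination h0
    have h2 := Nat.cast_injective h1
    omega

end Pool.Agent.RTH
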