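import Mathlib
import Pool.Agent.RTH.Pd

/-!
More functionals, `m = 2` (exact; checked by computer).
-/

namespace Pool.Agent.RTH

open MvPowerSeries Pool.Agent.RevMaps

private theorem k0_br (k q : V 3) (i : Fin 3) : br k q i = Dd q (k i) - Dd k (q i) := rfl

private theorem k0_f20 (a b c : ℕ) : fl 2 a b c 0 = 0 := by rw [fl_apply, if_neg (by decide)]
private theorem k0_f21 (a b c : ℕ) : fl 2 a b c 1 = 0 := by rw [fl_apply, if_neg (by decide)]
private theorem k0_f22 (a b c : ℕ) : fl 2 a b c 2 = mo a b c := by rw [fl_apply, if_pos rfl]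
private theorem k0_f00 (a b c : ℕ) : fl 0 a b c 0 = mo a b c := by rw [fl_apply, if_pos rfl]
private theorem k0_f01 (a b c : ℕ) : fl 0 a b c 1 = 0 := by rw [fl_apply, if_neg (by decide)]
private theorem k0_f02 (a b c : ℕ) : fl 0 a b c 2 = 0 := by rw [fl_apply, if_neg (by decide)]

private theorem k0_pz (i : Fin 3) : pderiv ℂ i (0 : PS 3) = 0 := map_zero _

private theorem k0_nat (l : ℕ) (a b c : ℕ) (p : PS 3) :
    cf3 a b c ((l : PS 3) * p) = (l : ℂ) * cf3 a b c p := by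
  have h : (l : PS 3) * p = (l : ℂ) • p := by
    rw [MvPowerSeries.smul_eq_C_mul, map_natCast]
  rw [h, map_smul, smul_eq_mul]

theorem om_br_Theta0 {b : ℂ} {l : ℕ} (hb : b * (l : ℂ) ≠ 2) (q : V 3) :
    om b l (br (fl 2 l l 0) q) = 1 / (b * l - 2) *
      (2 * cf3 1 0 1 (q 0) + 2 * cf3 0 1 1 (q 1) - 2 * b * cf3 0 0 2 (q 2)) := by
  have hb' : b * (l : ℂ) - 2 ≠ 0 := sub_ne_zero.2 hb
  have e0 : br (fl 2 l l 0) q 0 = -(mo l l 0 * pderiv ℂ 2 (q 0)) := by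
    rw [k0_br, Dd_three, Dd_three, k0_f20, k0_f21, k0_f22, k0_pz, k0_pz, k0_pz]
    ring
  have e1 : br (fl 2 l l 0) q 1 = -(mo l l 0 * pderiv ℂ 2 (q 1)) := by
    rw [k0_br, Dd_three, Dd_three, k0_f20, k0_f21, k0_f22, k0_pz, k0_pz, k0_pz]
    ring
  have e2 : br (fl 2 l l 0) q 2 = (l : ℂ) • (mo (l - 1) l 0 * q 0) + (l : ℂ) • (mo l (l - 1) 0 * q 1)
      - mo l l 0 * pderiv ℂ 2 (q 2) := by
    rw [k0_br, Dd_three, Dd_three, k0_f20, k0_f21, k0_f22, pderiv0_mo, pderiv1_mo, pderiv2_mo, Nat.cast_zero, zero_smul,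
      smul_mul_assoc, smul_mul_assoc]
    ring
  have c0 : cf3 (l + 1) l 0 (br (fl 2 l l 0) q 0) = -cf3 1 0 1 (q 0) := by
    rw [e0, map_neg, cf3_mo_mul' (by omega) (le_refl _) (le_refl _), Nat.add_sub_cancel_left,
      Nat.sub_self, Nat.sub_zero, cf3_pderiv2]
    simp
  have c1 : cf3 l (l + 1) 0 (br (fl 2 l l 0) q 1) = -cf3 0 1 1 (q 1) := by
    rw [e1, map_neg, cf3_mo_mul' (le_refl _) (by omega) (le_refl _), Nat.add_sub_cancel_left,
      Nat.sub_self, Nat.sub_zero, cf3_pderiv2]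
    simp
  have c2 : cf3 l l 1 (br (fl 2 l l 0) q 2) = (l : ℂ) * cf3 1 0 1 (q 0) + (l : ℂ) * cf3 0 1 1 (q 1)
      - 2 * cf3 0 0 2 (q 2) := by
    rw [e2, map_sub, map_add, map_smul, map_smul, smul_eq_mul, smul_eq_mul,
      cf3_mo_mul' (le_refl _) (le_refl _) (by omega), Nat.sub_self, Nat.sub_zero, cf3_pderiv2]
    rcases Nat.eq_zero_or_pos l with hl | hl
    · subst hl
      simp only [Nat.cast_zero, zero_mul, zero_add, Nat.cast_one]
      ring
    · rw [cf3_mo_mul' (by omega) (le_refl _) (by omega), cf3_mo_mul' (le_refl _) (by omega) (by omega)]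
      have h1 : l - (l - 1) = 1 := by omega
      rw [h1, Nat.sub_self, Nat.sub_zero]
      push_cast
      ring
  rw [om, c0, c1, c2]
  field_simp
  ring

theorem psi_k1 (q : V 3) : cf3 0 0 3 (br (fl 2 1 0 1) q 2) = cf3 0 0 2 (q 0) := by
  have e2 : br (fl 2 1 0 1) q 2 = mo 0 0 1 * q 0 + mo 1 0 0 * q 2 - mo 1 0 1 * pderiv ℂ 2 (q 2) := by
    rw [k0_br, Dd_three, Dd_three, k0_f20, k0_f21, k0_f22, pderiv0_mo, pderiv1_mo, pderiv2_mo, Nat.cast_zero, zero_smul,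
      Nat.cast_one, one_smul, one_smul]
    ring
  rw [e2, map_sub, map_add, cf3_mo_mul' (by omega) (by omega) (by omega),
    cf3_mo_mul_zero (Or.inl (by omega)), cf3_mo_mul_zero (Or.inl (by omega))]
  simp

theorem psi_k2 (q : V 3) : cf3 0 0 3 (br (fl 2 0 1 1) q 2) = cf3 0 0 2 (q 1) := by
  have e2 : br (fl 2 0 1 1) q 2 = mo 0 0 1 * q 1 + mo 0 1 0 * q 2 - mo 0 1 1 * pderiv ℂ 2 (q 2) := by
    rw [k0_br, Dd_three, Dd_three, k0_f20, k0_f21, k0_f22, pderiv0_mo, pderiv1_mo, pderiv2_mo, Nat.cast_zero, zero_smul,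
      Nat.cast_one, one_smul, one_smul]
    ring
  rw [e2, map_sub, map_add, cf3_mo_mul' (by omega) (by omega) (by omega),
    cf3_mo_mul_zero (Or.inr (Or.inl (by omega))), cf3_mo_mul_zero (Or.inr (Or.inl (by omega)))]
  simp

theorem psi_k3 (q : V 3) : cf3 0 0 3 (br (fl 0 0 0 2) q 2) = -cf3 1 0 1 (q 2) := by
  have e2 : br (fl 0 0 0 2) q 2 = -(mo 0 0 2 * pderiv ℂ 0 (q 2)) := by
    rw [k0_br, Dd_three, Dd_three, k0_f00, k0_f01, k0_f02, k0_pz, k0_pz, k0_pz]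
    ring
  rw [e2, map_neg, cf3_mo_mul' (by omega) (by omega) (by omega), cf3_pderiv0]
  simp

end Pool.Agent.RTH
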