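import Mathlib
import Pool.Agent.RTH.Ac

/-!
Basic properties of the submodule `ZT`.  `Good` is in `RevMaps.Hom`
(`Good Z d M M'` : `M M'` inverse to each other and `a - act M M' a ∈ Z` for `a` of order `≥ d`).
`ZT_good0`: take `a0 = a`, `a3 = x = 0`.  `ZB_DD`: `Good.mul` of `ZT_good0`, `ZT_good3`, `T0_tt`, `tt_T0`.
-/

namespace Pool.Agent.RTH

open MvPowerSeries Pool.Agent.RevMaps

private theorem Zg_act0 {n : ℕ} (M M' : Matrix (Fin n) (Fin n) ℂ) : act M M' (0 : V n) = 0 := by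
  have := act_smul M M' 0 (0 : V n)
  simpa using this

private theorem Zg_OV0 {n : ℕ} (k : ℕ) : OV k (0 : V n) := fun _ => O_of_zero k

theorem ZT_OV {n : ℕ} (T T' : Matrix (Fin n) (Fin n) ℂ) (a : V n) (d : ℕ) {r : V n}
    (hr : OV (d + 1) r) : r ∈ ZT T T' a d := by
  refine ⟨0, 0, 0, Zg_OV0 _, Zg_OV0 _, Zg_OV0 _, Zg_OV0 _, Zg_act0 _ _, ?_⟩
  rw [Zg_act0, Zg_act0, br_zero_left]
  simpa using hr

theorem ZT_good0 {n : ℕ} (T T' : Matrix (Fin n) (Fin n) ℂ) (hT : T * T = 1) (a : V n) (d : ℕ) :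
    Good (ZT T T' a d) d T T := by
  refine ⟨hT, hT, fun c hc => ?_⟩
  refine ⟨c, 0, 0, hc, Zg_OV0 _, Zg_OV0 _, Zg_OV0 _, Zg_act0 _ _, ?_⟩
  rw [Zg_act0, br_zero_left]
  simpa using Zg_OV0 (d + 1)

theorem ZT_good3 {n : ℕ} (T T' : Matrix (Fin n) (Fin n) ℂ) (hT' : T' * T' = 1) (a : V n) (d : ℕ) :
    Good (ZT T T' a d) d T' T' := by
  refine ⟨hT', hT', fun c hc => ?_⟩
  refine ⟨0, c, 0, Zg_OV0 _, hc, Zg_OV0 _, Zg_OV0 _, Zg_act0 _ _, ?_⟩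
  rw [Zg_act0, br_zero_left]
  simpa using Zg_OV0 (d + 1)

theorem ZT_br {n : ℕ} (T T' : Matrix (Fin n) (Fin n) ℂ) (a : V n) (d : ℕ) {x : V n}
    (hx : OV (d - 1) x) (hx2 : OV 2 x) (hinv : act (T * T') (T' * T) x = x) :
    br x a ∈ ZT T T' a d := by
  refine ⟨0, 0, x, Zg_OV0 _, Zg_OV0 _, hx, hx2, hinv, ?_⟩
  rw [Zg_act0, Zg_act0]
  simpa using Zg_OV0 (d + 1)

theorem ZB_DD (b : ℂ) (d : ℕ) : Good (ZB b d) d DD DD' := by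
  have h := (ZT_good0 T0 tt T0_sq (a2 b) d).mul (ZT_good3 T0 tt tt_sq (a2 b) d)
  rwa [T0_tt, tt_T0] at h

theorem ZB_tt (b : ℂ) (d : ℕ) : Good (ZB b d) d tt tt :=
  ZT_good3 T0 tt tt_sq (a2 b) d

/-- invariant fields of order `d - 1` -/
theorem ZB_br (b : ℂ) {d : ℕ} {x : V 3} (hx : OV (d - 1) x) (hx2 : OV 2 x)
    (hinv : act DD DD' x = x) : br x (a2 b) ∈ ZB b d := by
  apply ZT_br T0 tt (a2 b) d hx hx2
  rwa [T0_tt, tt_T0]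

end Pool.Agent.RTH
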