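import Mathlib
import Pool.Agent.RTH.Zg

/-!
Monomials of nonzero weight, and the action of `tt`, modulo `ZB b d`.
`fl0_mem`: `(1 - 2 (1/2)^a 2^b') • fl 0 a b' c ∈ Z` (from `ZB_DD`, `act_DD_fl0`), the factor is `≠ 0` when
`a ≠ b' + 1` (compare `mx_mem` in `RevMaps.TwoTorus`, lemma `two_pow_ne`).
-/

namespace Pool.Agent.RTH

open MvPowerSeries Pool.Agent.RevMaps

theorem fl0_mem {b : ℂ} {d a b' c : ℕ} (h : a + b' + c = d) (hne : a ≠ b' + 1) :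
    fl 0 a b' c ∈ ZB b d := by
  have hB := ZB_DD b d
  have h1 := hB.2.2 (fl 0 a b' c) ((OV_fl 0 a b' c).mono (by omega))
  rw [act_DD_fl0] at h1
  have h2 : fl 0 a b' c - (2 * ((1 / 2) ^ a * 2 ^ b') : ℂ) • fl 0 a b' c =
      (1 - 2 * ((1 / 2) ^ a * 2 ^ b') : ℂ) • fl 0 a b' c := by rw [sub_smul, one_smul]
  rw [h2] at h1
  refine ((ZB b d).smul_mem_iff ?_).mp h1
  intro h3
  apply two_pow_ne hne
  rw [half_pow] at h3
  have h4 : (2 : ℂ) ^ a ≠ 0 := pow_ne_zero _ two_ne_zero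
  field_simp at h3
  rw [pow_succ]
  linear_combination h3

theorem fl1_mem {b : ℂ} {d a b' c : ℕ} (h : a + b' + c = d) (hne : b' ≠ a + 1) :
    fl 1 a b' c ∈ ZB b d := by
  have hB := ZB_DD b d
  have h1 := hB.2.2 (fl 1 a b' c) ((OV_fl 1 a b' c).mono (by omega))
  rw [act_DD_fl1] at h1
  have h2 : fl 1 a b' c - (1 / 2 * ((1 / 2) ^ a * 2 ^ b') : ℂ) • fl 1 a b' c =
      (1 - 1 / 2 * ((1 / 2) ^ a * 2 ^ b') : ℂ) • fl 1 a b' c := by rw [sub_smul, one_smul]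
  rw [h2] at h1
  refine ((ZB b d).smul_mem_iff ?_).mp h1
  intro h3
  apply two_pow_ne hne
  rw [half_pow] at h3
  have h4 : (2 : ℂ) ^ a ≠ 0 := pow_ne_zero _ two_ne_zero
  field_simp at h3
  rw [pow_succ]
  linear_combination -h3

theorem fl2_mem {b : ℂ} {d a b' c : ℕ} (h : a + b' + c = d) (hne : a ≠ b') :
    fl 2 a b' c ∈ ZB b d := by
  have hB := ZB_DD b d
  have h1 := hB.2.2 (fl 2 a b' c) ((OV_fl 2 a b' c).mono (by omega))
  rw [act_DD_fl2] at h1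
  have h2 : fl 2 a b' c - ((1 / 2) ^ a * 2 ^ b' : ℂ) • fl 2 a b' c =
      (1 - (1 / 2) ^ a * 2 ^ b' : ℂ) • fl 2 a b' c := by rw [sub_smul, one_smul]
  rw [h2] at h1
  refine ((ZB b d).smul_mem_iff ?_).mp h1
  intro h3
  apply two_pow_ne hne
  rw [half_pow] at h3
  have h4 : (2 : ℂ) ^ a ≠ 0 := pow_ne_zero _ two_ne_zero
  field_simp at h3
  linear_combination h3

theorem swap_mem {b : ℂ} {d i j : ℕ} (h : 2 * i + 1 + j = d) :
    fl 0 (i + 1) i j - ((-1 : ℂ) ^ j) • fl 1 i (i + 1) j ∈ ZB b d := by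
  have h1 := (ZB_tt b d).2.2 (fl 0 (i + 1) i j) ((OV_fl 0 (i + 1) i j).mono (by omega))
  rwa [act_tt_fl0] at h1

/-- `act tt tt (fl 2 i i j) = - fl 2 i i j` for even `j` -/
theorem fl2_even_mem {b : ℂ} {d i j : ℕ} (h : 2 * i + j = d) (hj : Even j) :
    fl 2 i i j ∈ ZB b d := by
  have h1 := (ZB_tt b d).2.2 (fl 2 i i j) ((OV_fl 2 i i j).mono (by omega))
  rw [act_tt_fl2, hj.neg_one_pow, neg_smul, one_smul, sub_neg_eq_add, ← two_smul ℂ] at h1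
  exact ((ZB b d).smul_mem_iff two_ne_zero).mp h1

end Pool.Agent.RTH
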