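import Mathlib
import Pool.Agent.RTH.F0
import Pool.Agent.RTH.Br

/-!
The relations coming from the brackets with `a2 b`.
`X_even_mem`: `j ≥ 2` even, `x = EP i (j-1)` has order `d - 1 ≥ 2`, `br x a2 = ((j-1) + b i) EP i j ∈ Z`, the
factor is nonzero (`GoodB`), and `fl 0 - fl 1 ∈ Z` (`swap_mem`, `j` even), so both are in `Z`.
`X_odd_mem`: the same with `HH i (j-1)`, `(i, j-1) ≠ (0,0)` because `d ≥ 3`; `fl 0 + fl 1 ∈ Z` (`swap_mem`, `j` odd).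
`Z_mem`: `x = fl 2 i i (j-1)`: `((j-1) - 2 + b i) fl 2 i i j - (b/2) EP i (j-1) ∈ Z`, `EP i (j-1) ∈ Z` by
`X_even_mem`, `(j - 3) + b i ≠ 0`.  `Z1_rel`: `x = fl 2 l l 0`, `(b l - 2) fl 2 l l 1 - (b/2) EP l 0 ∈ Z` and
`EP l 0 = 2 fl 0 (l+1) l 0` modulo `Z`.
-/

namespace Pool.Agent.RTH

open MvPowerSeries Pool.Agent.RevMaps

private theorem fx_half {Z : Submodule ℂ (V 3)} {u v : V 3} (h1 : u + v ∈ Z) (h2 : u - v ∈ Z) :
    u ∈ Z ∧ v ∈ Z := by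
  have h3 : (2 : ℂ) • u ∈ Z := by
    have h := Z.add_mem h1 h2
    have e : u + v + (u - v) = (2 : ℂ) • u := by
      rw [two_smul]
      abel
    rwa [e] at h
  have h4 : u ∈ Z := (Z.smul_mem_iff two_ne_zero).mp h3
  refine ⟨h4, ?_⟩
  have h5 := Z.sub_mem h1 h4
  rwa [add_sub_cancel_left] at h5

theorem X_even_mem {b : ℂ} (hb : GoodB b) {d i j : ℕ} (h : 2 * i + 1 + j = d) (hj : Even j)
    (hj2 : 2 ≤ j) : fl 0 (i + 1) i j ∈ ZB b d ∧ fl 1 i (i + 1) j ∈ ZB b d := by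
  obtain ⟨k, rfl⟩ : ∃ k, j = k + 1 := ⟨j - 1, by omega⟩
  have h1 : br (EP i k) (a2 b) ∈ ZB b d :=
    ZB_br b ((OV_EP i k).mono (by omega)) ((OV_EP i k).mono (by omega)) (act_DD_EP i k)
  rw [br_EP] at h1
  have h2 : EP i (k + 1) ∈ ZB b d :=
    ((ZB b d).smul_mem_iff (hb.1 i k (Or.inr (by omega)))).mp h1
  have h3 := swap_mem (b := b) h
  rw [hj.neg_one_pow, one_smul] at h3
  exact fx_half h2 h3

theorem X_odd_mem {b : ℂ} (hb : GoodB b) {d i j : ℕ} (h : 2 * i + 1 + j = d) (hj : Odd j)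
    (hd : 3 ≤ d) : fl 0 (i + 1) i j ∈ ZB b d ∧ fl 1 i (i + 1) j ∈ ZB b d := by
  obtain ⟨k, rfl⟩ : ∃ k, j = k + 1 := by
    obtain ⟨m, hm⟩ := hj
    exact ⟨2 * m, hm⟩
  have h1 : br (HH i k) (a2 b) ∈ ZB b d :=
    ZB_br b ((OV_HH i k).mono (by omega)) ((OV_HH i k).mono (by omega)) (act_DD_HH i k)
  rw [br_HH] at h1
  have h2 : HH i (k + 1) ∈ ZB b d :=
    ((ZB b d).smul_mem_iff (hb.1 i k (by omega))).mp h1
  have h3 := swap_mem (b := b) h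
  rw [hj.neg_one_pow, neg_one_smul, sub_neg_eq_add] at h3
  exact fx_half h3 h2

theorem Z_mem {b : ℂ} (hb : GoodB b) {d i j : ℕ} (h : 2 * i + j = d) (hj : Odd j) (hj3 : 3 ≤ j)
    (hne : ¬ (i = 0 ∧ j = 3)) : fl 2 i i j ∈ ZB b d := by
  obtain ⟨k, rfl⟩ : ∃ k, j = k + 2 + 1 := ⟨j - 3, by omega⟩
  have hk : Even (k + 2) := by
    obtain ⟨m, hm⟩ := hj
    exact ⟨m, by omega⟩
  have hov : OV (d - 1) (fl 2 i i (k + 2)) := (OV_fl 2 i i (k + 2)).mono (by omega)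
  have hov2 : OV 2 (fl 2 i i (k + 2)) := (OV_fl 2 i i (k + 2)).mono (by omega)
  have h1 : br (fl 2 i i (k + 2)) (a2 b) ∈ ZB b d :=
    ZB_br b hov hov2 (act_DD_fl2_diag i (k + 2))
  rw [br_fl2] at h1
  obtain ⟨h2, h3⟩ := X_even_mem hb (d := d) (i := i) (j := k + 2) (by omega) hk (by omega)
  have h4 : (b / 2) • EP i (k + 2) ∈ ZB b d :=
    (ZB b d).smul_mem _ ((ZB b d).add_mem h2 h3)
  have h5 := (ZB b d).add_mem h1 h4
  rw [sub_add_cancel] at h5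
  refine ((ZB b d).smul_mem_iff ?_).mp h5
  have h6 := hb.1 i k (by omega)
  have e : ((k + 2 : ℕ) : ℂ) - 2 + b * i = (k : ℂ) + b * i := by
    push_cast
    ring
  rw [e]
  exact h6

theorem Z1_rel {b : ℂ} (hb : GoodB b) {l : ℕ} (hl : 1 ≤ l) :
    fl 2 l l 1 - (b / (b * l - 2)) • fl 0 (l + 1) l 0 ∈ ZB b (2 * l + 1) := by
  have hov : OV (2 * l + 1 - 1) (fl 2 l l 0) := (OV_fl 2 l l 0).mono (by omega)
  have hov2 : OV 2 (fl 2 l l 0) := (OV_fl 2 l l 0).mono (by omega)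
  have h1 : br (fl 2 l l 0) (a2 b) ∈ ZB b (2 * l + 1) :=
    ZB_br b hov hov2 (act_DD_fl2_diag l 0)
  rw [br_fl2] at h1
  have h2 := swap_mem (b := b) (d := 2 * l + 1) (i := l) (j := 0) (by omega)
  rw [pow_zero, one_smul] at h2
  have h3 := (ZB b (2 * l + 1)).sub_mem h1 ((ZB b (2 * l + 1)).smul_mem (b / 2) h2)
  have h0 : b * (l : ℂ) - 2 ≠ 0 := sub_ne_zero.mpr (hb.2 l)
  have e : (((0 : ℕ) : ℂ) - 2 + b * l) • fl 2 l l (0 + 1) - (b / 2) • EP l 0 -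
      (b / 2) • (fl 0 (l + 1) l 0 - fl 1 l (l + 1) 0) =
      (b * (l : ℂ) - 2) • (fl 2 l l 1 - (b / (b * l - 2)) • fl 0 (l + 1) l 0) := by
    have e1 : (b * (l : ℂ) - 2) • (fl 2 l l 1 - (b / (b * l - 2)) • fl 0 (l + 1) l 0) =
        (b * (l : ℂ) - 2) • fl 2 l l 1 - b • fl 0 (l + 1) l 0 := by
      rw [smul_sub, smul_smul, mul_div_cancel₀ _ h0]
    rw [e1, Nat.cast_zero, zero_add]
    unfold EP
    module
  rw [e] at h3
  exact ((ZB b (2 * l + 1)).smul_mem_iff h0).mp h3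

end Pool.Agent.RTH
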