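import Mathlib
import Pool.Agent.RTH.FX

/-!
Even degrees `≥ 4`: everything.  By `le_of_fl`: monomials.  `fl 0 a b' c`: if `a ≠ b'+1` `fl0_mem`; else
`c` is odd (`2 b' + 1 + c = d` even): `X_odd_mem`.  Same for `fl 1`.  `fl 2 a b' c`: `a ≠ b'`: `fl2_mem`; `a = b'`: `c`
even, `fl2_even_mem`.  Higher order: `ZT_OV`.
-/

namespace Pool.Agent.RTH

open MvPowerSeries Pool.Agent.RevMaps

theorem F1 {b : ℂ} (hb : GoodB b) {d : ℕ} (hd : 4 ≤ d) (he : Even d) (r : V 3) (hr : OV d r) :
    r ∈ ZB b d := by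
  refine le_of_fl (ZB b d) d ?_ (fun q hq => ZT_OV _ _ _ _ hq) r hr
  obtain ⟨k, hk⟩ := he
  intro i a b' c habc
  fin_cases i
  · by_cases hne : a = b' + 1
    · subst hne
      exact (X_odd_mem hb (i := b') (j := c) (by omega) ⟨k - b' - 1, by omega⟩ (by omega)).1
    · exact fl0_mem habc hne
  · by_cases hne : b' = a + 1
    · subst hne
      exact (X_odd_mem hb (i := a) (j := c) (by omega) ⟨k - a - 1, by omega⟩ (by omega)).2
    · exact fl1_mem habc hne
  · by_cases hne : a = b'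
    · subst hne
      exact fl2_even_mem (by omega) ⟨k - a, by omega⟩
    · exact fl2_mem habc hne

end Pool.Agent.RTH
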