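import Mathlib
import Pool.Agent.RTH.FX

/-!
Odd degrees `d = 2 l + 1 ≥ 5`: the kernel of `om b l`.  Model: `torus_odd` in `RevMaps.TwoTorus`:
show `r - (om b l r) • fl 0 (l+1) l 0 ∈ Z` for every `r` of order `≥ d` by `le_of_fl` (the set of such `r` is a
submodule; `om` is linear: lemmas below).  Monomials: `fl 0 a b' c`: `a ≠ b'+1`: in `Z` and `om = 0`;
`a = b'+1`: `c` even; `c = 0`: it is `fl 0 (l+1) l 0`, `om = 1`; `c ≥ 2`: `X_even_mem`, `om = 0`.  `fl 1`: the same
with `swap_mem` for `c = 0`.  `fl 2 a b' c`, `a = b'`, `c` odd: `c = 1`: `Z1_rel`, `om = b/(b l - 2)`; `c ≥ 3`: `Z_mem`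
(`d ≥ 5` excludes `(0,3)`), `om = 0`.
-/

namespace Pool.Agent.RTH

open MvPowerSeries Pool.Agent.RevMaps

theorem om_add (b : ℂ) (l : ℕ) (r s : V 3) : om b l (r + s) = om b l r + om b l s := by
  unfold om
  rw [Pi.add_apply, Pi.add_apply, Pi.add_apply, map_add, map_add, map_add]
  ring

theorem om_smul (b : ℂ) (l : ℕ) (c : ℂ) (r : V 3) : om b l (c • r) = c * om b l r := by
  unfold om
  rw [Pi.smul_apply, Pi.smul_apply, Pi.smul_apply, map_smul, map_smul, map_smul, smul_eq_mul,
    smul_eq_mul, smul_eq_mul]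
  ring

theorem om_OV {b : ℂ} {l : ℕ} {r : V 3} (hr : OV (2 * l + 2) r) : om b l r = 0 := by
  unfold om
  rw [cf3_O (hr 0) (by omega), cf3_O (hr 1) (by omega), cf3_O (hr 2) (by omega), mul_zero,
    add_zero, add_zero]

/-- `om` as a linear map -/
noncomputable def omL (b : ℂ) (l : ℕ) : V 3 →ₗ[ℂ] ℂ where
  toFun := om b l
  map_add' := om_add b l
  map_smul' c r := by rw [om_smul, smul_eq_mul, RingHom.id_apply]

theorem omL_apply (b : ℂ) (l : ℕ) (r : V 3) : omL b l r = om b l r := rfl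

theorem om_fl0 (b : ℂ) (l a b' c : ℕ) :
    om b l (fl 0 a b' c) = if l + 1 = a ∧ l = b' ∧ 0 = c then 1 else 0 := by
  unfold om
  rw [fl_apply, fl_apply, fl_apply, if_pos rfl, if_neg (by decide), if_neg (by decide), map_zero,
    map_zero, mul_zero, add_zero, add_zero, cf3_mo]

theorem om_fl1 (b : ℂ) (l a b' c : ℕ) :
    om b l (fl 1 a b' c) = if l = a ∧ l + 1 = b' ∧ 0 = c then 1 else 0 := by
  unfold om
  rw [fl_apply, fl_apply, fl_apply, if_neg (by decide), if_pos rfl, if_neg (by decide), map_zero,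
    map_zero, mul_zero, add_zero, zero_add, cf3_mo]

theorem om_fl2 (b : ℂ) (l a b' c : ℕ) :
    om b l (fl 2 a b' c) = b / (b * l - 2) * (if l = a ∧ l = b' ∧ 1 = c then 1 else 0) := by
  unfold om
  rw [fl_apply, fl_apply, fl_apply, if_neg (by decide), if_neg (by decide), if_pos rfl, map_zero,
    map_zero, zero_add, zero_add, cf3_mo]

theorem F2_red0 {b : ℂ} (hb : GoodB b) {l a b' c : ℕ} (h : a + b' + c = 2 * l + 1) :
    fl 0 a b' c - om b l (fl 0 a b' c) • fl 0 (l + 1) l 0 ∈ ZB b (2 * l + 1) := by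
  by_cases hab : a = b' + 1
  · subst hab
    rcases Nat.eq_zero_or_pos c with hc | hc
    · subst hc
      have hl : b' = l := by omega
      subst hl
      rw [om_fl0, if_pos ⟨rfl, rfl, rfl⟩, one_smul, sub_self]
      exact (ZB b _).zero_mem
    · rw [om_fl0, if_neg (by omega), zero_smul, sub_zero]
      exact (X_even_mem hb (d := 2 * l + 1) (i := b') (j := c) (by omega) ⟨l - b', by omega⟩
        (by omega)).1
  · rw [om_fl0, if_neg (by omega), zero_smul, sub_zero]
    exact fl0_mem h hab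

theorem F2_red1 {b : ℂ} (hb : GoodB b) {l a b' c : ℕ} (h : a + b' + c = 2 * l + 1) :
    fl 1 a b' c - om b l (fl 1 a b' c) • fl 0 (l + 1) l 0 ∈ ZB b (2 * l + 1) := by
  by_cases hab : b' = a + 1
  · subst hab
    rcases Nat.eq_zero_or_pos c with hc | hc
    · subst hc
      have hl : a = l := by omega
      subst hl
      rw [om_fl1, if_pos ⟨rfl, rfl, rfl⟩, one_smul]
      have h1 := swap_mem (b := b) (d := 2 * a + 1) (i := a) (j := 0) (by omega)
      rw [pow_zero, one_smul] at h1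
      have h2 := (ZB b (2 * a + 1)).neg_mem h1
      rwa [neg_sub] at h2
    · rw [om_fl1, if_neg (by omega), zero_smul, sub_zero]
      exact (X_even_mem hb (d := 2 * l + 1) (i := a) (j := c) (by omega) ⟨l - a, by omega⟩
        (by omega)).2
  · rw [om_fl1, if_neg (by omega), zero_smul, sub_zero]
    exact fl1_mem h hab

theorem F2_red2 {b : ℂ} (hb : GoodB b) {l a b' c : ℕ} (hl : 1 ≤ l) (h : a + b' + c = 2 * l + 1)
    (hne : ¬ (a = 0 ∧ b' = 0 ∧ c = 3)) :
    fl 2 a b' c - om b l (fl 2 a b' c) • fl 0 (l + 1) l 0 ∈ ZB b (2 * l + 1) := by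
  by_cases hab : a = b'
  · subst hab
    by_cases hc : c = 1
    · subst hc
      have hl' : a = l := by omega
      subst hl'
      rw [om_fl2, if_pos ⟨rfl, rfl, rfl⟩, mul_one]
      exact Z1_rel hb hl
    · rw [om_fl2, if_neg (by omega), mul_zero, zero_smul, sub_zero]
      exact Z_mem hb (d := 2 * l + 1) (i := a) (j := c) (by omega) ⟨l - a, by omega⟩
        (by omega) (by omega)
  · rw [om_fl2, if_neg (by omega), mul_zero, zero_smul, sub_zero]
    exact fl2_mem h hab

theorem F2 {b : ℂ} (hb : GoodB b) {l : ℕ} (hl : 2 ≤ l) (r : V 3) (hr : OV (2 * l + 1) r)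
    (h : om b l r = 0) : r ∈ ZB b (2 * l + 1) := by
  have key : r ∈ (ZB b (2 * l + 1)).comap
      (LinearMap.id - (omL b l).smulRight (fl 0 (l + 1) l 0)) := by
    refine le_of_fl _ (2 * l + 1) ?_ ?_ r hr
    · intro i a b' c habc
      rw [Submodule.mem_comap]
      show fl i a b' c - om b l (fl i a b' c) • fl 0 (l + 1) l 0 ∈ ZB b (2 * l + 1)
      fin_cases i
      · exact F2_red0 hb habc
      · exact F2_red1 hb habc
      · exact F2_red2 hb (by omega) habc (by omega)
    · intro q hq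
      rw [Submodule.mem_comap]
      show q - om b l q • fl 0 (l + 1) l 0 ∈ ZB b (2 * l + 1)
      rw [om_OV hq, zero_smul, sub_zero]
      exact ZT_OV _ _ _ _ hq
  rw [Submodule.mem_comap] at key
  have h2 : r - om b l r • fl 0 (l + 1) l 0 ∈ ZB b (2 * l + 1) := key
  rwa [h, zero_smul, sub_zero] at h2

end Pool.Agent.RTH
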