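import Mathlib
import Pool.Agent.RTH.F2

/-!
Degree 3: the kernel of `om b 1` and of the coefficient of `z^3` in the third component.
As `F2` (show `r - (om b 1 r) • fl 0 2 1 0 - (cf3 0 0 3 (r 2)) • fl 2 0 0 3 ∈ Z`), now `fl 2 0 0 3` is not in `Z`.
-/

namespace Pool.Agent.RTH

open MvPowerSeries Pool.Agent.RevMaps

theorem F3 {b : ℂ} (hb : GoodB b) (r : V 3) (hr : OV 3 r) (h : om b 1 r = 0)
    (h' : cf3 0 0 3 (r 2) = 0) : r ∈ ZB b 3 := by
  have key : r ∈ (ZB b (2 * 1 + 1)).comap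
      (LinearMap.id - (omL b 1).smulRight (fl 0 (1 + 1) 1 0) -
        ((cf3 0 0 3).comp (LinearMap.proj (2 : Fin 3))).smulRight (fl 2 0 0 3)) := by
    refine le_of_fl _ (2 * 1 + 1) ?_ ?_ r hr
    · intro i a b' c habc
      rw [Submodule.mem_comap]
      show fl i a b' c - om b 1 (fl i a b' c) • fl 0 (1 + 1) 1 0 -
        cf3 0 0 3 (fl i a b' c 2) • fl 2 0 0 3 ∈ ZB b (2 * 1 + 1)
      fin_cases i
      · show fl 0 a b' c - om b 1 (fl 0 a b' c) • fl 0 (1 + 1) 1 0 -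
          cf3 0 0 3 (fl 0 a b' c 2) • fl 2 0 0 3 ∈ ZB b (2 * 1 + 1)
        rw [fl_apply, if_neg (by decide), map_zero, zero_smul, sub_zero]
        exact F2_red0 hb habc
      · show fl 1 a b' c - om b 1 (fl 1 a b' c) • fl 0 (1 + 1) 1 0 -
          cf3 0 0 3 (fl 1 a b' c 2) • fl 2 0 0 3 ∈ ZB b (2 * 1 + 1)
        rw [fl_apply, if_neg (by decide), map_zero, zero_smul, sub_zero]
        exact F2_red1 hb habc
      · show fl 2 a b' c - om b 1 (fl 2 a b' c) • fl 0 (1 + 1) 1 0 -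
          cf3 0 0 3 (fl 2 a b' c 2) • fl 2 0 0 3 ∈ ZB b (2 * 1 + 1)
        rw [fl_apply, if_pos rfl, cf3_mo]
        by_cases h3 : a = 0 ∧ b' = 0 ∧ c = 3
        · obtain ⟨rfl, rfl, rfl⟩ := h3
          rw [if_pos ⟨rfl, rfl, rfl⟩, om_fl2, if_neg (by omega), mul_zero, zero_smul, sub_zero,
            one_smul, sub_self]
          exact (ZB b _).zero_mem
        · rw [if_neg (by omega), zero_smul, sub_zero]
          exact F2_red2 hb (le_refl 1) habc h3
    · intro q hq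
      rw [Submodule.mem_comap]
      show q - om b 1 q • fl 0 (1 + 1) 1 0 - cf3 0 0 3 (q 2) • fl 2 0 0 3 ∈ ZB b (2 * 1 + 1)
      rw [om_OV hq, zero_smul, sub_zero, cf3_O (hq 2) (by omega), zero_smul, sub_zero]
      exact ZT_OV _ _ _ _ hq
  rw [Submodule.mem_comap] at key
  have h2 : r - om b 1 r • fl 0 (1 + 1) 1 0 - cf3 0 0 3 (r 2) • fl 2 0 0 3 ∈
      ZB b (2 * 1 + 1) := key
  rwa [h, h', zero_smul, sub_zero, zero_smul, sub_zero] at h2

end Pool.Agent.RTH
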