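import Mathlib
import Pool.Agent.RTH.F0

/-!
Degree 2: show `r - (cf3 1 0 1 (r 0) - cf3 0 1 1 (r 1)) • fl 0 1 0 1 ∈ Z` for `r` of order `≥ 2`
by `le_of_fl`.  Monomials of degree 2: `fl 0 a b' c` with `a = b'+1`: only `fl 0 1 0 1`; `fl 1`: only `fl 1 0 1 1`
(`swap_mem` with `j = 1`); `fl 2 a a c`: `fl 2 1 1 0`, `fl 2 0 0 2`: `fl2_even_mem`.  No condition on `b`.
-/

namespace Pool.Agent.RTH

open MvPowerSeries Pool.Agent.RevMaps

theorem F4 (b : ℂ) (r : V 3) (hr : OV 2 r) (h : cf3 1 0 1 (r 0) = cf3 0 1 1 (r 1)) :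
    r ∈ ZB b 2 := by
  obtain ⟨lam, hlam⟩ : ∃ lam : V 3 →ₗ[ℂ] ℂ, ∀ q, lam q = cf3 1 0 1 (q 0) - cf3 0 1 1 (q 1) :=
    ⟨(cf3 1 0 1) ∘ₗ LinearMap.proj 0 - (cf3 0 1 1) ∘ₗ LinearMap.proj 1, fun q => rfl⟩
  have key : ∀ q : V 3, OV 2 q →
      q ∈ (ZB b 2).comap (LinearMap.id - lam.smulRight (fl 0 1 0 1)) := by
    apply le_of_fl
    · intro i a b' c habc
      rw [Submodule.mem_comap]
      show fl i a b' c - lam (fl i a b' c) • fl 0 1 0 1 ∈ ZB b 2
      have hi : i = 0 ∨ i = 1 ∨ i = 2 := by fin_cases i <;> simp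
      rcases hi with rfl | rfl | rfl
      · have h0 : lam (fl 0 a b' c) = if 1 = a ∧ 0 = b' ∧ 1 = c then 1 else 0 := by
          rw [hlam, fl_apply, fl_apply, if_pos rfl, if_neg (by decide), map_zero, sub_zero, cf3_mo]
        rw [h0]
        by_cases hne : a = b' + 1
        · have h1 : 1 = a ∧ 0 = b' ∧ 1 = c := by omega
          rw [if_pos h1]
          obtain ⟨rfl, rfl, rfl⟩ := h1
          rw [one_smul, sub_self]
          exact Submodule.zero_mem _
        · rw [if_neg (by omega), zero_smul, sub_zero]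
          exact fl0_mem habc hne
      · have h0 : lam (fl 1 a b' c) = - if 0 = a ∧ 1 = b' ∧ 1 = c then 1 else 0 := by
          rw [hlam, fl_apply, fl_apply, if_neg (by decide), if_pos rfl, map_zero, zero_sub, cf3_mo]
        rw [h0]
        by_cases hne : b' = a + 1
        · have h1 : 0 = a ∧ 1 = b' ∧ 1 = c := by omega
          rw [if_pos h1]
          obtain ⟨rfl, rfl, rfl⟩ := h1
          have h2 := swap_mem (b := b) (d := 2) (i := 0) (j := 1) rfl
          simp only [zero_add, pow_one, neg_smul, one_smul, sub_neg_eq_add] at h2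
          rw [neg_smul, one_smul, sub_neg_eq_add, add_comm]
          exact h2
        · rw [if_neg (by omega), neg_zero, zero_smul, sub_zero]
          exact fl1_mem habc hne
      · have h0 : lam (fl 2 a b' c) = 0 := by
          rw [hlam, fl_apply, fl_apply, if_neg (by decide), if_neg (by decide), map_zero, map_zero,
            sub_zero]
        rw [h0, zero_smul, sub_zero]
        by_cases hne : a = b'
        · subst hne
          exact fl2_even_mem (by omega) ⟨1 - a, by omega⟩
        · exact fl2_mem habc hne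
    · intro q hq
      rw [Submodule.mem_comap]
      show q - lam q • fl 0 1 0 1 ∈ ZB b 2
      have h1 : lam q = 0 := by
        rw [hlam, cf3_O (hq 0) (by norm_num), cf3_O (hq 1) (by norm_num), sub_zero]
      rw [h1, zero_smul, sub_zero]
      exact ZT_OV _ _ _ _ hq
  have h1 := key r hr
  rw [Submodule.mem_comap] at h1
  have h2 : (LinearMap.id - lam.smulRight (fl 0 1 0 1) : V 3 →ₗ[ℂ] V 3) r = r := by
    show r - lam r • fl 0 1 0 1 = r
    rw [hlam, h, sub_self, zero_smul, sub_zero]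
  rwa [h2] at h1

end Pool.Agent.RTH
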