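import Mathlib
import Pool.Agent.RTH.Defs

/-!
The middle factor.  `n` arbitrary, `B B' = B' B = 1`.
`comm_iff`: compare `linMap B * (1 + p)` and `(1 + p) * linMap B` (see `comm_R` in `RevMaps.LiftConj`):
components `B X + B p` and `B X + sb (linMap B) p`; so `mv B p = sb (linMap B) p`, equivalent to `act B B' p = p`.
`Mid_conj`: `φ G φ⁻¹ = φ (linMap B) (1 + p) φ⁻¹ = linMap B * (φ (1 + p) φ⁻¹)`; `p' := nl (φ (1+p) φ⁻¹)`;
`1 + p` commutes with `linMap B` so `φ (1+p) φ⁻¹` does: `act B B' p' = p'`;  `p' = p` modulo order 3 by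
`conj_oneAdd` with `e = m = 2` (`φ = 1 + nl φ`, `OV 2 (nl φ)`, `br` has order 3).
-/

namespace Pool.Agent.RTH

open MvPowerSeries Pool.Agent.RevMaps

/-- `G = B (1 + p)`, `p` invariant under `B`, `p = a` modulo order `3` -/
def Mid {n : ℕ} (B B' : Matrix (Fin n) (Fin n) ℂ) (a : V n) (G : FMap n) : Prop :=
  ∃ (p : V n) (hp1 : OV 1 p), G = linMap B * oneAdd p hp1 ∧ act B B' p = p ∧ OV 3 (p - a)

theorem comm_iff {n : ℕ} (B B' : Matrix (Fin n) (Fin n) ℂ) (h1 : B * B' = 1) (h2 : B' * B = 1)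
    (p : V n) (hp1 : OV 1 p) :
    oneAdd p hp1 * linMap B = linMap B * oneAdd p hp1 ↔ act B B' p = p := by
  have hL : (oneAdd p hp1 * linMap B).toFun = (linMap B).toFun + sb (linMap B) p := by
    funext i
    rw [oneAdd_mul]
    rfl
  have hR : (linMap B * oneAdd p hp1).toFun = (linMap B).toFun + mv B p := by
    have e1 : (oneAdd p hp1).toFun = (fun i => X i) + p := rfl
    rw [linMap_mul_toFun, e1, mv_add, ← linMap_toFun]
  have key : oneAdd p hp1 * linMap B = linMap B * oneAdd p hp1 ↔ sb (linMap B) p = mv B p := by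
    constructor
    · intro h
      have h3 := congrArg FMap.toFun h
      rw [hL, hR] at h3
      exact add_left_cancel h3
    · intro h
      apply FMap.ext
      intro i
      rw [hL, hR, h]
  rw [key]
  constructor
  · intro h
    have h3 := congrArg (sb (linMap B')) h
    rw [sb_sb, ← linMap_mul, h1, linMap_one, sb_one, sb_mv] at h3
    exact h3.symm
  · intro h
    conv_lhs => rw [← h]
    rw [act, sb_mv, sb_sb, ← linMap_mul, h2, linMap_one, sb_one]

theorem Mid_conj {n : ℕ} (B B' : Matrix (Fin n) (Fin n) ℂ) (h1 : B * B' = 1) (h2 : B' * B = 1)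
    (a : V n) (ha : OV 2 a) (G : FMap n) (hG : Mid B B' a G) (φ : (FMap n)ˣ)
    (hφ : lin (φ : FMap n) = 1) (hc : (φ : FMap n) * linMap B = linMap B * φ) :
    Mid B B' a ((φ : FMap n) * G * ((φ⁻¹ : (FMap n)ˣ) : FMap n)) := by
  obtain ⟨p, hp1, rfl, hp2, hp3⟩ := hG
  have hp : OV 2 p := by
    have h := (hp3.mono (by norm_num : 2 ≤ 3)).add ha
    rwa [sub_add_cancel] at h
  have hcp := (comm_iff B B' h1 h2 p hp1).2 hp2
  have hc' : ((φ⁻¹ : (FMap n)ˣ) : FMap n) * linMap B =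
      linMap B * ((φ⁻¹ : (FMap n)ˣ) : FMap n) := by
    calc ((φ⁻¹ : (FMap n)ˣ) : FMap n) * linMap B =
        ((φ⁻¹ : (FMap n)ˣ) : FMap n) * (linMap B * (φ : FMap n)) * ((φ⁻¹ : (FMap n)ˣ) : FMap n) := by
          rw [mul_assoc, mul_assoc, Units.mul_inv, mul_one]
      _ = ((φ⁻¹ : (FMap n)ˣ) : FMap n) * ((φ : FMap n) * linMap B) *
          ((φ⁻¹ : (FMap n)ˣ) : FMap n) := by rw [hc]
      _ = linMap B * ((φ⁻¹ : (FMap n)ˣ) : FMap n) := by
          rw [← mul_assoc, Units.inv_mul, one_mul]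
  set g : FMap n := (φ : FMap n) * oneAdd p hp1 * ((φ⁻¹ : (FMap n)ˣ) : FMap n) with hg
  have hcg : g * linMap B = linMap B * g := by
    rw [hg, mul_assoc, hc', ← mul_assoc, mul_assoc (φ : FMap n), hcp, ← mul_assoc (φ : FMap n), hc,
      mul_assoc (linMap B), mul_assoc (linMap B)]
  have hφn : OV 2 (nl (φ : FMap n)) := OV_nl hφ
  have hbr : OV 3 (br (nl (φ : FMap n)) p) := OV_br hφn hp (by norm_num)
  have hs1 : OV 1 (p + br (nl (φ : FMap n)) p) :=
    (hp.mono (by norm_num)).add (hbr.mono (by norm_num))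
  have hconj := conj_oneAdd (le_refl 2) (le_refl 2) φ (nl (φ : FMap n)) p (OV_nl_one _) hp1 hφn hp
    (eq_oneAdd_nl _) hs1
  have hnl : OV 3 (nl g - p) := by
    intro i
    have h3 := (hconj i).mono (by norm_num : 3 ≤ 2 + 2)
    rw [← hg] at h3
    have h4 : (oneAdd (p + br (nl (φ : FMap n)) p) hs1).toFun i =
        X i + (p i + br (nl (φ : FMap n)) p i) := rfl
    rw [h4] at h3
    have h5 := h3.add (hbr i)
    have h6 : g.toFun i - (X i + (p i + br (nl (φ : FMap n)) p i)) + br (nl (φ : FMap n)) p i =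
        (nl g - p) i := by
      show _ = g.toFun i - X i - p i
      ring
    rwa [h6] at h5
  refine ⟨nl g, OV_nl_one g, ?_, ?_, ?_⟩
  · rw [← eq_oneAdd_nl, hg, ← mul_assoc, hc, mul_assoc (linMap B), mul_assoc (linMap B)]
  · refine (comm_iff B B' h1 h2 (nl g) (OV_nl_one g)).1 ?_
    rw [← eq_oneAdd_nl]
    exact hcg
  · have h := hnl.add hp3
    rwa [sub_add_sub_cancel] at h

end Pool.Agent.RTH
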