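import Mathlib
import Pool.Agent.RTH.LA

/-!
The base: two involutions `β0`, `β3` with linear parts `T`, `T'` and
`β0 β3 = B (1 + a + ...)`, `B = T T'`.  `n` arbitrary.
Let `U = 1 + a/2`, `U' = 1 - a/2` (units, `oneAdd`).  `U` commutes with `linMap B` (`comm_iff`), so does `U'`.
`act T' T' a = act T T (act B B' a) = -a` (`T' = T B`, `act_act`), so `linMap T' * U * linMap T' = U'` exactly
(`linMap_conj_oneAdd`).  `β3 = linMap T'`, `β0 = U (linMap T) U⁻¹`; then
`β0 β3 = U (T T') (T' U⁻¹ T') = U B U'⁻¹ = B (U U'⁻¹)`; `p := nl (U U'⁻¹)`; `(1 + p) U' = U` gives `p = a` modulo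
order 3 (`oneAdd_mul_oneAdd` with `d = 2`), and `1 + p` commutes with `B`.
-/

namespace Pool.Agent.RTH

open MvPowerSeries Pool.Agent.RevMaps

theorem base {n : ℕ} (T T' : Matrix (Fin n) (Fin n) ℂ) (hT : T * T = 1) (hT' : T' * T' = 1)
    (a : V n) (ha : OV 2 a) (hinv : act (T * T') (T' * T) a = a) (hodd : act T T a = -a) :
    ∃ β0 β3 : FMap n, β0 * β0 = 1 ∧ β3 * β3 = 1 ∧ lin β0 = T ∧ lin β3 = T' ∧
      Mid (T * T') (T' * T) a (β0 * β3) := by
  have hB : T * T' * (T' * T) = 1 := by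
    rw [mul_assoc, ← mul_assoc T' T' T, hT', one_mul, hT]
  have hB' : T' * T * (T * T') = 1 := by
    rw [mul_assoc, ← mul_assoc T T T', hT, one_mul, hT']
  have hodd' : act T' T' a = -a := by
    have h1 : act T T (act (T * T') (T' * T) a) = act T' T' a := by
      rw [act_act, ← mul_assoc, hT, one_mul, mul_assoc, hT, mul_one]
    rw [← h1, hinv, hodd]
  set u : V n := (1 / 2 : ℂ) • a with hu
  set w : V n := (-(1 / 2) : ℂ) • a with hw
  have ou : OV 2 u := ha.smul _
  have ow : OV 2 w := ha.smul _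
  have ou1 : OV 1 u := ou.mono (by norm_num)
  have ow1 : OV 1 w := ow.mono (by norm_num)
  obtain ⟨U, hU⟩ := isUnit_oneAdd le_rfl u ou1 ou
  obtain ⟨W, hW⟩ := isUnit_oneAdd le_rfl w ow1 ow
  have lT : linMap T * linMap T = (1 : FMap n) := by
    rw [← linMap_mul, hT, linMap_one]
  have lT' : linMap T' * linMap T' = (1 : FMap n) := by
    rw [← linMap_mul, hT', linMap_one]
  have cU : (U : FMap n) * linMap (T * T') = linMap (T * T') * U := by
    rw [hU, comm_iff _ _ hB hB', hu, act_smul, hinv]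
  have cW : (W : FMap n) * linMap (T * T') = linMap (T * T') * W := by
    rw [hW, comm_iff _ _ hB hB', hw, act_smul, hinv]
  have ext : ∀ (p q : V n) (hp : OV 1 p) (hq : OV 1 q), p = q → oneAdd p hp = oneAdd q hq := by
    intro p q hp hq h
    subst h
    rfl
  have k1 : linMap T' * (U : FMap n) * linMap T' = W := by
    rw [hU, hW, linMap_conj_oneAdd T' T' hT' u ou1]
    apply ext
    rw [hu, act_smul, hodd', hw, neg_smul, smul_neg]
  have k2 : (U : FMap n) * linMap T' = linMap T' * W := by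
    rw [← k1, ← mul_assoc, ← mul_assoc, lT', one_mul]
  have k3 : ((U⁻¹ : (FMap n)ˣ) : FMap n) * linMap T' =
      linMap T' * ((W⁻¹ : (FMap n)ˣ) : FMap n) := by
    have h1 : linMap T' = (U : FMap n) * linMap T' * ((W⁻¹ : (FMap n)ˣ) : FMap n) := by
      rw [k2, mul_assoc, W.mul_inv, mul_one]
    conv_lhs => rw [h1]
    rw [← mul_assoc, ← mul_assoc, U.inv_mul, one_mul]
  have lU : lin (U : FMap n) = 1 := by rw [hU, lin_oneAdd le_rfl u ou1 ou]
  have lW : lin (W : FMap n) = 1 := by rw [hW, lin_oneAdd le_rfl w ow1 ow]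
  have lUi : lin ((U⁻¹ : (FMap n)ˣ) : FMap n) = 1 := by
    have h1 : lin ((U : FMap n) * ((U⁻¹ : (FMap n)ˣ) : FMap n)) = 1 := by
      rw [U.mul_inv, lin_one]
    rwa [lin_mul, lU, one_mul] at h1
  have lWi : lin ((W⁻¹ : (FMap n)ˣ) : FMap n) = 1 := by
    have h1 : lin ((W : FMap n) * ((W⁻¹ : (FMap n)ˣ) : FMap n)) = 1 := by
      rw [W.mul_inv, lin_one]
    rwa [lin_mul, lW, one_mul] at h1
  refine ⟨(U : FMap n) * linMap T * ((U⁻¹ : (FMap n)ˣ) : FMap n), linMap T', ?_, lT', ?_,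
    lin_linMap T', ?_⟩
  · rw [mul_assoc, ← mul_assoc ((U⁻¹ : (FMap n)ˣ) : FMap n), ← mul_assoc ((U⁻¹ : (FMap n)ˣ) : FMap n),
      U.inv_mul, one_mul, ← mul_assoc, mul_assoc (U : FMap n), lT, mul_one, U.mul_inv]
  · rw [lin_mul, lin_mul, lU, lUi, one_mul, mul_one, lin_linMap]
  · set F : FMap n := (U : FMap n) * ((W⁻¹ : (FMap n)ˣ) : FMap n) with hF
    have cWi : linMap (T * T') * ((W⁻¹ : (FMap n)ˣ) : FMap n) =
        ((W⁻¹ : (FMap n)ˣ) : FMap n) * linMap (T * T') := by
      have h1 : linMap (T * T') =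
          ((W⁻¹ : (FMap n)ˣ) : FMap n) * linMap (T * T') * (W : FMap n) := by
        rw [mul_assoc, ← cW, ← mul_assoc, W.inv_mul, one_mul]
      conv_lhs => rw [h1]
      rw [mul_assoc, W.mul_inv, mul_one]
    have cF : F * linMap (T * T') = linMap (T * T') * F := by
      rw [hF, mul_assoc, ← cWi, ← mul_assoc, cU, mul_assoc]
    have lF : lin F = 1 := by rw [hF, lin_mul, lU, lWi, one_mul]
    have eF : F = oneAdd (nl F) (OV_nl_one F) := eq_oneAdd_nl F
    refine ⟨nl F, OV_nl_one F, ?_, ?_, ?_⟩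
    · rw [← eF, ← cF, mul_assoc, k3, ← mul_assoc, mul_assoc (U : FMap n), ← linMap_mul, hF,
        mul_assoc, mul_assoc, cWi]
    · rw [← comm_iff _ _ hB hB' (nl F) (OV_nl_one F), ← eF]
      exact cF
    · have h1 : F * (W : FMap n) = U := by
        rw [hF, mul_assoc, W.inv_mul, mul_one]
      have o2 : OV 2 (nl F) := OV_nl lF
      have o1 : OV 1 (nl F + w) := (OV_nl_one F).add ow1
      have h2 := oneAdd_mul_oneAdd le_rfl (nl F) w (OV_nl_one F) o2 ow1 ow o1
      rw [← eF, ← hW, h1, hU] at h2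
      intro i
      have h3 := h2 i
      have h4 : (oneAdd u ou1).toFun i - (oneAdd (nl F + w) o1).toFun i =
          -((nl F - a) i) := by
        show (X i + u i) - (X i + (nl F i + w i)) = -(nl F i - a i)
        have h5 : u i - w i = a i := by
          show (1 / 2 : ℂ) • a i - (-(1 / 2) : ℂ) • a i = a i
          rw [← sub_smul]
          norm_num
        have h6 : X i + u i - (X i + (nl F i + w i)) = (u i - w i) - nl F i := by ring
        rw [h6, h5]
        ring
      rw [h4] at h3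
      have h7 := h3.neg
      rwa [neg_neg] at h7

end Pool.Agent.RTH
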