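import Mathlib
import Pool.Agent.RTH.LA
import Pool.Agent.RTH.AB

/-!
The effect of a conjugation of the middle factor.  `n` arbitrary, `B = T T'`, `B' = T' T`.
`x' := - act T T x` is `B`-invariant too (`T B T = B'`, so `act B B' (act T T x) = act T T (act B' B x) = act T T x`), of order
`≥ max(2, d-1)`.  `φ := 1 + x'` is a unit commuting with `linMap B` (`comm_iff`), `EqM (d - 1) φ 1` (or order 2).
`G = B (1 + p)` (`Mid`), `φ G φ⁻¹ = B (φ (1 + p) φ⁻¹)`, and `φ (1 + p) φ⁻¹ = 1 + p + br x' p` modulo order `≥ d + 1`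
(`conj_oneAdd` with `e = max 2 (d-1)`, `m = 2`; `OV 2 p`), `br x' p = br x' a` modulo order `d + 1` (`OV 3 (p - a)`, `OV_br`).
So `φ G φ⁻¹ = B (1 + br x' a) (1 + p)` modulo order `d + 1` (`OV d (br x' a)`: `oneAdd_mul`, `sb_lin`), move `1 + br x' a` to the left
through `τ0 B` whose linear part is `T T T' = T'` (`mul_oneAdd`): left factor `1 + act T' T' (br x' a)`.
`act T' T' (br x' a) = br (act T' T' x') (act T' T' a)` (`act_br`); `act T' T' = act T T ∘ act B B'` on tuples
(`T' = T B`, `T' = B' T`, `act_act`), so `act T' T' a = act T T a = -a` and `act T' T' x' = act T T x' = -x`.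
Hence `act T' T' (br x' a) = br (-x) (-a) = br x a`.
-/

namespace Pool.Agent.RTH

open MvPowerSeries Pool.Agent.RevMaps

theorem lca_act_neg {n : ℕ} (M M' : Matrix (Fin n) (Fin n) ℂ) (v : V n) :
    act M M' (-v) = -act M M' v := by
  have h := act_smul M M' (-1) v
  rwa [neg_one_smul, neg_one_smul] at h

theorem mid_change {n : ℕ} (T T' : Matrix (Fin n) (Fin n) ℂ) (hT : T * T = 1) (hT' : T' * T' = 1)
    (a : V n) (ha : OV 2 a) (hinv : act (T * T') (T' * T) a = a) (hodd : act T T a = -a)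
    {d : ℕ} (hd : 2 ≤ d) (x : V n) (hx : OV (d - 1) x) (hx2 : OV 2 x)
    (hxinv : act (T * T') (T' * T) x = x) (hbr1 : OV 1 (br x a)) :
    ∃ φ : (FMap n)ˣ, lin (φ : FMap n) = 1 ∧
      (φ : FMap n) * linMap (T * T') = linMap (T * T') * φ ∧ EqM (d - 1) (φ : FMap n) 1 ∧
      ∀ (τ0 τ3 G : FMap n), lin τ0 = T → Mid (T * T') (T' * T) a G →
        EqM (d + 1) (τ0 * ((φ : FMap n) * G * ((φ⁻¹ : (FMap n)ˣ) : FMap n)) * τ3)
          (oneAdd (br x a) hbr1 * (τ0 * G * τ3)) := by
  have hBB' : (T * T') * (T' * T) = 1 := by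
    calc (T * T') * (T' * T) = T * (T' * T') * T := by simp only [mul_assoc]
      _ = 1 := by rw [hT', mul_one, hT]
  have hB'B : (T' * T) * (T * T') = 1 := by
    calc (T' * T) * (T * T') = T' * (T * T) * T' := by simp only [mul_assoc]
      _ = 1 := by rw [hT, mul_one, hT']
  have hTB : T * (T * T') = T' := by rw [← mul_assoc, hT, one_mul]
  have hB'T : (T' * T) * T = T' := by rw [mul_assoc, hT, mul_one]
  have hxinv' : act (T' * T) (T * T') x = x := by
    conv_lhs => rw [← hxinv]
    rw [act_act, hB'B, act_one]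
  set x' : V n := -act T T x with hx'
  have hxT : act T T x' = -x := by
    rw [hx', lca_act_neg, act_act, hT, act_one]
  have hx'inv : act (T * T') (T' * T) x' = x' := by
    rw [hx', lca_act_neg]
    congr 1
    conv_rhs => rw [← hxinv']
    rw [act_act, act_act]
    simp only [mul_assoc]
  have hneg : ∀ {k : ℕ} {v : V n}, OV k v → OV k (-v) := fun h i => (h i).neg
  have ox' : OV (d - 1) x' := hneg (hx.act T T)
  have o2x' : OV 2 x' := hneg (hx2.act T T)
  have o1x' : OV 1 x' := fun i => (o2x' i).mono (by omega)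
  obtain ⟨u, hu⟩ := isUnit_oneAdd le_rfl x' o1x' o2x'
  refine ⟨u, ?_, ?_, ?_, ?_⟩
  · rw [hu, lin_oneAdd le_rfl x' o1x' o2x']
  · rw [hu]
    exact (comm_iff _ _ hBB' hB'B x' o1x').mpr hx'inv
  · intro i
    rw [hu]
    have e : (oneAdd x' o1x').toFun i - (1 : FMap n).toFun i = x' i := by
      show (X i : PS n) + x' i - X i = x' i
      ring
    rw [e]
    exact ox' i
  intro τ0 τ3 G l0 hG
  obtain ⟨p, hp1, hGp, hpinv, hpa⟩ := hG
  have hp2 : OV 2 p := by
    intro i
    have h1 := (hpa i).mono (show 2 ≤ 3 by omega)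
    have h2 := h1.add (ha i)
    have e : (p - a) i + a i = p i := by
      simp only [Pi.sub_apply]; ring
    rwa [e] at h2
  have oe : OV (max 2 (d - 1)) x' := by
    rcases le_total 2 (d - 1) with h | h
    · rw [max_eq_right h]; exact ox'
    · rw [max_eq_left h]; exact o2x'
  have obp : OV 1 (p + br x' p) := by
    intro i
    exact (hp1 i).add ((OV_br (l := 1) o2x' hp2 (by omega)) i)
  have hcj := conj_oneAdd (e := max 2 (d - 1)) (m := 2) (le_max_left _ _) le_rfl u x' p o1x' hp1
    oe hp2 hu obp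
  have hle : d + 1 ≤ max 2 (d - 1) + 2 := by
    have := le_max_right 2 (d - 1)
    omega
  have hcj' := hcj.mono hle
  have oba : OV d (br x' a) := OV_br ox' ha (by omega)
  have oba1 : OV 1 (br x' a) := fun i => (oba i).mono (by omega)
  have hm : EqM (d + 1) (oneAdd (p + br x' p) obp) (oneAdd (br x' a) oba1 * oneAdd p hp1) := by
    intro i
    rw [oneAdd_mul]
    have h1 := sb_lin (oneAdd p hp1) (br x' a) oba i
    rw [lin_oneAdd le_rfl p hp1 hp2, linMap_one, sb_one] at h1
    have h2 : OV (d + 1) (br x' (p - a)) := OV_br ox' hpa (by omega)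
    rw [br_sub_right] at h2
    have h3 := (h2 i).sub h1
    have e1 : (oneAdd (p + br x' p) obp).toFun i = X i + (p i + br x' p i) := rfl
    have e2 : (oneAdd p hp1).toFun i = X i + p i := rfl
    rw [e1, e2]
    convert h3 using 1
    simp only [Pi.sub_apply]
    ring
  have hφ := hcj'.trans hm
  -- the conjugated middle factor
  have hcomm : (u : FMap n) * linMap (T * T') = linMap (T * T') * u := by
    rw [hu]
    exact (comm_iff _ _ hBB' hB'B x' o1x').mpr hx'inv
  have hG' : (u : FMap n) * G * ((u⁻¹ : (FMap n)ˣ) : FMap n) =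
      linMap (T * T') * ((u : FMap n) * oneAdd p hp1 * ((u⁻¹ : (FMap n)ˣ) : FMap n)) := by
    rw [hGp]
    calc (u : FMap n) * (linMap (T * T') * oneAdd p hp1) * ((u⁻¹ : (FMap n)ˣ) : FMap n)
        = ((u : FMap n) * linMap (T * T')) * oneAdd p hp1 * ((u⁻¹ : (FMap n)ˣ) : FMap n) := by
          simp only [mul_assoc]
      _ = _ := by rw [hcomm]; simp only [mul_assoc]
  have hlin : lin (τ0 * linMap (T * T')) = T' := by
    rw [lin_mul, l0, lin_linMap, hTB]
  have oact : OV 1 (act T' T' (br x' a)) := oba1.act T' T'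
  have hmv := mul_oneAdd (τ0 * linMap (T * T')) T' T' hlin hT' (br x' a) oba1 oba oact
  have e1 : act T' T' a = -a := by
    have h := act_act T T (T * T') (T' * T) a
    rw [hinv, hodd, hTB, hB'T] at h
    exact h.symm
  have e2 : act T' T' x' = -x := by
    have h := act_act T T (T * T') (T' * T) x'
    rw [hx'inv, hxT, hTB, hB'T] at h
    exact h.symm
  have e3 : act T' T' (br x' a) = br x a := by
    rw [act_br T' T' hT' hT', e1, e2]
    have h1 := br_smul_left (-1) x (-a)
    have h2 := br_smul_right (-1) x a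
    rw [neg_one_smul] at h1 h2
    rw [h1, h2, smul_smul]
    norm_num
  simp only [e3] at hmv
  have s1 : EqM (d + 1) (τ0 * ((u : FMap n) * G * ((u⁻¹ : (FMap n)ˣ) : FMap n)) * τ3)
      (τ0 * linMap (T * T') * oneAdd (br x' a) oba1 * (oneAdd p hp1 * τ3)) := by
    rw [hG']
    have := ((EqM.refl (d + 1) (τ0 * linMap (T * T'))).mul hφ).mul (EqM.refl (d + 1) τ3)
    simpa only [mul_assoc] using this
  have s2 : EqM (d + 1) (τ0 * linMap (T * T') * oneAdd (br x' a) oba1 * (oneAdd p hp1 * τ3))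
      (oneAdd (br x a) hbr1 * (τ0 * G * τ3)) := by
    have := hmv.mul (EqM.refl (d + 1) (oneAdd p hp1 * τ3))
    rw [hGp]
    simpa only [mul_assoc] using this
  exact s1.trans s2

end Pool.Agent.RTH
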