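import Mathlib
import Pool.Agent.RTH.LCa

/-!
One step for the outer involutions and the middle factor.  `n` arbitrary, `B = T T'`, `B' = T' T`.
Write `r = (a0 - act T T a0) + (a3 - act T' T' a3) + br x a + (order d+1)` (definition of `ZT`).
* `φ` from `mid_change` for `x`: left factor `1 + br x a` (order `d`), for the pair `(τ0, τ3)`.
* `τ0'` := the involution of `modify` for `a0`: `τ0' = (1 + (a0 - act T T a0)) τ0` modulo order `d+1`.
* `τ3'` := the involution of `modify` for `-a3`: `τ3' = (1 + c3) τ3`, `c3 = -(a3 - act T' T' a3)`; moved to the left through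
  `τ0 G'` (`G' = φ G φ⁻¹`, linear part of `τ0 G'` is `T T T' = T'`) it becomes `1 + act T' T' c3 = 1 - c3`.
All left factors are `1 + (order d)` and merge (`oneAdd_mul_oneAdd`) into `1 + r`; the product has linear part `1`
(`T T T' T' = 1`), so modulo order `d+1` the new product is `old + r = f`.  (Model: `lift_step` in `RevMaps.Lift`.)
-/

namespace Pool.Agent.RTH

open MvPowerSeries Pool.Agent.RevMaps

theorem stepT {n : ℕ} (T T' : Matrix (Fin n) (Fin n) ℂ) (hT : T * T = 1) (hT' : T' * T' = 1)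
    (a : V n) (ha : OV 2 a) (hinv : act (T * T') (T' * T) a = a) (hodd : act T T a = -a)
    {d : ℕ} (hd : 2 ≤ d) (τ0 τ3 G f : FMap n) (h0 : τ0 * τ0 = 1) (h3 : τ3 * τ3 = 1)
    (l0 : lin τ0 = T) (l3 : lin τ3 = T') (hG : Mid (T * T') (T' * T) a G)
    (hp : EqM d (τ0 * G * τ3) f)
    (hr : (fun i => f.toFun i - (τ0 * G * τ3).toFun i) ∈ ZT T T' a d) :
    ∃ (τ0' τ3' : FMap n) (φ : (FMap n)ˣ), τ0' * τ0' = 1 ∧ τ3' * τ3' = 1 ∧ lin τ0' = T ∧
      lin τ3' = T' ∧ lin (φ : FMap n) = 1 ∧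
      (φ : FMap n) * linMap (T * T') = linMap (T * T') * φ ∧
      EqM (d - 1) (φ : FMap n) 1 ∧ EqM d τ0' τ0 ∧ EqM d τ3' τ3 ∧
      EqM (d + 1) (τ0' * ((φ : FMap n) * G * ((φ⁻¹ : (FMap n)ˣ) : FMap n)) * τ3') f := by
  obtain ⟨a0, a3, x, ha0, ha3, hx, hx2, hxinv, hr⟩ := hr
  have hTB : T * (T * T') = T' := by rw [← mul_assoc, hT, one_mul]
  have obr : OV d (br x a) := OV_br hx ha (by omega)
  have obr1 : OV 1 (br x a) := fun i => (obr i).mono (by omega)
  obtain ⟨φ, lφ, cφ, eφ, Hφ⟩ := mid_change T T' hT hT' a ha hinv hodd hd x hx hx2 hxinv obr1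
  have hH := Hφ τ0 τ3 G l0 hG
  have hneg : ∀ {k : ℕ} {v : V n}, OV k v → OV k (-v) := fun h i => (h i).neg
  have oc0 : OV d (a0 - act T T a0) := ha0.sub (ha0.act _ _)
  have oc01 : OV 1 (a0 - act T T a0) := fun i => (oc0 i).mono (by omega)
  have ha3n : OV d (-a3) := hneg ha3
  have oc3 : OV d (-a3 - act T' T' (-a3)) := ha3n.sub (ha3n.act _ _)
  have oc31 : OV 1 (-a3 - act T' T' (-a3)) := fun i => (oc3 i).mono (by omega)
  obtain ⟨τ0', h0', E0⟩ := modify hd τ0 T h0 hT l0 a0 ha0 oc01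
  obtain ⟨τ3', h3', E3⟩ := modify hd τ3 T' h3 hT' l3 (-a3) ha3n oc31
  have E0d : EqM d τ0' τ0 := by
    refine (E0.mono (by omega)).trans (fun i => ?_)
    rw [oneAdd_mul, add_sub_cancel_left]
    exact (oc0.sb _) i
  have E3d : EqM d τ3' τ3 := by
    refine (E3.mono (by omega)).trans (fun i => ?_)
    rw [oneAdd_mul, add_sub_cancel_left]
    exact (oc3.sb _) i
  refine ⟨τ0', τ3', φ, h0', h3', ?_, ?_, lφ, cφ, eφ, E0d, E3d, ?_⟩
  · rw [E0d.lin_eq hd, l0]
  · rw [E3d.lin_eq hd, l3]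
  have hlG : lin G = T * T' := by
    obtain ⟨p, hp1, hGp, hpinv, hpa⟩ := hG
    have hp2 : OV 2 p := by
      intro i
      have h1 := (hpa i).mono (show 2 ≤ 3 by omega)
      have h2 := h1.add (ha i)
      have e : (p - a) i + a i = p i := by
        simp only [Pi.sub_apply]; ring
      rwa [e] at h2
    rw [hGp, lin_mul, lin_linMap, lin_oneAdd le_rfl p hp1 hp2, mul_one]
  set G' : FMap n := (φ : FMap n) * G * ((φ⁻¹ : (FMap n)ˣ) : FMap n) with hG'
  have hlG' : lin G' = T * T' := by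
    rw [hG', lin_mul, lin_mul, lφ, lin_inv_one φ lφ, hlG, one_mul, mul_one]
  have hlin : lin (τ0 * G') = T' := by rw [lin_mul, l0, hlG', hTB]
  set c0 : V n := a0 - act T T a0 with hc0
  set c3 : V n := -a3 - act T' T' (-a3) with hc3
  have ec3 : act T' T' c3 = a3 - act T' T' a3 := by
    rw [hc3, lca_act_neg]
    have h1 : -a3 - -act T' T' a3 = act T' T' a3 - a3 := by abel
    rw [h1, act_sub, act_act, hT', act_one]
  set m3 : V n := a3 - act T' T' a3 with hm3
  have om3 : OV d m3 := ha3.sub (ha3.act _ _)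
  have om31 : OV 1 m3 := fun i => (om3 i).mono (by omega)
  have oact : OV 1 (act T' T' c3) := oc31.act T' T'
  have hmv := mul_oneAdd (τ0 * G') T' T' hlin hT' c3 oc31 oc3 oact
  simp only [ec3] at hmv
  have s1 : EqM (d + 1) (τ0' * G' * τ3') (oneAdd c0 oc01 * (τ0 * G' * oneAdd c3 oc31 * τ3)) := by
    have := (E0.mul (EqM.refl (d + 1) G')).mul E3
    simpa only [mul_assoc] using this
  have s2 : EqM (d + 1) (oneAdd c0 oc01 * (τ0 * G' * oneAdd c3 oc31 * τ3))
      (oneAdd c0 oc01 * (oneAdd m3 om31 * (τ0 * G' * τ3))) := by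
    have := (EqM.refl (d + 1) (oneAdd c0 oc01)).mul (hmv.mul (EqM.refl (d + 1) τ3))
    simpa only [mul_assoc] using this
  have s3 : EqM (d + 1) (oneAdd c0 oc01 * (oneAdd m3 om31 * (τ0 * G' * τ3)))
      (oneAdd c0 oc01 * (oneAdd m3 om31 * (oneAdd (br x a) obr1 * (τ0 * G * τ3)))) :=
    (EqM.refl (d + 1) _).mul ((EqM.refl (d + 1) _).mul hH)
  have m1 := oneAdd_mul_oneAdd hd m3 (br x a) om31 om3 obr1 obr (om31.add obr1)
  have m2 := oneAdd_mul_oneAdd hd c0 (m3 + br x a) oc01 oc0 (om31.add obr1) (om3.add obr)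
    (oc01.add (om31.add obr1))
  set P : FMap n := τ0 * G * τ3 with hP
  have or' : OV d (c0 + (m3 + br x a)) := oc0.add (om3.add obr)
  have s4 : EqM (d + 1) (oneAdd c0 oc01 * (oneAdd m3 om31 * (oneAdd (br x a) obr1 * P)))
      (oneAdd (c0 + (m3 + br x a)) (oc01.add (om31.add obr1)) * P) := by
    have h1 : EqM (d + 1) (oneAdd c0 oc01 * (oneAdd m3 om31 * oneAdd (br x a) obr1))
        (oneAdd (c0 + (m3 + br x a)) (oc01.add (om31.add obr1))) :=
      ((EqM.refl (d + 1) (oneAdd c0 oc01)).mul m1).trans m2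
    have h2 := h1.mul (EqM.refl (d + 1) P)
    simpa only [mul_assoc] using h2
  refine ((s1.trans s2).trans (s3.trans s4)).trans ?_
  intro i
  rw [oneAdd_mul]
  have hlP : lin P = 1 := by
    rw [hP, lin_mul, lin_mul, l0, hlG, l3]
    calc T * (T * T') * T' = T' * T' := by rw [hTB]
      _ = 1 := hT'
  have g1 := sb_lin P (c0 + (m3 + br x a)) or' i
  rw [hlP, linMap_one, sb_one] at g1
  have g2 := hr i
  have g3 := g1.sub g2
  convert g3 using 1
  simp only [Pi.add_apply, Pi.sub_apply, hc0, hm3]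
  ring

end Pool.Agent.RTH
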