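import Mathlib
import Pool.Agent.RTH.LC

/-!
The combined step of the lifting.  State: `(U, W, τ0, τ3)`.
Given the state in degree `d ≥ m + 1`: `h = U f U⁻¹ = 1 + q'`, `q' = q` modulo order `m + 1` (`conj_oneAdd`),
`r = h - product` has order `≥ d`; take `k` for it; `φ = 1 + k`; the new `h' = φ h φ⁻¹ = 1 + q' + br k q'` modulo
order `d + 1` (`conj_oneAdd`, `e = d + 1 - m`), `br k q' = br k q` modulo order `d + 1`; so `h' - product` is
`r + br k q` modulo order `d + 1`: in `ZT`; apply `stepT` to `(τ0, τ3, W G0 W⁻¹, h')` (its `Mid` by `Mid_conj`).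
Exactly the middle part of the proof of `lift_conj` (`RevMaps.LiftConj`) with `R = 1`.
-/

namespace Pool.Agent.RTH

open MvPowerSeries Pool.Agent.RevMaps

/-- the state of the lifting procedure -/
def StP {n : ℕ} (T T' : Matrix (Fin n) (Fin n) ℂ) (G0 f : FMap n) (d : ℕ)
    (s : (FMap n)ˣ × (FMap n)ˣ × FMap n × FMap n) : Prop :=
  lin (s.1 : FMap n) = 1 ∧ lin (s.2.1 : FMap n) = 1 ∧
  (s.2.1 : FMap n) * linMap (T * T') = linMap (T * T') * s.2.1 ∧
  s.2.2.1 * s.2.2.1 = 1 ∧ s.2.2.2 * s.2.2.2 = 1 ∧ lin s.2.2.1 = T ∧ lin s.2.2.2 = T' ∧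
  EqM d (s.2.2.1 * ((s.2.1 : FMap n) * G0 * ((s.2.1⁻¹ : (FMap n)ˣ) : FMap n)) * s.2.2.2)
    ((s.1 : FMap n) * f * ((s.1⁻¹ : (FMap n)ˣ) : FMap n))

private theorem ZT_of_OV' {n : ℕ} (T T' : Matrix (Fin n) (Fin n) ℂ) (a : V n) (d : ℕ) {r : V n}
    (hr : OV (d + 1) r) : r ∈ ZT T T' a d := by
  have h0 := (ZT T T' a d).zero_mem
  obtain ⟨a0, a3, x, h1, h2, h3, h4, h5, h6⟩ := h0
  refine ⟨a0, a3, x, h1, h2, h3, h4, h5, ?_⟩
  have h7 := hr.add h6
  have e : r + (0 - ((a0 - act T T a0) + (a3 - act T' T' a3) + br x a)) =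
      r - ((a0 - act T T a0) + (a3 - act T' T' a3) + br x a) := by abel
  rw [← e]
  exact h7

theorem step_all {n : ℕ} (T T' : Matrix (Fin n) (Fin n) ℂ) (hT : T * T = 1) (hT' : T' * T' = 1)
    (a : V n) (ha : OV 2 a) (hinv : act (T * T') (T' * T) a = a) (hodd : act T T a = -a)
    (G0 : FMap n) (hG0 : Mid (T * T') (T' * T) a G0)
    {m : ℕ} (hm : 2 ≤ m) (q : V n) (hq1 : OV 1 q) (hq : OV m q)
    {d : ℕ} (hd : m + 1 ≤ d)
    (hstep : ∀ r : V n, OV d r → ∃ k : V n, OV (d + 1 - m) k ∧ r + br k q ∈ ZT T T' a d)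
    (s : (FMap n)ˣ × (FMap n)ˣ × FMap n × FMap n) (hs : StP T T' G0 (oneAdd q hq1) d s) :
    ∃ s' : (FMap n)ˣ × (FMap n)ˣ × FMap n × FMap n, StP T T' G0 (oneAdd q hq1) (d + 1) s' ∧
      EqM (d + 1 - m) (s'.1 : FMap n) s.1 ∧ EqM (d - 1) (s'.2.1 : FMap n) s.2.1 ∧
      EqM d s'.2.2.1 s.2.2.1 ∧ EqM d s'.2.2.2 s.2.2.2 := by
  obtain ⟨U, W, τ0, τ3⟩ := s
  obtain ⟨hU1, hW1, hWc, h0, h3, l0, l3, hp⟩ := hs
  simp only at hU1 hW1 hWc h0 h3 l0 l3 hp
  have hB1 : (T * T') * (T' * T) = 1 := by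
    calc (T * T') * (T' * T) = T * (T' * T') * T := by simp only [mul_assoc]
      _ = 1 := by rw [hT', mul_one, hT]
  have hB2 : (T' * T) * (T * T') = 1 := by
    calc (T' * T) * (T * T') = T' * (T * T) * T' := by simp only [mul_assoc]
      _ = 1 := by rw [hT, mul_one, hT']
  set G : FMap n := (W : FMap n) * G0 * ((W⁻¹ : (FMap n)ˣ) : FMap n) with hGdef
  have hG : Mid (T * T') (T' * T) a G := Mid_conj _ _ hB1 hB2 a ha G0 hG0 W hW1 hWc
  set h : FMap n := (U : FMap n) * oneAdd q hq1 * ((U⁻¹ : (FMap n)ˣ) : FMap n) with hh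
  set q' : V n := nl h with hq'
  have hh' : h = oneAdd q' (OV_nl_one h) := eq_oneAdd_nl h
  have hq'q : OV (m + 1) (q' - q) := by
    have hbr : OV (m + 1) (br (nl (U : FMap n)) q) := OV_br (OV_nl hU1) hq (by omega)
    have h1 := conj_oneAdd (le_refl 2) hm U (nl (U : FMap n)) q (OV_nl_one _) hq1 (OV_nl hU1) hq
      (eq_oneAdd_nl _) (hq1.add (hbr.mono (by omega)))
    intro i
    have h2 := (h1 i).mono (show m + 1 ≤ 2 + m by omega)
    rw [← hh] at h2
    have h3 := h2.add (hbr i)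
    have h4 : h.toFun i - (oneAdd (q + br (nl (U : FMap n)) q)
        (hq1.add (hbr.mono (by omega)))).toFun i + br (nl (U : FMap n)) q i = (q' - q) i := by
      show h.toFun i - (X i + (q i + br (nl (U : FMap n)) q i)) + br (nl (U : FMap n)) q i =
        (h.toFun i - X i) - q i
      ring
    rwa [h4] at h3
  have hq'm : OV m q' := by
    have h := (hq'q.mono (by omega : m ≤ m + 1)).add hq
    rwa [sub_add_cancel] at h
  set pr : FMap n := τ0 * G * τ3 with hpr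
  set r : V n := fun i => h.toFun i - pr.toFun i with hr
  have hrO : OV d r := fun i => (hp i).symm_sub
  obtain ⟨k, hk, hkZ⟩ := hstep r hrO
  have he2 : 2 ≤ d + 1 - m := by omega
  have hk1 : OV 1 k := hk.mono (by omega)
  obtain ⟨φ, hφ⟩ := isUnit_oneAdd he2 k hk1 hk
  have hbr' : OV d (br k q') := OV_br hk hq'm (by omega)
  have hsum1 : OV 1 (q' + br k q') := (hq'm.mono (by omega)).add (hbr'.mono (by omega))
  have hc := conj_oneAdd he2 hm φ k q' hk1 (OV_nl_one h) hk hq'm hφ hsum1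
  rw [show d + 1 - m + m = d + 1 by omega, ← hh'] at hc
  set h' : FMap n := (φ : FMap n) * h * ((φ⁻¹ : (FMap n)ˣ) : FMap n) with hh'2
  have hval : ∀ i, (oneAdd (q' + br k q') hsum1).toFun i = h.toFun i + br k q' i := by
    intro i
    show X i + (q' i + br k q' i) = h.toFun i + br k q' i
    show X i + ((h.toFun i - X i) + br k q' i) = h.toFun i + br k q' i
    ring
  have hp' : EqM d pr h' := by
    have h1 : EqM d h' h := by
      intro i
      have h2 := (hc.mono (by omega : d ≤ d + 1)) i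
      rw [hval] at h2
      have h3 := h2.add (hbr' i)
      have h4 : h'.toFun i - (h.toFun i + br k q' i) + br k q' i = h'.toFun i - h.toFun i := by
        ring
      rwa [h4] at h3
    exact EqM.trans hp h1.symm
  have hs' : (fun i => h'.toFun i - pr.toFun i) ∈ ZT T T' a d := by
    set w : V n := fun i => h'.toFun i - (h.toFun i + br k q' i) with hw
    have hwO : OV (d + 1) w := by
      intro i
      have h1 := hc i
      rwa [hval] at h1
    have e1 : (fun i => h'.toFun i - pr.toFun i) = (r + br k q) + (br k (q' - q) + w) := by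
      rw [br_sub_right]
      funext i
      simp only [Pi.add_apply, Pi.sub_apply, hw, hr]
      ring
    rw [e1]
    have hb2 : OV (d + 1) (br k (q' - q)) := OV_br hk hq'q (by omega)
    exact (ZT T T' a d).add_mem hkZ (ZT_of_OV' T T' a d (hb2.add hwO))
  obtain ⟨τ0', τ3', ψ, g0, g3, gl0, gl3, gψ1, gψc, gψ, gE0, gE3, gE⟩ :=
    stepT T T' hT hT' a ha hinv hodd (by omega : 2 ≤ d) τ0 τ3 G h' h0 h3 l0 l3 hG hp' hs'
  refine ⟨(φ * U, ψ * W, τ0', τ3'), ⟨?_, ?_, ?_, g0, g3, gl0, gl3, ?_⟩, ?_, ?_, gE0, gE3⟩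
  · show lin (((φ * U : (FMap n)ˣ)) : FMap n) = 1
    rw [Units.val_mul, lin_mul, hU1, mul_one, hφ, lin_oneAdd he2 k hk1 hk]
  · show lin (((ψ * W : (FMap n)ˣ)) : FMap n) = 1
    rw [Units.val_mul, lin_mul, hW1, mul_one, gψ1]
  · show (((ψ * W : (FMap n)ˣ)) : FMap n) * linMap (T * T') =
      linMap (T * T') * ((ψ * W : (FMap n)ˣ) : FMap n)
    rw [Units.val_mul, mul_assoc, hWc, ← mul_assoc, gψc, mul_assoc]
  · show EqM (d + 1) (τ0' * (((ψ * W : (FMap n)ˣ) : FMap n) * G0 *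
      (((ψ * W)⁻¹ : (FMap n)ˣ) : FMap n)) * τ3')
      (((φ * U : (FMap n)ˣ) : FMap n) * oneAdd q hq1 * (((φ * U)⁻¹ : (FMap n)ˣ) : FMap n))
    have e1 : ((φ * U : (FMap n)ˣ) : FMap n) * oneAdd q hq1 *
        (((φ * U)⁻¹ : (FMap n)ˣ) : FMap n) = h' := by
      rw [hh'2, hh, mul_inv_rev, Units.val_mul, Units.val_mul]
      simp only [mul_assoc]
    have e2 : ((ψ * W : (FMap n)ˣ) : FMap n) * G0 * (((ψ * W)⁻¹ : (FMap n)ˣ) : FMap n) =
        (ψ : FMap n) * G * ((ψ⁻¹ : (FMap n)ˣ) : FMap n) := by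
      rw [hGdef, mul_inv_rev, Units.val_mul, Units.val_mul]
      simp only [mul_assoc]
    rw [e1, e2]
    exact gE
  · show EqM (d + 1 - m) ((φ * U : (FMap n)ˣ) : FMap n) (U : FMap n)
    intro i
    rw [Units.val_mul, hφ, oneAdd_mul, add_sub_cancel_left]
    exact (hk.sb _) i
  · show EqM (d - 1) ((ψ * W : (FMap n)ˣ) : FMap n) (W : FMap n)
    have h1 := gψ.mul (EqM.refl (d - 1) (W : FMap n))
    rw [one_mul] at h1
    rw [Units.val_mul]
    exact h1

end Pool.Agent.RTH
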