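import Mathlib
import Pool.Agent.RTH.LD
import Pool.Agent.RTH.LB

/-!
The lifting theorem.  Base (`degree m + 1`): state `(1, 1, β0, β3)` of `base`, `G0 = β0 β3`: the product is
`β0 β0 β3 β3 = 1` exactly, equal to `1 + q` modulo order `m`, difference `q ∈ ZT .. m`: `stepT` with `d = m`
gives a state in degree `m + 1` (`W = φ`).  Then iterate `step_all`, take limits (`exists_limit`) of the four
components (`U` : orders `d + 1 - m`, `W` : orders `d - 1`, `τ` : orders `d`), as at the end of `lift_conj`.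
In the limit `τ0 (W G0 W⁻¹) τ3 = U f U⁻¹`, `G0 = β0 β3`, so
`f = (U⁻¹ τ0 U)(U⁻¹ W β0 W⁻¹ U)(U⁻¹ W β3 W⁻¹ U)(U⁻¹ τ3 U)`.
-/

namespace Pool.Agent.RTH

open MvPowerSeries Pool.Agent.RevMaps

private theorem EqM_inv' {n d : ℕ} (u v : (FMap n)ˣ) (h : EqM d (u : FMap n) v) :
    EqM d ((u⁻¹ : (FMap n)ˣ) : FMap n) ((v⁻¹ : (FMap n)ˣ) : FMap n) := by
  have h1 := ((EqM.refl d ((u⁻¹ : (FMap n)ˣ) : FMap n)).mul h).mul
    (EqM.refl d ((v⁻¹ : (FMap n)ˣ) : FMap n))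
  rw [u.inv_mul, one_mul, mul_assoc, v.mul_inv, mul_one] at h1
  exact h1.symm

private theorem I4_of' {n : ℕ} (a b c d : FMap n) (ha : a * a = 1) (hb : b * b = 1)
    (hc : c * c = 1) (hd : d * d = 1) : I4 (a * (b * c) * d) := by
  obtain ⟨τ, e0, e1, e2, e3⟩ : ∃ τ : Fin 4 → FMap n, τ 0 = a ∧ τ 1 = b ∧ τ 2 = c ∧ τ 3 = d :=
    ⟨![a, b, c, d], rfl, rfl, rfl, rfl⟩
  refine ⟨τ, ?_, ?_⟩
  · rw [Fin.forall_fin_succ, Fin.forall_fin_succ, Fin.forall_fin_succ, Fin.forall_fin_succ]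
    refine ⟨by rw [e0]; exact ha, ?_, ?_, ?_, fun i => i.elim0⟩
    · show τ 1 * τ 1 = 1
      rw [e1]; exact hb
    · show τ 2 * τ 2 = 1
      rw [e2]; exact hc
    · show τ 3 * τ 3 = 1
      rw [e3]; exact hd
  · rw [e0, e1, e2, e3, mul_assoc a b c]

theorem lift_mid {n : ℕ} (T T' : Matrix (Fin n) (Fin n) ℂ) (hT : T * T = 1) (hT' : T' * T' = 1)
    (a : V n) (ha : OV 2 a) (hinv : act (T * T') (T' * T) a = a) (hodd : act T T a = -a)
    {m : ℕ} (hm : 2 ≤ m) (q : V n) (hq1 : OV 1 q) (hq : OV m q) (hbase : q ∈ ZT T T' a m)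
    (hstep : ∀ d, m + 1 ≤ d → ∀ r : V n, OV d r →
      ∃ k : V n, OV (d + 1 - m) k ∧ r + br k q ∈ ZT T T' a d) :
    I4 (oneAdd q hq1) := by
  classical
  obtain ⟨β0, β3, b0, b3, lb0, lb3, hmid⟩ := base T T' hT hT' a ha hinv hodd
  set G0 : FMap n := β0 * β3 with hG0
  set f : FMap n := oneAdd q hq1 with hf
  have hprod : β0 * G0 * β3 = 1 := by
    rw [hG0]
    calc β0 * (β0 * β3) * β3 = (β0 * β0) * (β3 * β3) := by simp only [mul_assoc]
      _ = 1 := by rw [b0, b3, one_mul]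
  -- the base
  have hbase' : ∃ s, StP T T' G0 f (m + 1) s := by
    have hdiff : (fun i => f.toFun i - (β0 * G0 * β3).toFun i) = q := by
      funext i
      rw [hprod]
      show (X i + q i) - X i = q i
      ring
    have hp : EqM m (β0 * G0 * β3) f := by
      intro i
      have h1 : O m ((fun i => f.toFun i - (β0 * G0 * β3).toFun i) i) := by
        rw [hdiff]; exact hq i
      exact h1.symm_sub
    obtain ⟨τ0', τ3', φ, g0, g3, gl0, gl3, gφ1, gφc, _, _, _, gE⟩ :=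
      stepT T T' hT hT' a ha hinv hodd hm β0 β3 G0 f b0 b3 lb0 lb3 hmid hp (by
        rw [hdiff]; exact hbase)
    refine ⟨(1, φ, τ0', τ3'), ?_, gφ1, gφc, g0, g3, gl0, gl3, ?_⟩
    · simp [lin_one]
    · simpa using gE
  have hstep' : ∀ d, m + 1 ≤ d → ∀ s, StP T T' G0 f d s → ∃ s', StP T T' G0 f (d + 1) s' ∧
      EqM (d + 1 - m) (s'.1 : FMap n) s.1 ∧ EqM (d - 1) (s'.2.1 : FMap n) s.2.1 ∧
      EqM d s'.2.2.1 s.2.2.1 ∧ EqM d s'.2.2.2 s.2.2.2 := by
    intro d hd s hs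
    exact step_all T T' hT hT' a ha hinv hodd G0 hmid hm q hq1 hq hd (hstep d hd) s hs
  obtain ⟨s0, hs0⟩ := hbase'
  choose! F hF1 hF2 hF3 hF4 hF5 using hstep'
  let s : ℕ → ((FMap n)ˣ × (FMap n)ˣ × FMap n × FMap n) :=
    fun j => Nat.rec s0 (fun j x => F (m + 1 + j) x) j
  have hs1 : ∀ j, StP T T' G0 f (m + 1 + j) (s j) := by
    intro j
    induction j with
    | zero => exact hs0
    | succ j ih => exact hF1 (m + 1 + j) (by omega) (s j) ih
  have hsU : ∀ j, EqM (j + 2) ((s (j + 1)).1 : FMap n) (s j).1 := by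
    intro j
    have := hF2 (m + 1 + j) (by omega) (s j) (hs1 j)
    rw [show m + 1 + j + 1 - m = j + 2 by omega] at this
    exact this
  have hsW : ∀ j, EqM (j + 2) ((s (j + 1)).2.1 : FMap n) (s j).2.1 := by
    intro j
    have := hF3 (m + 1 + j) (by omega) (s j) (hs1 j)
    exact this.mono (by omega)
  have hsT0 : ∀ j, EqM (j + 2) ((s (j + 1)).2.2.1) ((s j).2.2.1) := by
    intro j
    exact (hF4 (m + 1 + j) (by omega) (s j) (hs1 j)).mono (by omega)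
  have hsT3 : ∀ j, EqM (j + 2) ((s (j + 1)).2.2.2) ((s j).2.2.2) := by
    intro j
    exact (hF5 (m + 1 + j) (by omega) (s j) (hs1 j)).mono (by omega)
  have hlim : ∀ g : ℕ → FMap n, (∀ j, EqM (j + 2) (g (j + 1)) (g j)) →
      ∃ G : FMap n, ∀ j, EqM (j + 2) G (g j) := by
    intro g hg
    obtain ⟨G, hG⟩ := exists_limit (fun d => g (d - 2)) 2 (by
      intro d hd
      obtain ⟨j, rfl⟩ : ∃ j, d = j + 2 := ⟨d - 2, by omega⟩
      have e1 : j + 2 + 1 - 2 = j + 1 := by omega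
      have e2 : j + 2 - 2 = j := by omega
      simp only [e1, e2]
      exact hg j)
    refine ⟨G, fun j => ?_⟩
    have := hG (j + 2) (by omega)
    rwa [show j + 2 - 2 = j by omega] at this
  obtain ⟨U, hU⟩ := hlim (fun j => ((s j).1 : FMap n)) hsU
  obtain ⟨W, hW⟩ := hlim (fun j => ((s j).2.1 : FMap n)) hsW
  obtain ⟨τ0, hτ0⟩ := hlim (fun j => (s j).2.2.1) hsT0
  obtain ⟨τ3, hτ3⟩ := hlim (fun j => (s j).2.2.2) hsT3
  have hU1 : lin U = 1 := by
    rw [(hU 0).lin_eq (by omega)]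
    exact (hs1 0).1
  have hW1 : lin W = 1 := by
    rw [(hW 0).lin_eq (by omega)]
    exact (hs1 0).2.1
  obtain ⟨u, hu⟩ : IsUnit U := by
    rw [isUnit_iff_det, hU1, Matrix.det_one]; exact one_ne_zero
  obtain ⟨w, hw⟩ : IsUnit W := by
    rw [isUnit_iff_det, hW1, Matrix.det_one]; exact one_ne_zero
  have hτ00 : τ0 * τ0 = 1 := by
    apply eq_of_EqM
    intro d
    have h1 := (hτ0 d).mul (hτ0 d)
    rw [(hs1 d).2.2.2.1] at h1
    exact h1.mono (by omega)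
  have hτ33 : τ3 * τ3 = 1 := by
    apply eq_of_EqM
    intro d
    have h1 := (hτ3 d).mul (hτ3 d)
    rw [(hs1 d).2.2.2.2.1] at h1
    exact h1.mono (by omega)
  have hmain : τ0 * ((w : FMap n) * G0 * ((w⁻¹ : (FMap n)ˣ) : FMap n)) * τ3 =
      (u : FMap n) * f * ((u⁻¹ : (FMap n)ˣ) : FMap n) := by
    apply eq_of_EqM
    intro d
    have hUd : EqM d (u : FMap n) ((s d).1 : FMap n) := by
      rw [hu]; exact (hU d).mono (by omega)
    have hWd : EqM d (w : FMap n) ((s d).2.1 : FMap n) := by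
      rw [hw]; exact (hW d).mono (by omega)
    have h0d : EqM d τ0 (s d).2.2.1 := (hτ0 d).mono (by omega)
    have h3d : EqM d τ3 (s d).2.2.2 := (hτ3 d).mono (by omega)
    have h1 := (h0d.mul ((hWd.mul (EqM.refl d G0)).mul (EqM_inv' _ _ hWd))).mul h3d
    have h2 := (hs1 d).2.2.2.2.2.2.2.mono (show d ≤ m + 1 + d by omega)
    have h3 := (hUd.mul (EqM.refl d f)).mul (EqM_inv' _ _ hUd)
    exact (h1.trans h2).trans h3.symm
  have hconj : ∀ x : FMap n, x * x = 1 →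
      ((w : FMap n) * x * ((w⁻¹ : (FMap n)ˣ) : FMap n)) *
        ((w : FMap n) * x * ((w⁻¹ : (FMap n)ˣ) : FMap n)) = 1 := by
    intro x hx
    calc ((w : FMap n) * x * ((w⁻¹ : (FMap n)ˣ) : FMap n)) *
        ((w : FMap n) * x * ((w⁻¹ : (FMap n)ˣ) : FMap n))
        = (w : FMap n) * (x * (((w⁻¹ : (FMap n)ˣ) : FMap n) * (w : FMap n)) * x) *
            ((w⁻¹ : (FMap n)ˣ) : FMap n) := by simp only [mul_assoc]
      _ = 1 := by rw [w.inv_mul, mul_one, hx, mul_one, w.mul_inv]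
  refine I4_conj (p := ((u⁻¹ : (FMap n)ˣ) : FMap n)) (p' := (u : FMap n)) u.inv_mul u.mul_inv ?_
  rw [← hmain]
  set x0 : FMap n := (w : FMap n) * β0 * ((w⁻¹ : (FMap n)ˣ) : FMap n) with hx0
  set x3 : FMap n := (w : FMap n) * β3 * ((w⁻¹ : (FMap n)ˣ) : FMap n) with hx3
  have hx : x0 * x3 = (w : FMap n) * G0 * ((w⁻¹ : (FMap n)ˣ) : FMap n) := by
    rw [hG0, hx0, hx3]
    calc (w : FMap n) * β0 * ((w⁻¹ : (FMap n)ˣ) : FMap n) *
        ((w : FMap n) * β3 * ((w⁻¹ : (FMap n)ˣ) : FMap n))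
        = (w : FMap n) * (β0 * (((w⁻¹ : (FMap n)ˣ) : FMap n) * (w : FMap n)) * β3) *
            ((w⁻¹ : (FMap n)ˣ) : FMap n) := by simp only [mul_assoc]
      _ = _ := by rw [w.inv_mul, mul_one]
  have hx00 : x0 * x0 = 1 := hconj β0 b0
  have hx33 : x3 * x3 = 1 := hconj β3 b3
  rw [← hx]
  exact I4_of' τ0 x0 x3 τ3 hτ00 hx00 hx33 hτ33

end Pool.Agent.RTH
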