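import Mathlib
import Pool.Agent.RTH.LE
import Pool.Agent.RTH.F1
import Pool.Agent.RTH.F3
import Pool.Agent.RTH.F4

/-!
The criterion for `m = 2`.  Base: `F4`.  Step `d = 3`: with `k1` (from `hk 1`: `om ≠ 0`, `z^3`-coefficient `0`)
and `k2` (from `hψ`: `z^3`-coefficient `≠ 0`): `k = c1 • k1 + c2 • k2`, first `c2`, then `c1`; `F3`.
`d` even `≥ 4`: `F1`, `k = 0`.  `d = 2l+1 ≥ 5`: as in `KA`, `F2`.
-/

namespace Pool.Agent.RTH

open MvPowerSeries Pool.Agent.RevMaps

theorem caseTwo {b : ℂ} (hb : GoodB b) (q : V 3) (hq : OV 2 q)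
    (h : cf3 1 0 1 (q 0) = cf3 0 1 1 (q 1))
    (hk : ∀ l, 1 ≤ l → ∃ k : V 3, OV (2 * l) k ∧ om b l (br k q) ≠ 0 ∧
      (l = 1 → cf3 0 0 3 (br k q 2) = 0))
    (hψ : ∃ k : V 3, OV 2 k ∧ cf3 0 0 3 (br k q 2) ≠ 0) : I4q q := by
  intro hq1
  refine lift_mid T0 tt T0_sq tt_sq (a2 b) (OV_a2 b) (act_DD_a2 b) (act_T0_a2 b) le_rfl q hq1 hq
    (F4 b q hq h) ?_
  intro d hd r hr
  rcases Nat.even_or_odd d with he | ho
  · refine ⟨0, fun i => O_of_zero _, ?_⟩
    rw [br_zero_left, add_zero]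
    obtain ⟨e, rfl⟩ := he
    exact F1 hb (by omega) ⟨e, rfl⟩ r hr
  · obtain ⟨l, rfl⟩ := ho
    rcases Nat.lt_or_ge l 2 with hl | hl
    · have hl1 : l = 1 := by omega
      subst hl1
      obtain ⟨k1, hk1, hom1, hz1⟩ := hk 1 le_rfl
      obtain ⟨k2, hk2, hz2⟩ := hψ
      have hz1' := hz1 rfl
      set z2 : ℂ := cf3 0 0 3 (br k2 q 2) with hz2def
      set c2 : ℂ := - cf3 0 0 3 (r 2) / z2 with hc2
      set o1 : ℂ := om b 1 (br k1 q) with ho1
      set c1 : ℂ := - (om b 1 r + c2 * om b 1 (br k2 q)) / o1 with hc1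
      have hbr : br (c1 • k1 + c2 • k2) q = c1 • br k1 q + c2 • br k2 q := by
        rw [br_add_left, br_smul_left, br_smul_left]
      have hkO : OV 2 (c1 • k1 + c2 • k2) := by
        have h1 : OV 2 k1 := hk1
        exact (h1.smul c1).add (hk2.smul c2)
      refine ⟨c1 • k1 + c2 • k2, hkO, ?_⟩
      have hbO : OV 3 (br (c1 • k1 + c2 • k2) q) := OV_br hkO hq (by norm_num)
      have hr3 : OV 3 r := hr
      apply F3 hb _ (hr3.add hbO)
      · rw [hbr, om_add, om_add, om_smul, om_smul, ← ho1, hc1]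
        field_simp
        ring
      · rw [hbr]
        simp only [Pi.add_apply, Pi.smul_apply, map_add, map_smul, smul_eq_mul]
        rw [hz1', ← hz2def, hc2]
        field_simp
        ring
    · obtain ⟨k0, hk0, hom, -⟩ := hk l (by omega)
      set o1 : ℂ := om b l (br k0 q) with ho1
      set c : ℂ := - om b l r / o1 with hc
      have hkO : OV (2 * l) (c • k0) := hk0.smul c
      refine ⟨c • k0, ?_, ?_⟩
      · have e : 2 * l + 1 + 1 - 2 = 2 * l := by omega
        rw [e]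
        exact hkO
      · have hbO : OV (2 * l + 1) (br (c • k0) q) := OV_br hkO hq (by omega)
        apply F2 hb hl _ (hr.add hbO)
        rw [br_smul_left, om_add, om_smul, ← ho1, hc]
        field_simp
        ring

end Pool.Agent.RTH
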