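import Mathlib
import Pool.Agent.RTH.Pd

/-!
The functionals of the fields `x^(l+1) y^(l+1-m) ∂_z` and `x^(l+1-m) y^(l+1) ∂_z` (exact; checked by
computer).  `k = K ∂_z`: `br k q = (-K ∂_z q_0, -K ∂_z q_1, q_0 ∂_x K + q_1 ∂_y K - K ∂_z q_2)`.  For the first:
`om = -q_0[y^(m-1) z] + b/(bl-2) (l+1) q_0[y^(m-1) z]`, the other terms have too many `x`.
-/

namespace Pool.Agent.RTH

open MvPowerSeries Pool.Agent.RevMaps

private theorem KT_k2 (a b c : ℕ) : fl 2 a b c 2 = mo a b c := by simp [fl, tens]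
private theorem KT_k0 (a b c : ℕ) : fl 2 a b c 0 = 0 := by simp [fl, tens]
private theorem KT_k1 (a b c : ℕ) : fl 2 a b c 1 = 0 := by simp [fl, tens]

private theorem KT_Dd (a b c : ℕ) (p : PS 3) :
    Dd (fl 2 a b c) p = mo a b c * pderiv ℂ 2 p := by
  rw [Dd_three, KT_k0, KT_k1, KT_k2]
  ring

private theorem KT_zero (q : V 3) : Dd q (0 : PS 3) = 0 := by
  have := Dd_smul q 0 (0 : PS 3)
  simpa using this

private theorem KT_br0 (a b c : ℕ) (q : V 3) :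
    br (fl 2 a b c) q 0 = -(mo a b c * pderiv ℂ 2 (q 0)) := by
  unfold br
  rw [KT_k0, KT_zero, KT_Dd, zero_sub]

private theorem KT_br1 (a b c : ℕ) (q : V 3) :
    br (fl 2 a b c) q 1 = -(mo a b c * pderiv ℂ 2 (q 1)) := by
  unfold br
  rw [KT_k1, KT_zero, KT_Dd, zero_sub]

private theorem KT_br2 (a b : ℕ) (q : V 3) :
    br (fl 2 a b 0) q 2 = (a : ℂ) • (mo (a - 1) b 0 * q 0) + (b : ℂ) • (mo a (b - 1) 0 * q 1)
      - mo a b 0 * pderiv ℂ 2 (q 2) := by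
  unfold br
  rw [KT_k2, KT_Dd, Dd_three, pderiv0_mo, pderiv1_mo, pderiv2_mo]
  simp only [Nat.cast_zero, zero_smul, zero_mul, add_zero, smul_mul_assoc]

theorem om_br_Theta_x {b : ℂ} {l m : ℕ} (hb : b * (l : ℂ) ≠ 2) (hm : 2 ≤ m) (hl : m ≤ l + 1)
    (q : V 3) : om b l (br (fl 2 (l + 1) (l + 1 - m) 0) q) =
      (b + 2) / (b * l - 2) * cf3 0 (m - 1) 1 (q 0) := by
  have hb' : b * (l : ℂ) - 2 ≠ 0 := sub_ne_zero.2 hb
  unfold om
  rw [KT_br0, KT_br1, KT_br2, map_neg, map_neg, map_sub, map_add, map_smul, map_smul,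
    cf3_mo_mul' (by omega) (by omega) (by omega), cf3_mo_mul_zero (by omega),
    cf3_mo_mul' (by omega) (by omega) (by omega), cf3_mo_mul_zero (by omega),
    cf3_mo_mul_zero (by omega)]
  have e1 : l + 1 - (l + 1) = 0 := by omega
  have e2 : l - (l + 1 - m) = m - 1 := by omega
  have e3 : l - (l + 1 - 1) = 0 := by omega
  rw [e1, e2, e3, cf3_pderiv2]
  simp only [Nat.sub_zero, Nat.cast_zero, Nat.cast_add, Nat.cast_one, smul_eq_mul, mul_zero,
    neg_zero, add_zero, zero_add, sub_zero, one_mul]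
  field_simp
  ring

theorem om_br_Theta_y {b : ℂ} {l m : ℕ} (hb : b * (l : ℂ) ≠ 2) (hm : 2 ≤ m) (hl : m ≤ l + 1)
    (q : V 3) : om b l (br (fl 2 (l + 1 - m) (l + 1) 0) q) =
      (b + 2) / (b * l - 2) * cf3 (m - 1) 0 1 (q 1) := by
  have hb' : b * (l : ℂ) - 2 ≠ 0 := sub_ne_zero.2 hb
  unfold om
  rw [KT_br0, KT_br1, KT_br2, map_neg, map_neg, map_sub, map_add, map_smul, map_smul,
    cf3_mo_mul_zero (by omega), cf3_mo_mul' (by omega) (by omega) (by omega),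
    cf3_mo_mul_zero (by omega), cf3_mo_mul' (by omega) (by omega) (by omega),
    cf3_mo_mul_zero (by omega)]
  have e1 : l + 1 - (l + 1) = 0 := by omega
  have e2 : l - (l + 1 - m) = m - 1 := by omega
  have e3 : l - (l + 1 - 1) = 0 := by omega
  rw [e1, e2, e3, cf3_pderiv2]
  simp only [Nat.sub_zero, Nat.cast_zero, Nat.cast_add, Nat.cast_one, smul_eq_mul, mul_zero,
    neg_zero, add_zero, zero_add, sub_zero, one_mul]
  field_simp
  ring

/-- the `z^3`-coefficient for `K = x^a y^b'`, `a + b' = 2` -/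
theorem psi_zero (q : V 3) {a b' : ℕ} (h : a + b' = 2) :
    cf3 0 0 3 (br (fl 2 a b' 0) q 2) = 0 := by
  rw [KT_br2, map_sub, map_add, map_smul, map_smul]
  have h3 : cf3 0 0 3 (mo a b' 0 * pderiv ℂ 2 (q 2)) = 0 := cf3_mo_mul_zero (by omega) _
  have h1 : (a : ℂ) • cf3 0 0 3 (mo (a - 1) b' 0 * q 0) = 0 := by
    rcases Nat.eq_zero_or_pos a with h0 | h0
    · rw [h0]; simp
    · rw [cf3_mo_mul_zero (by omega), smul_zero]
  have h2 : (b' : ℂ) • cf3 0 0 3 (mo a (b' - 1) 0 * q 1) = 0 := by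
    rcases Nat.eq_zero_or_pos b' with h0 | h0
    · rw [h0]; simp
    · rw [cf3_mo_mul_zero (by omega), smul_zero]
  rw [h1, h2, h3]
  ring

end Pool.Agent.RTH
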