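import Mathlib
import Pool.Agent.RTH.Defs

/-!
Linear changes of coordinates: bookkeeping.  `I4q_of_Conj`: `I4_oneAdd_linConj`.
-/

namespace Pool.Agent.RTH

open MvPowerSeries Pool.Agent.RevMaps

theorem Conj.refl (q : V 3) : Conj q q :=
  ⟨1, 1, by simp, by simp, by rw [act_one]⟩

theorem Conj.trans {q q' q'' : V 3} (h : Conj q q') (h' : Conj q' q'') : Conj q q'' := by
  obtain ⟨P, P', h1, h2, rfl⟩ := h
  obtain ⟨R, R', g1, g2, rfl⟩ := h'
  refine ⟨P * R, R' * P', ?_, ?_, ?_⟩
  · calc P * R * (R' * P') = P * (R * R') * P' := by simp only [mul_assoc]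
      _ = 1 := by rw [g1, mul_one, h1]
  · calc R' * P' * (P * R) = R' * (P' * P) * R := by simp only [mul_assoc]
      _ = 1 := by rw [h2, mul_one, g2]
  · rw [act_act]

theorem Conj.OV {m : ℕ} {q q' : V 3} (h : Conj q q') (hq : OV m q) : OV m q' := by
  obtain ⟨P, P', h1, h2, rfl⟩ := h
  exact hq.act _ _

theorem Conj.symm {q q' : V 3} (h : Conj q q') : Conj q' q := by
  obtain ⟨P, P', h1, h2, rfl⟩ := h
  refine ⟨P', P, h2, h1, ?_⟩
  rw [act_act, h1, act_one]

theorem I4q_of_Conj {q q' : V 3} (h : Conj q q') (h' : I4q q') : I4q q := by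
  obtain ⟨P, P', h1, h2, rfl⟩ := h
  intro hq1
  exact I4_oneAdd_linConj P P' h1 h2 (h' (hq1.act P' P))

theorem Sh_mul (i j : Fin 3) (hij : i ≠ j) (s : ℂ) : Sh i j s * Sh i j (-s) = 1 := by
  have h0 : Matrix.single i j (1 : ℂ) * Matrix.single i j (1 : ℂ) = 0 :=
    Matrix.single_mul_single_of_ne (1 : ℂ) i j i hij.symm 1
  unfold Sh
  rw [mul_add, mul_one, add_mul, one_mul, smul_mul_smul_comm, h0, smul_zero, add_zero, neg_smul]
  abel

theorem Conj_shq (i j : Fin 3) (hij : i ≠ j) (s : ℂ) (q : V 3) : Conj q (shq i j s q) := by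
  refine ⟨Sh i j s, Sh i j (-s), Sh_mul i j hij s, ?_, rfl⟩
  have h := Sh_mul i j hij (-s)
  rwa [neg_neg] at h

theorem shq_ne (i j : Fin 3) (s : ℂ) (q : V 3) {k : Fin 3} (hk : k ≠ i) :
    shq i j s q k = (q k).subst (linMap (Sh i j s)).toFun := by
  unfold shq act mv sb
  rw [Finset.sum_eq_single k]
  · have : Sh i j (-s) k k = 1 := by
      simp [Sh, Matrix.single_apply, Ne.symm hk]
    rw [this, one_smul]
  · intro l _ hl
    have : Sh i j (-s) k l = 0 := by
      simp [Sh, Matrix.single_apply, Ne.symm hk, Matrix.one_apply, Ne.symm hl]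
    rw [this, zero_smul]
  · intro h; exact absurd (Finset.mem_univ k) h

theorem shq_self (i j : Fin 3) (hij : i ≠ j) (s : ℂ) (q : V 3) :
    shq i j s q i = (q i).subst (linMap (Sh i j s)).toFun -
      s • (q j).subst (linMap (Sh i j s)).toFun := by
  unfold shq act mv sb
  have h1 : ∀ l, Sh i j (-s) i l = (if l = i then (1 : ℂ) else 0) + (if l = j then -s else 0) := by
    intro l
    by_cases h : j = l
    · subst h; simp [Sh, Matrix.one_apply, hij, hij.symm]
    · simp [Sh, Matrix.single_apply, Matrix.one_apply, h, Ne.symm h, eq_comm]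
  simp only [h1, add_smul, Finset.sum_add_distrib, ite_smul, one_smul, zero_smul,
    Finset.sum_ite_eq', Finset.mem_univ, if_true, neg_smul]
  rw [sub_eq_add_neg]

end Pool.Agent.RTH
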