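import Mathlib
import Pool.Agent.RTH.Mo

/-!
Evaluation of the homogeneous part and linear substitutions.
`coeff_subst_col`: by `le_of_mo` (both sides are linear in `p`; order `≥ m+1`: both `0`); for a monomial of degree
`m` the substituted series is `∏ (∑_j P i j X_j)^(e i)`, the coefficient of `X_a^m` is `∏ (P i a)^(e i)`.
(E.g. compare with the further substitution `X_j ↦ δ_{ja} X_a`, or induction on the exponents.)
-/

namespace Pool.Agent.RTH

open MvPowerSeries Pool.Agent.RevMaps

theorem coeff_hpart (m : ℕ) (p : PS 3) (e : Fin 3 →₀ ℕ) :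
    (hpart m p).coeff e = if e.degree = m then coeff e p else 0 := by
  unfold hpart
  rw [MvPolynomial.coeff_sum]
  simp only [MvPolynomial.coeff_monomial]
  rw [Finset.sum_ite_eq']
  have h : (e ∈ (Finset.univ : Finset (Fin 3)).finsuppAntidiag m) ↔ e.degree = m := by
    rw [Finset.mem_finsuppAntidiag, Finsupp.degree_eq_sum]
    simp
  by_cases h1 : e.degree = m
  · rw [if_pos h1, if_pos (h.mpr h1)]
  · rw [if_neg h1, if_neg (fun h2 => h1 (h.mp h2))]

theorem hpart_eq_zero {m : ℕ} {p : PS 3} (hp : O m p) : hpart m p = 0 ↔ O (m + 1) p := by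
  constructor
  · intro h e he
    by_cases h1 : e.degree = m
    · have h2 := coeff_hpart m p e
      rw [h, if_pos h1, MvPolynomial.coeff_zero] at h2
      exact h2.symm
    · exact hp e (by omega)
  · intro h
    ext e
    rw [coeff_hpart, MvPolynomial.coeff_zero]
    by_cases h1 : e.degree = m
    · rw [if_pos h1]; exact h e (by omega)
    · rw [if_neg h1]

theorem ev_add (m : ℕ) (p p' : PS 3) (w : Fin 3 → ℂ) : ev m (p + p') w = ev m p w + ev m p' w := by
  unfold ev
  have h : hpart m (p + p') = hpart m p + hpart m p' := by
    ext e
    rw [MvPolynomial.coeff_add, coeff_hpart, coeff_hpart, coeff_hpart]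
    split_ifs
    · exact map_add _ _ _
    · simp
  rw [h, MvPolynomial.eval_add]

theorem ev_smul (m : ℕ) (c : ℂ) (p : PS 3) (w : Fin 3 → ℂ) : ev m (c • p) w = c * ev m p w := by
  unfold ev
  have h : hpart m (c • p) = c • hpart m p := by
    ext e
    rw [MvPolynomial.coeff_smul, coeff_hpart, coeff_hpart]
    split_ifs
    · simp
    · simp
  rw [h, MvPolynomial.smul_eval]

theorem ev_O {m : ℕ} {p : PS 3} (hp : O (m + 1) p) (w : Fin 3 → ℂ) : ev m p w = 0 := by
  unfold ev
  rw [(hpart_eq_zero (hp.mono (Nat.le_succ m))).mpr hp, map_zero]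

private theorem ev_mo {m a b c : ℕ} (h : a + b + c = m) (w : Fin 3 → ℂ) :
    ev m (mo a b c) w = w 0 ^ a * w 1 ^ b * w 2 ^ c := by
  have h1 : hpart m (mo a b c) = MvPolynomial.monomial (ex a b c) (1 : ℂ) := by
    ext e
    rw [coeff_hpart, MvPolynomial.coeff_monomial, mo_eq, MvPowerSeries.coeff_monomial]
    by_cases h2 : e = ex a b c
    · subst h2
      have h3 : (ex a b c).degree = m := by rw [degree_ex]; exact h
      simp [h3]
    · have h3 : ¬ ex a b c = e := fun h4 => h2 h4.symm
      simp [h2, h3]
  unfold ev
  rw [h1, MvPolynomial.eval_monomial, one_mul]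
  unfold ex
  rw [Finsupp.prod_fintype _ _ (by intro i; simp)]
  rw [Fin.prod_univ_three]
  simp

/-- the coefficient of `X_a^k` is multiplicative for products of series of orders `k`, `l` -/
private theorem coeff_col_mul (a : Fin 3) {k l : ℕ} {p q : PS 3} (hp : O k p) (hq : O l q) :
    coeff (Finsupp.single a (k + l)) (p * q) =
      coeff (Finsupp.single a k) p * coeff (Finsupp.single a l) q := by
  classical
  rw [MvPowerSeries.coeff_mul]
  rw [Finset.sum_eq_single (Finsupp.single a k, Finsupp.single a l)]
  · rintro ⟨u, v⟩ huv hne
    rw [Finset.HasAntidiagonal.mem_antidiagonal] at huv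
    simp only at huv ⊢
    have hd : u.degree + v.degree = k + l := by
      have := congrArg Finsupp.degree huv
      rw [map_add, Finsupp.degree_single] at this
      exact this
    by_cases hu : u.degree < k
    · rw [hp u hu, zero_mul]
    · by_cases hv : v.degree < l
      · rw [hq v hv, mul_zero]
      · exfalso
        have hu' : u.degree = k := by omega
        have hv' : v.degree = l := by omega
        have key : ∀ i : Fin 3, i ≠ a → u i = 0 ∧ v i = 0 := by
          intro i hi
          have h1 := DFunLike.congr_fun huv i
          rw [Finsupp.add_apply, Finsupp.single_eq_of_ne hi] at h1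
          omega
        have hu2 : u = Finsupp.single a (u a) := by
          ext i
          by_cases hi : i = a
          · subst hi; simp
          · rw [Finsupp.single_eq_of_ne hi]; exact (key i hi).1
        have hv2 : v = Finsupp.single a (v a) := by
          ext i
          by_cases hi : i = a
          · subst hi; simp
          · rw [Finsupp.single_eq_of_ne hi]; exact (key i hi).2
        have hu3 : u a = k := by
          rw [hu2, Finsupp.degree_single] at hu'
          exact hu'
        have hv3 : v a = l := by
          rw [hv2, Finsupp.degree_single] at hv'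
          exact hv'
        apply hne
        rw [hu2, hv2, hu3, hv3]
  · intro h
    exfalso
    apply h
    rw [Finset.HasAntidiagonal.mem_antidiagonal]
    simp only
    rw [← Finsupp.single_add]

private theorem coeff_col_pow (a : Fin 3) {p : PS 3} (hp : O 1 p) (k : ℕ) :
    coeff (Finsupp.single a k) (p ^ k) = (coeff (Finsupp.single a 1) p) ^ k := by
  induction k with
  | zero => simp
  | succ k ih =>
    rw [pow_succ, coeff_col_mul a (O_pow hp) hp, ih, pow_succ]

theorem coeff_subst_col {m : ℕ} {p : PS 3} (hp : O m p) (P : Matrix (Fin 3) (Fin 3) ℂ)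
    (a : Fin 3) : coeff (Finsupp.single a m) (p.subst (linMap P).toFun) =
      ev m p (fun i => P i a) := by
  let W : Submodule ℂ (PS 3) :=
    { carrier := {q | coeff (Finsupp.single a m) (q.subst (linMap P).toFun) =
        ev m q (fun i => P i a)}
      add_mem' := by
        intro q q' h h'
        change _ = _ at h h'
        change _ = _
        rw [subst_add (linMap P).hasSubst, map_add, h, h', ev_add]
      zero_mem' := by
        change _ = _
        rw [ev_O (O_of_zero _)]
        have h := subst_smulC (linMap P) 0 (0 : PS 3)
        rw [zero_smul, zero_smul] at h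
        rw [h, map_zero]
      smul_mem' := by
        intro c q h
        change _ = _ at h
        change _ = _
        rw [subst_smulC, ev_smul, ← h]
        simp }
  have hW := le_of_mo W m (by
    intro b c d h
    change coeff (Finsupp.single a m) ((mo b c d).subst (linMap P).toFun) =
      ev m (mo b c d) (fun i => P i a)
    rw [ev_mo h]
    unfold mo
    rw [subst_mulC, subst_mulC, subst_powC, subst_powC, subst_powC, subst_X_linMap,
      subst_X_linMap, subst_X_linMap]
    have hO : ∀ i : Fin 3, O 1 (ell (P i) : PS 3) := fun i => O_ell (P i)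
    have hc : ∀ i : Fin 3, coeff (Finsupp.single a 1) (ell (P i) : PS 3) = P i a := by
      intro i
      have h1 := congrFun (congrFun (lin_linMap P) i) a
      exact h1
    rw [← h, coeff_col_mul a ((O_pow (hO 0) (k := b)).mul (O_pow (hO 1) (k := c)))
      (O_pow (hO 2) (k := d)), coeff_col_mul a (O_pow (hO 0)) (O_pow (hO 1)), coeff_col_pow a (hO 0),
      coeff_col_pow a (hO 1), coeff_col_pow a (hO 2), hc, hc, hc]) (by
    intro q hq
    change coeff (Finsupp.single a m) (q.subst (linMap P).toFun) = ev m q (fun i => P i a)
    rw [ev_O hq]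
    exact O_subst hq (fun i => (linMap P).O1 i) _ (by rw [Finsupp.degree_single]; omega))
  exact hW p hp

/-- the pure power coefficients of a transformed tuple -/
theorem coeff_act_col {m : ℕ} {q : V 3} (hq : OV m q) (P P' : Matrix (Fin 3) (Fin 3) ℂ)
    (a i : Fin 3) : coeff (Finsupp.single a m) (act P' P q i) =
      ∑ j, P' i j * ev m (q j) (fun i => P i a) := by
  unfold act mv sb
  rw [map_sum]
  refine Finset.sum_congr rfl fun j _ => ?_
  rw [← coeff_subst_col (hq j) P a]
  simp

end Pool.Agent.RTH
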