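import Mathlib
import Pool.Agent.RTH.EV
import Pool.Agent.RTH.CJ

/-!
Changes of the `(x, y)` plane for `m = 2`.  `A` a `2 × 2` matrix with inverse `A'`; block matrices.
For `p` of order `≥ 2`: `(p∘P)[x z] = A00 p[x z] + A10 p[y z]`, `(p∘P)[y z] = A01 p[x z] + A11 p[y z]`, `(p∘P)[z²] = p[z²]`
(by `le_of_mo` on the 6 monomials of degree 2, or from `cf3`-computations).  So the matrix
`N = !![q_0[xz], q_0[yz]; q_1[xz], q_1[yz]]` becomes `A' N A`, and `(q_0[z²], q_1[z²])` becomes `A'` times it.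
-/

namespace Pool.Agent.RTH

open MvPowerSeries Pool.Agent.RevMaps

/-- block matrix -/
noncomputable def Bl (A : Matrix (Fin 2) (Fin 2) ℂ) : Matrix (Fin 3) (Fin 3) ℂ :=
  !![A 0 0, A 0 1, 0; A 1 0, A 1 1, 0; 0, 0, 1]

/-- the matrix of the `z`-linear part on the `(x, y)` plane -/
noncomputable def NN (q : V 3) : Matrix (Fin 2) (Fin 2) ℂ :=
  !![cf3 1 0 1 (q 0), cf3 0 1 1 (q 0); cf3 1 0 1 (q 1), cf3 0 1 1 (q 1)]

theorem Bl_mul (A A' : Matrix (Fin 2) (Fin 2) ℂ) (h : A * A' = 1) : Bl A * Bl A' = 1 := by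
  have h00 := congrFun (congrFun h 0) 0
  have h01 := congrFun (congrFun h 0) 1
  have h10 := congrFun (congrFun h 1) 0
  have h11 := congrFun (congrFun h 1) 1
  simp only [Matrix.mul_apply, Fin.sum_univ_two, Matrix.one_apply_eq] at h00 h11
  rw [Matrix.mul_apply, Fin.sum_univ_two, Matrix.one_apply_ne (by decide)] at h01 h10
  ext i j
  fin_cases i <;> fin_cases j <;>
    simp [Bl, Matrix.mul_apply, Fin.sum_univ_three, h00, h01, h10, h11]

private theorem m2_X (M : Matrix (Fin 3) (Fin 3) ℂ) (i : Fin 3) :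
    (X i : PS 3).subst (linMap M).toFun = M i 0 • X 0 + M i 1 • X 1 + M i 2 • X 2 := by
  rw [subst_X_linMap, ell, Fin.sum_univ_three]

private theorem m2_mo (A : Matrix (Fin 2) (Fin 2) ℂ) (a b c : ℕ) :
    (mo a b c).subst (linMap (Bl A)).toFun =
      (A 0 0 • X 0 + A 0 1 • X 1) ^ a * (A 1 0 • X 0 + A 1 1 • X 1) ^ b * X 2 ^ c := by
  rw [mo, subst_mulC, subst_mulC, subst_powC, subst_powC, subst_powC, m2_X, m2_X, m2_X]
  simp only [Bl, Matrix.of_apply, Matrix.cons_val', Matrix.cons_val_zero, Matrix.cons_val_one,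
    Matrix.cons_val, Matrix.cons_val_fin_one, zero_smul, add_zero, zero_add, one_smul]

private theorem m2_add (g : FMap 3) (p p' : PS 3) :
    (p + p').subst g.toFun = p.subst g.toFun + p'.subst g.toFun := subst_add g.hasSubst p p'

private theorem m2_key (A : Matrix (Fin 2) (Fin 2) ℂ) (p : PS 3) (hp : O 2 p) :
    cf3 1 0 1 (p.subst (linMap (Bl A)).toFun) = A 0 0 * cf3 1 0 1 p + A 1 0 * cf3 0 1 1 p ∧
    cf3 0 1 1 (p.subst (linMap (Bl A)).toFun) = A 0 1 * cf3 1 0 1 p + A 1 1 * cf3 0 1 1 p ∧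
    cf3 0 0 2 (p.subst (linMap (Bl A)).toFun) = cf3 0 0 2 p := by
  obtain ⟨W, hW⟩ : ∃ W : Submodule ℂ (PS 3), ∀ p, p ∈ W ↔
      cf3 1 0 1 (p.subst (linMap (Bl A)).toFun) = A 0 0 * cf3 1 0 1 p + A 1 0 * cf3 0 1 1 p ∧
      cf3 0 1 1 (p.subst (linMap (Bl A)).toFun) = A 0 1 * cf3 1 0 1 p + A 1 1 * cf3 0 1 1 p ∧
      cf3 0 0 2 (p.subst (linMap (Bl A)).toFun) = cf3 0 0 2 p := by
    refine ⟨{ carrier := {p | cf3 1 0 1 (p.subst (linMap (Bl A)).toFun) =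
                A 0 0 * cf3 1 0 1 p + A 1 0 * cf3 0 1 1 p ∧
              cf3 0 1 1 (p.subst (linMap (Bl A)).toFun) =
                A 0 1 * cf3 1 0 1 p + A 1 1 * cf3 0 1 1 p ∧
              cf3 0 0 2 (p.subst (linMap (Bl A)).toFun) = cf3 0 0 2 p}
              add_mem' := ?_
              zero_mem' := ?_
              smul_mem' := ?_ }, fun p => Iff.rfl⟩
    · rintro p p' ⟨h1, h2, h3⟩ ⟨g1, g2, g3⟩
      refine ⟨?_, ?_, ?_⟩
      · rw [m2_add, map_add, map_add, map_add, h1, g1]; ring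
      · rw [m2_add, map_add, map_add, map_add, h2, g2]; ring
      · rw [m2_add, map_add, map_add, h3, g3]
    · have e : (0 : PS 3).subst (linMap (Bl A)).toFun = 0 := by
        have := subst_smulC (linMap (Bl A)) 0 (0 : PS 3)
        simpa using this
      refine ⟨?_, ?_, ?_⟩ <;> simp [e]
    · rintro c p ⟨h1, h2, h3⟩
      refine ⟨?_, ?_, ?_⟩
      · rw [subst_smulC, map_smul, map_smul, map_smul, h1]; simp only [smul_eq_mul]; ring
      · rw [subst_smulC, map_smul, map_smul, map_smul, h2]; simp only [smul_eq_mul]; ring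
      · rw [subst_smulC, map_smul, map_smul, h3]
  rw [← hW]
  refine le_of_mo W 2 ?_ ?_ p hp
  · intro a b c habc
    rw [hW, m2_mo]
    have hx : (X 0 : PS 3) = mo 1 0 0 := by simp [mo]
    have hy : (X 1 : PS 3) = mo 0 1 0 := by simp [mo]
    have hz : (X 2 : PS 3) = mo 0 0 1 := by simp [mo]
    have hcase : (a = 2 ∧ b = 0 ∧ c = 0) ∨ (a = 0 ∧ b = 2 ∧ c = 0) ∨ (a = 0 ∧ b = 0 ∧ c = 2) ∨
        (a = 1 ∧ b = 1 ∧ c = 0) ∨ (a = 1 ∧ b = 0 ∧ c = 1) ∨ (a = 0 ∧ b = 1 ∧ c = 1) := by omega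
    rw [hx, hy, hz]
    rcases hcase with ⟨rfl, rfl, rfl⟩ | ⟨rfl, rfl, rfl⟩ | ⟨rfl, rfl, rfl⟩ | ⟨rfl, rfl, rfl⟩ |
      ⟨rfl, rfl, rfl⟩ | ⟨rfl, rfl, rfl⟩ <;>
    simp [pow_two, add_mul, mul_add, mo_mul, cf3_mo]
  · intro q hq
    rw [hW]
    have h1 : O 3 (q.subst (linMap (Bl A)).toFun) := O_subst hq (linMap (Bl A)).O1
    rw [cf3_O h1 (by norm_num), cf3_O h1 (by norm_num), cf3_O h1 (by norm_num),
      cf3_O hq (by norm_num), cf3_O hq (by norm_num), cf3_O hq (by norm_num)]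
    simp

private theorem m2_act (A A' : Matrix (Fin 2) (Fin 2) ℂ) (q : V 3) :
    act (Bl A') (Bl A) q 0 = A' 0 0 • (q 0).subst (linMap (Bl A)).toFun +
      A' 0 1 • (q 1).subst (linMap (Bl A)).toFun ∧
    act (Bl A') (Bl A) q 1 = A' 1 0 • (q 0).subst (linMap (Bl A)).toFun +
      A' 1 1 • (q 1).subst (linMap (Bl A)).toFun ∧
    act (Bl A') (Bl A) q 2 = (q 2).subst (linMap (Bl A)).toFun := by
  refine ⟨?_, ?_, ?_⟩
  · show ∑ j, Bl A' 0 j • (q j).subst (linMap (Bl A)).toFun = _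
    rw [Fin.sum_univ_three]
    have e0 : Bl A' 0 0 = A' 0 0 := rfl
    have e1 : Bl A' 0 1 = A' 0 1 := rfl
    have e2 : Bl A' 0 2 = 0 := rfl
    rw [e0, e1, e2, zero_smul, add_zero]
  · show ∑ j, Bl A' 1 j • (q j).subst (linMap (Bl A)).toFun = _
    rw [Fin.sum_univ_three]
    have e0 : Bl A' 1 0 = A' 1 0 := rfl
    have e1 : Bl A' 1 1 = A' 1 1 := rfl
    have e2 : Bl A' 1 2 = 0 := rfl
    rw [e0, e1, e2, zero_smul, add_zero]
  · show ∑ j, Bl A' 2 j • (q j).subst (linMap (Bl A)).toFun = _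
    rw [Fin.sum_univ_three]
    have e0 : Bl A' 2 0 = 0 := rfl
    have e1 : Bl A' 2 1 = 0 := rfl
    have e2 : Bl A' 2 2 = 1 := rfl
    rw [e0, e1, e2, zero_smul, zero_smul, add_zero, zero_add, one_smul]

theorem NN_conj (A A' : Matrix (Fin 2) (Fin 2) ℂ) (q : V 3) (hq : OV 2 q) :
    NN (act (Bl A') (Bl A) q) = A' * NN q * A := by
  obtain ⟨a0, a1, _⟩ := m2_act A A' q
  obtain ⟨k1, k2, _⟩ := m2_key A (q 0) (hq 0)
  obtain ⟨l1, l2, _⟩ := m2_key A (q 1) (hq 1)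
  rw [NN, a0, a1]
  simp only [map_add, map_smul, smul_eq_mul, k1, k2, l1, l2]
  ext i j
  fin_cases i <;> fin_cases j <;>
    simp [NN, Matrix.mul_apply, Fin.sum_univ_two] <;> ring

theorem zz_conj (A A' : Matrix (Fin 2) (Fin 2) ℂ) (q : V 3) (hq : OV 2 q) :
    cf3 0 0 2 (act (Bl A') (Bl A) q 2) = cf3 0 0 2 (q 2) ∧
    cf3 0 0 2 (act (Bl A') (Bl A) q 0) = A' 0 0 * cf3 0 0 2 (q 0) + A' 0 1 * cf3 0 0 2 (q 1) ∧
    cf3 0 0 2 (act (Bl A') (Bl A) q 1) = A' 1 0 * cf3 0 0 2 (q 0) + A' 1 1 * cf3 0 0 2 (q 1) := by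
  obtain ⟨a0, a1, a2⟩ := m2_act A A' q
  obtain ⟨_, _, k3⟩ := m2_key A (q 0) (hq 0)
  obtain ⟨_, _, l3⟩ := m2_key A (q 1) (hq 1)
  obtain ⟨_, _, n3⟩ := m2_key A (q 2) (hq 2)
  refine ⟨?_, ?_, ?_⟩
  · rw [a2, n3]
  · rw [a0]
    simp only [map_add, map_smul, smul_eq_mul, k3, l3]
  · rw [a1]
    simp only [map_add, map_smul, smul_eq_mul, k3, l3]

end Pool.Agent.RTH
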