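import Mathlib
import Pool.Agent.RevMaps.TwoCases

/-!
A non scalar `2 × 2` matrix is conjugate to one with equal diagonal entries and lower left entry `1`:
`companion` (`RevMaps.TwoCases`) gives `!![0, -det; 1, tr]`, then conjugate by `!![1, s; 0, 1]` with `s = -tr/2`:
`!![1, -s; 0, 1] * !![0, -D; 1, t] * !![1, s; 0, 1] = !![-s, *; 1, t + s]`.  (`Dg c c` is the scalar matrix.)
-/

namespace Pool.Agent.RTH

open MvPowerSeries Pool.Agent.RevMaps

open Pool.Agent.RevMaps in
theorem equal_diag (N : Matrix (Fin 2) (Fin 2) ℂ) (hN : ¬ ∃ c : ℂ, N = Dg c c) :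
    ∃ A A' : Matrix (Fin 2) (Fin 2) ℂ, A * A' = 1 ∧ A' * A = 1 ∧
      (A' * N * A) 0 0 = (A' * N * A) 1 1 ∧ (A' * N * A) 1 0 = 1 := by
  obtain ⟨P, P', h1, h2, h3⟩ := companion N hN
  set S : Matrix (Fin 2) (Fin 2) ℂ := !![1, -(N.trace / 2); 0, 1] with hS
  set S' : Matrix (Fin 2) (Fin 2) ℂ := !![1, N.trace / 2; 0, 1] with hS'
  have e1 : S * S' = 1 := by
    ext i j
    fin_cases i <;> fin_cases j <;> simp [hS, hS', Matrix.mul_apply, Fin.sum_univ_two]
  have e2 : S' * S = 1 := by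
    ext i j
    fin_cases i <;> fin_cases j <;> simp [hS, hS', Matrix.mul_apply, Fin.sum_univ_two]
  have e3 : S' * P' * N * (P * S) = S' * !![0, -N.det; 1, N.trace] * S := by
    rw [← h3]
    simp only [mul_assoc]
  refine ⟨P * S, S' * P', ?_, ?_, ?_, ?_⟩
  · calc P * S * (S' * P') = P * (S * S') * P' := by simp only [mul_assoc]
      _ = 1 := by rw [e1, mul_one, h1]
  · calc S' * P' * (P * S) = S' * (P' * P) * S := by simp only [mul_assoc]
      _ = 1 := by rw [h2, mul_one, e2]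
  · rw [e3]
    simp only [hS, hS', Matrix.mul_apply, Fin.sum_univ_two, Matrix.of_apply, Matrix.cons_val',
      Matrix.cons_val_zero, Matrix.cons_val_one, Matrix.cons_val_fin_one]
    ring
  · rw [e3]
    simp only [hS, hS', Matrix.mul_apply, Fin.sum_univ_two, Matrix.of_apply, Matrix.cons_val',
      Matrix.cons_val_zero, Matrix.cons_val_one, Matrix.cons_val_fin_one]
    ring

end Pool.Agent.RTH
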