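import Mathlib

/-!
Two independent vectors as columns of an invertible matrix.
E.g.: extend `![w, u]` to a basis with a third vector not in the span (`LinearIndependent.extend` or
`exists_linearIndependent_cons..`), put `w` in column `a`, `u` in column `c`, the third one in the remaining
column; `P' = P⁻¹`, `det P ≠ 0` since the columns are independent.
-/

namespace Pool.Agent.RTH


theorem col_complete (w u : Fin 3 → ℂ) (h : LinearIndependent ℂ ![w, u]) (a c : Fin 3)
    (hac : a ≠ c) : ∃ P P' : Matrix (Fin 3) (Fin 3) ℂ, P * P' = 1 ∧ P' * P = 1 ∧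
      (∀ i, P i a = w i) ∧ (∀ i, P i c = u i) := by
  have hfr : 2 < Module.finrank ℂ (Fin 3 → ℂ) := by
    rw [Module.finrank_fintype_fun_eq_card, Fintype.card_fin]
    norm_num
  obtain ⟨v, hv⟩ := exists_linearIndependent_cons_of_lt_finrank h hfr
  have hinj : ∀ a c : Fin 3, a ≠ c →
      Function.Injective (fun j : Fin 3 => if j = a then (1 : Fin 3) else if j = c then 2 else 0) := by
    decide
  have hLI := hv.comp _ (hinj a c hac)
  obtain ⟨P, hP⟩ : ∃ P : Matrix (Fin 3) (Fin 3) ℂ, P = Matrix.of (fun i j =>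
      (Fin.cons v ![w, u] : Fin 3 → (Fin 3 → ℂ)) (if j = a then 1 else if j = c then 2 else 0) i) :=
    ⟨_, rfl⟩
  have hcols : LinearIndependent ℂ P.col := by
    have : P.col = (Fin.cons v ![w, u] : Fin 3 → (Fin 3 → ℂ)) ∘
        (fun j : Fin 3 => if j = a then (1 : Fin 3) else if j = c then 2 else 0) := by
      rw [hP]
      rfl
    rw [this]
    exact hLI
  have hunit : IsUnit P := Matrix.linearIndependent_cols_iff_isUnit.1 hcols
  obtain ⟨Q, hQ⟩ := hunit
  refine ⟨P, ((Q⁻¹ : (Matrix (Fin 3) (Fin 3) ℂ)ˣ) : Matrix (Fin 3) (Fin 3) ℂ), ?_, ?_, ?_, ?_⟩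
  · rw [← hQ, Units.mul_inv]
  · rw [← hQ, Units.inv_mul]
  · intro i
    rw [hP, Matrix.of_apply, if_pos rfl]
    rfl
  · intro i
    rw [hP, Matrix.of_apply, if_neg hac.symm, if_pos rfl]
    rfl

/-- one nonzero vector as first column -/
theorem col_one (w : Fin 3 → ℂ) (h : w ≠ 0) : ∃ P P' : Matrix (Fin 3) (Fin 3) ℂ,
    P * P' = 1 ∧ P' * P = 1 ∧ (∀ i, P i 0 = w i) := by
  have hfr : 1 < Module.finrank ℂ (Fin 3 → ℂ) := by
    rw [Module.finrank_fintype_fun_eq_card, Fintype.card_fin]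
    norm_num
  have h1 : LinearIndependent ℂ ![w] := by
    rw [linearIndependent_unique_iff]
    exact h
  obtain ⟨v, hv⟩ := exists_linearIndependent_cons_of_lt_finrank h1 hfr
  obtain ⟨P, P', h2, h3, _, h4⟩ := col_complete v w hv 1 0 (by decide)
  exact ⟨P, P', h2, h3, h4⟩

end Pool.Agent.RTH
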