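import Mathlib
import Pool.Agent.RTH.N2
import Pool.Agent.RTH.EV
import Pool.Agent.RTH.CJ

/-!
Normal forms of a nonradial tuple.
`norm_x`: `P` with column `0` = `w`, column `2` = `v(w)` (`col_complete`), `P'` its inverse,
`coeff (single 0 m) (act P' P q i) = ∑_j P' i j v(w)_j = (P' P)_{i2}` (`coeff_act_col`, `ex_x`).
`norm_z`: column `2` = `w`, column `0` = `v(w)`.  `norm_z1`: column `2` = `w`, column `0` = `v(w) - w`
(still independent), `v(w) = column 0 + column 2`.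
-/

namespace Pool.Agent.RTH

open MvPowerSeries Pool.Agent.RevMaps

private theorem N3_cf {m : ℕ} {q : V 3} (hq : OV m q) (P P' : Matrix (Fin 3) (Fin 3) ℂ)
    (w : Fin 3 → ℂ) (a : Fin 3) (ha : ∀ i, P i a = w i) (i : Fin 3) :
    coeff (Finsupp.single a m) (act P' P q i) = ∑ j, P' i j * ev m (q j) w := by
  rw [coeff_act_col hq P P' a i]
  have : (fun i => P i a) = w := funext ha
  rw [this]

private theorem N3_PP {P P' : Matrix (Fin 3) (Fin 3) ℂ} (h : P' * P = 1) (i c : Fin 3) :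
    ∑ j, P' i j * P j c = if i = c then 1 else 0 := by
  have h1 := congrFun (congrFun h i) c
  rw [Matrix.mul_apply, Matrix.one_apply] at h1
  exact h1

theorem norm_x {m : ℕ} (q : V 3) (hq : OV m q) (w : Fin 3 → ℂ)
    (hw : LinearIndependent ℂ ![w, fun i => ev m (q i) w]) :
    ∃ q', Conj q q' ∧ OV m q' ∧ cf3 m 0 0 (q' 2) = 1 := by
  obtain ⟨P, P', h1, h2, h3, h4⟩ := col_complete w _ hw 0 2 (by decide)
  refine ⟨act P' P q, ⟨P, P', h1, h2, rfl⟩, hq.act _ _, ?_⟩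
  unfold cf3
  rw [ex_x, N3_cf hq P P' w 0 h3 2]
  have h5 : ∀ j, P' 2 j * ev m (q j) w = P' 2 j * P j 2 := fun j => by rw [h4]
  rw [Finset.sum_congr rfl (fun j _ => h5 j), N3_PP h2, if_pos rfl]

theorem norm_z {m : ℕ} (q : V 3) (hq : OV m q) (w : Fin 3 → ℂ)
    (hw : LinearIndependent ℂ ![w, fun i => ev m (q i) w]) :
    ∃ q', Conj q q' ∧ OV m q' ∧ cf3 0 0 m (q' 0) = 1 ∧ cf3 0 0 m (q' 1) = 0 ∧
      cf3 0 0 m (q' 2) = 0 := by
  obtain ⟨P, P', h1, h2, h3, h4⟩ := col_complete w _ hw 2 0 (by decide)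
  have h6 : ∀ i, cf3 0 0 m (act P' P q i) = if i = 0 then 1 else 0 := by
    intro i
    unfold cf3
    rw [ex_z, N3_cf hq P P' w 2 h3 i]
    have h5 : ∀ j, P' i j * ev m (q j) w = P' i j * P j 0 := fun j => by rw [h4]
    rw [Finset.sum_congr rfl (fun j _ => h5 j), N3_PP h2]
  refine ⟨act P' P q, ⟨P, P', h1, h2, rfl⟩, hq.act _ _, ?_, ?_, ?_⟩
  · rw [h6, if_pos rfl]
  · rw [h6, if_neg (by decide)]
  · rw [h6, if_neg (by decide)]

theorem norm_z1 {m : ℕ} (q : V 3) (hq : OV m q) (w : Fin 3 → ℂ)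
    (hw : LinearIndependent ℂ ![w, fun i => ev m (q i) w]) :
    ∃ q', Conj q q' ∧ OV m q' ∧ cf3 0 0 m (q' 0) = 1 ∧ cf3 0 0 m (q' 1) = 0 ∧
      cf3 0 0 m (q' 2) = 1 := by
  have hw' : LinearIndependent ℂ ![w, (fun i => ev m (q i) w) - w] := by
    rw [LinearIndependent.pair_iff] at hw ⊢
    intro s t hst
    have h1 : (s - t) • w + t • (fun i => ev m (q i) w) = 0 := by
      rw [← hst, smul_sub, sub_smul]
      abel
    obtain ⟨h2, h3⟩ := hw _ _ h1
    subst h3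
    exact ⟨by simpa using h2, rfl⟩
  obtain ⟨P, P', h1, h2, h3, h4⟩ := col_complete w _ hw' 2 0 (by decide)
  have h6 : ∀ i, cf3 0 0 m (act P' P q i) = (if i = 0 then 1 else 0) +
      (if i = 2 then 1 else 0) := by
    intro i
    unfold cf3
    rw [ex_z, N3_cf hq P P' w 2 h3 i]
    have h5 : ∀ j, P' i j * ev m (q j) w = P' i j * P j 0 + P' i j * P j 2 := by
      intro j
      rw [h4, h3, Pi.sub_apply]
      ring
    rw [Finset.sum_congr rfl (fun j _ => h5 j), Finset.sum_add_distrib, N3_PP h2, N3_PP h2]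
  refine ⟨act P' P q, ⟨P, P', h1, h2, rfl⟩, hq.act _ _, ?_, ?_, ?_⟩
  · rw [h6, if_pos rfl, if_neg (by decide), add_zero]
  · rw [h6, if_neg (by decide), if_neg (by decide), add_zero]
  · rw [h6, if_neg (by decide), if_pos rfl, zero_add]

end Pool.Agent.RTH
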