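import Mathlib
import Pool.Agent.RTH.KB
import Pool.Agent.RTH.K0
import Pool.Agent.RTH.KT
import Pool.Agent.RTH.N3
import Pool.Agent.RTH.M2
import Pool.Agent.RTH.M2e
import Pool.Agent.RTH.GB

/-!
`m = 2`, nonradial.  `norm_z1`: `q_0[z²] = 1`, `q_1[z²] = 0`, `q_2[z²] = 1`.  `N = NN q`.
* `N` scalar `= λ`: `caseTwo` with `b ∈ {3, 5}` such that `4 λ - 2 b ≠ 0` (not both vanish): `k = fl 2 l l 0`,
  `om_br_Theta0 = (4 λ - 2 b)/(b l - 2)`, `psi_zero` for `l = 1`; `hψ`: `k = fl 2 1 0 1`, `psi_k1`: `q_0[z²] = 1`.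
* `N` not scalar: `equal_diag`, coordinates `q' = act (Bl A') (Bl A) q` (`Bl_mul`, `Conj`): equal diagonal,
  `q'_1[x z] = 1`; `b = 3`, `hk`: `k = fl 2 (l - 1) (l + 1) 0` (`m = 2`: `l + 1 - 2`), `om_br_Theta_y = 5/(3l-2) * 1`;
  `psi_zero`; `hψ`: `(q'_0[z²], q'_1[z²]) = A' (1, 0)ᵀ ≠ 0`: `psi_k1` or `psi_k2`.
-/

namespace Pool.Agent.RTH

open MvPowerSeries Pool.Agent.RevMaps

theorem case2n (q : V 3) (hq : OV 2 q) (w : Fin 3 → ℂ)
    (hw : LinearIndependent ℂ ![w, fun i => ev 2 (q i) w]) : I4q q := by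
  obtain ⟨q', hc, hq', h0, h1, h2⟩ := norm_z1 q hq w hw
  apply I4q_of_Conj hc
  by_cases hN : ∃ c : ℂ, NN q' = Dg c c
  · obtain ⟨c, hN⟩ := hN
    have e00 : cf3 1 0 1 (q' 0) = c := by
      have := congrFun (congrFun hN 0) 0
      simpa [NN, Dg] using this
    have e11 : cf3 0 1 1 (q' 1) = c := by
      have := congrFun (congrFun hN 1) 1
      simpa [NN, Dg] using this
    have key : ∀ b : ℂ, GoodB b → 4 * c - 2 * b ≠ 0 → I4q q' := by
      intro b hb hne
      refine caseTwo hb q' hq' (e00.trans e11.symm) ?_ ?_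
      · intro l hl
        refine ⟨fl 2 l l 0, ?_, ?_, ?_⟩
        · have := OV_fl 2 l l 0
          rwa [show l + l + 0 = 2 * l by ring] at this
        · rw [om_br_Theta0 (hb.2 l), e00, e11, h2]
          have h3 : b * (l : ℂ) - 2 ≠ 0 := sub_ne_zero.2 (hb.2 l)
          have h4 : (2 * c + 2 * c - 2 * b * 1 : ℂ) = 4 * c - 2 * b := by ring
          rw [h4]
          exact mul_ne_zero (one_div_ne_zero h3) hne
        · intro hl1
          subst hl1
          exact psi_zero q' rfl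
      · refine ⟨fl 2 1 0 1, OV_fl 2 1 0 1, ?_⟩
        rw [psi_k1, h0]
        exact one_ne_zero
    by_cases h3 : 4 * c - 2 * 3 = 0
    · refine key 5 goodB_five ?_
      intro h5
      have h6 : (4 : ℂ) = 0 := by linear_combination h3 - h5
      norm_num at h6
    · exact key 3 goodB_three h3
  · obtain ⟨A, A', hA, hA', hd, h10⟩ := equal_diag (NN q') hN
    have hcj : Conj q' (act (Bl A') (Bl A) q') :=
      ⟨Bl A, Bl A', Bl_mul A A' hA, Bl_mul A' A hA', rfl⟩
    apply I4q_of_Conj hcj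
    have hNN := NN_conj A A' q' hq'
    obtain ⟨z2, z0, z1⟩ := zz_conj A A' q' hq'
    have hq2 : OV 2 (act (Bl A') (Bl A) q') := hcj.OV hq'
    generalize act (Bl A') (Bl A) q' = q2 at hNN z2 z0 z1 hq2 ⊢
    rw [h0, h1] at z0 z1
    rw [← hNN] at hd h10
    have d1 : cf3 1 0 1 (q2 0) = cf3 0 1 1 (q2 1) := by simpa [NN] using hd
    have d2 : cf3 1 0 1 (q2 1) = 1 := by simpa [NN] using h10
    refine caseTwo goodB_three q2 hq2 d1 ?_ ?_
    · intro l hl
      refine ⟨fl 2 (l + 1 - 2) (l + 1) 0, ?_, ?_, ?_⟩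
      · have := OV_fl 2 (l + 1 - 2) (l + 1) 0
        rwa [show l + 1 - 2 + (l + 1) + 0 = 2 * l by omega] at this
      · rw [om_br_Theta_y (goodB_three.2 l) (le_refl 2) (by omega), d2]
        have h3 : (3 : ℂ) * (l : ℂ) - 2 ≠ 0 := sub_ne_zero.2 (goodB_three.2 l)
        rw [mul_one]
        refine div_ne_zero ?_ h3
        norm_num
      · intro hl1
        subst hl1
        exact psi_zero q2 rfl
    · by_cases hz : A' 0 0 = 0
      · refine ⟨fl 2 0 1 1, OV_fl 2 0 1 1, ?_⟩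
        rw [psi_k2, z1, mul_one, mul_zero, add_zero]
        intro hz1
        have h3 := congrFun (congrFun hA' 0) 0
        have h4 := congrFun (congrFun hA 0) 0
        have h5 := congrFun (congrFun hA 1) 0
        rw [Matrix.mul_apply, Fin.sum_univ_two] at h4
        rw [hz, hz1] at h4
        simp at h4
      · refine ⟨fl 2 1 0 1, OV_fl 2 1 0 1, ?_⟩
        rw [psi_k1, z0, mul_one, mul_zero, add_zero]
        exact hz

end Pool.Agent.RTH
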