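import Mathlib
import Pool.Agent.RTH.EV
import Pool.Agent.RTH.CJ

/-!
Radial tuples `φ E`.  `act_rad`: `act P' P (φ X_i)_i = mv P' ((φ∘P) (P X)_i) = (φ∘P) (P' P X)_i`.
`rad_conj`: the difference `q - φ E` has order `m + 1`, `act` keeps it.
-/

namespace Pool.Agent.RTH

open MvPowerSeries Pool.Agent.RevMaps

theorem act_rad (P P' : Matrix (Fin 3) (Fin 3) ℂ) (h : P' * P = 1) (φ : PS 3) :
    act P' P (fun i => φ * X i) = fun i => φ.subst (linMap P).toFun * X i := by
  have h1 : mv P' (mv P (fun i => (X i : PS 3))) = fun i => X i := by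
    rw [mv_mv, h, mv_one]
  funext i
  have h2 := congrFun h1 i
  change ∑ j, P' i j • (mv P (fun i => (X i : PS 3)) j) = X i at h2
  change ∑ j, P' i j • ((φ * X j).subst (linMap P).toFun) = φ.subst (linMap P).toFun * X i
  rw [← h2, Finset.mul_sum]
  refine Finset.sum_congr rfl fun j _ => ?_
  rw [subst_mulC, subst_X (linMap P).hasSubst, mul_smul_comm]
  rfl

theorem rad_conj {m : ℕ} {q : V 3} {φ : PS 3} (hr : ∀ i, O (m + 1) (q i - φ * X i))
    (P P' : Matrix (Fin 3) (Fin 3) ℂ) (h : P' * P = 1) :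
    ∀ i, O (m + 1) (act P' P q i - φ.subst (linMap P).toFun * X i) := by
  intro i
  have h1 : OV (m + 1) (q - fun i => φ * X i) := fun j => hr j
  have h2 := (OV.act P' P h1) i
  rw [act_sub, act_rad P P' h] at h2
  exact h2

private theorem cf3_mul_X {a b c : ℕ} (φ : PS 3) (i : Fin 3) (e : Fin 3 →₀ ℕ)
    (he : e = ex a b c + Finsupp.single i 1) : coeff e (φ * X i) = cf3 a b c φ := by
  rw [he]
  have h := MvPowerSeries.coeff_add_mul_monomial (ex a b c) (Finsupp.single i 1) φ (1 : ℂ)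
  rw [mul_one] at h
  exact h

theorem rad_cf0 {m : ℕ} {q : V 3} {φ : PS 3} (hr : ∀ i, O (m + 1) (q i - φ * X i)) {a b c : ℕ}
    (h : a + b + c + 1 = m) : cf3 (a + 1) b c (q 0) = cf3 a b c φ := by
  have h1 := hr 0 (ex (a + 1) b c) (by rw [degree_ex]; omega)
  rw [map_sub, sub_eq_zero] at h1
  have h2 : ex (a + 1) b c = ex a b c + Finsupp.single 0 1 := by
    unfold ex; rw [Finsupp.single_add]; abel
  rw [cf3_mul_X φ 0 _ h2] at h1
  exact h1

theorem rad_cf1 {m : ℕ} {q : V 3} {φ : PS 3} (hr : ∀ i, O (m + 1) (q i - φ * X i)) {a b c : ℕ}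
    (h : a + b + c + 1 = m) : cf3 a (b + 1) c (q 1) = cf3 a b c φ := by
  have h1 := hr 1 (ex a (b + 1) c) (by rw [degree_ex]; omega)
  rw [map_sub, sub_eq_zero] at h1
  have h2 : ex a (b + 1) c = ex a b c + Finsupp.single 1 1 := by
    unfold ex; rw [Finsupp.single_add]; abel
  rw [cf3_mul_X φ 1 _ h2] at h1
  exact h1

theorem rad_cf2 {m : ℕ} {q : V 3} {φ : PS 3} (hr : ∀ i, O (m + 1) (q i - φ * X i)) {a b c : ℕ}
    (h : a + b + c + 1 = m) : cf3 a b (c + 1) (q 2) = cf3 a b c φ := by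
  have h1 := hr 2 (ex a b (c + 1)) (by rw [degree_ex]; omega)
  rw [map_sub, sub_eq_zero] at h1
  have h2 : ex a b (c + 1) = ex a b c + Finsupp.single 2 1 := by
    unfold ex; rw [Finsupp.single_add]; abel
  rw [cf3_mul_X φ 2 _ h2] at h1
  exact h1

/-- the radial factor is nonzero in degree `m - 1` -/
theorem rad_ne {m : ℕ} (hm : 1 ≤ m) {q : V 3} {φ : PS 3} (hφ : O (m - 1) φ)
    (hr : ∀ i, O (m + 1) (q i - φ * X i)) (hq : ¬ OV (m + 1) q) : ¬ O m φ := by
  intro h
  apply hq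
  intro i
  have h1 : O (m + 1) (φ * X i) := h.mul (O_X i)
  have h2 := (hr i).add h1
  rw [sub_add_cancel] at h2
  exact h2

end Pool.Agent.RTH
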