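import Mathlib

/-!
Countably many nonzero polynomials have a common non-root.
Proof: the union of the (finite) root sets is countable, `ℂ` is not (`Set.Countable`,
`Set.countable_iUnion`, `Cardinal` / `not_countable`).
-/

namespace Pool.Agent.RTH


theorem avoid (F : ℕ → Polynomial ℂ) (hF : ∀ l, F l ≠ 0) : ∃ s : ℂ, ∀ l, (F l).eval s ≠ 0 := by
  have h1 : (⋃ l, ((F l).roots.toFinset : Set ℂ)).Countable :=
    Set.countable_iUnion fun l => ((F l).roots.toFinset : Set ℂ).toFinite.countable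
  have h2 : (⋃ l, ((F l).roots.toFinset : Set ℂ)) ≠ Set.univ := by
    intro h
    rw [h] at h1
    exact not_countable_complex h1
  obtain ⟨s, hs⟩ := (Set.ne_univ_iff_exists_notMem _).mp h2
  refine ⟨s, fun l hl => hs ?_⟩
  refine Set.mem_iUnion.mpr ⟨l, ?_⟩
  simp only [Finset.mem_coe, Multiset.mem_toFinset]
  exact (Polynomial.mem_roots (hF l)).mpr hl

/-- two polynomials -/
theorem avoid_two (F G : Polynomial ℂ) (hF : F ≠ 0) (hG : G ≠ 0) :
    ∃ s : ℂ, F.eval s ≠ 0 ∧ G.eval s ≠ 0 := by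
  obtain ⟨s, hs⟩ := avoid (fun l => if l = 0 then F else G) (by
    intro l
    by_cases h : l = 0
    · simp [h, hF]
    · simp [h, hG])
  refine ⟨s, ?_, ?_⟩
  · simpa using hs 0
  · simpa using hs 1

end Pool.Agent.RTH
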