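import Mathlib
import Pool.Agent.RTH.Mo

/-!
Coefficients after an elementary substitution (all checked by computer).  By `le_of_mo` (both sides linear
in `p`; order `≥ a+b+c+1`: both sides `0`); for a monomial expand `(x + s y)^a'` by the binomial theorem.
(`(linMap (Sh 0 1 s)).toFun = (x + s y, y, z)`; `mo a b c` is a product, `subst_mulC`, `subst_powC`, `subst_X_linMap`.)
The five formulas have the same proof.
-/

namespace Pool.Agent.RTH

open MvPowerSeries Pool.Agent.RevMaps

private theorem sc_X (i j : Fin 3) (s : ℂ) (l : Fin 3) :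
    (X l : PS 3).subst (linMap (Sh i j s)).toFun = if l = i then X i + s • X j else X l := by
  rw [subst_X_linMap]
  by_cases h : l = i
  · subst h
    rw [if_pos rfl]
    have e : Sh l j s l = Pi.single l 1 + s • Pi.single j 1 := by
      funext k
      simp [Sh, Matrix.single, Matrix.one_apply, Pi.single_apply, eq_comm]
    rw [e, ell_add, ell_smul, ell_single, ell_single]
  · rw [if_neg h]
    have e : Sh i j s l = Pi.single l 1 := by
      funext k
      simp [Sh, Matrix.single, Matrix.one_apply, Pi.single_apply, eq_comm, Ne.symm h]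
    rw [e, ell_single]

private noncomputable def sc_sl (P : Matrix (Fin 3) (Fin 3) ℂ) : PS 3 →ₗ[ℂ] PS 3 where
  toFun p := p.subst (linMap P).toFun
  map_add' p q := subst_add (linMap P).hasSubst p q
  map_smul' c p := subst_smulC (linMap P) c p

private theorem sc_gen (P : Matrix (Fin 3) (Fin 3) ℂ) (a b c N : ℕ) (coef : ℕ → ℂ)
    (A B C : ℕ → ℕ) (hdeg : ∀ k ∈ Finset.range N, A k + B k + C k = a + b + c)
    (hmo : ∀ a' b' c' : ℕ, a' + b' + c' = a + b + c →
      cf3 a b c ((mo a' b' c').subst (linMap P).toFun) =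
        ∑ k ∈ Finset.range N, coef k * cf3 (A k) (B k) (C k) (mo a' b' c'))
    {p : PS 3} (hp : O (a + b + c) p) :
    cf3 a b c (p.subst (linMap P).toFun) =
      ∑ k ∈ Finset.range N, coef k * cf3 (A k) (B k) (C k) p := by
  have key := le_of_mo (LinearMap.ker ((cf3 a b c) ∘ₗ (sc_sl P) -
    ∑ k ∈ Finset.range N, coef k • cf3 (A k) (B k) (C k))) (a + b + c) ?_ ?_ p hp
  · rw [LinearMap.mem_ker, LinearMap.sub_apply, LinearMap.sum_apply, sub_eq_zero] at key
    exact key
  · intro a' b' c' h
    rw [LinearMap.mem_ker, LinearMap.sub_apply, LinearMap.sum_apply, sub_eq_zero]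
    exact hmo a' b' c' h
  · intro q hq
    rw [LinearMap.mem_ker, LinearMap.sub_apply, LinearMap.sum_apply, sub_eq_zero]
    have h1 : cf3 a b c (q.subst (linMap P).toFun) = 0 :=
      cf3_O (O_subst hq (linMap P).O1) (Nat.lt_succ_self _)
    have h2 : ∀ k ∈ Finset.range N, (coef k • cf3 (A k) (B k) (C k)) q = 0 := by
      intro k hk
      rw [LinearMap.smul_apply, cf3_O hq (by rw [hdeg k hk]; exact Nat.lt_succ_self _), smul_zero]
    rw [Finset.sum_eq_zero h2]
    exact h1

private theorem sc_comb (a b a' b' : ℕ) (s : ℂ) (Q : Prop) (hQ : Q → a' + b' = a + b)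
    (P1 P2 : ℕ → Prop) [∀ m, Decidable (P1 m)] [∀ m, Decidable (P2 m)]
    (h1 : ∀ m, m ≤ a' → (P1 m ↔ (a = m ∧ Q))) (h2 : ∀ k, k ≤ b → (P2 k ↔ (a + k = a' ∧ Q))) :
    ∑ m ∈ Finset.range (a' + 1), ((a'.choose m : ℂ) * s ^ (a' - m)) * (if P1 m then 1 else 0) =
      ∑ k ∈ Finset.range (b + 1), ((a + k).choose k : ℂ) * s ^ k * (if P2 k then 1 else 0) := by
  by_cases q : Q
  · have hq := hQ q
    by_cases ha : a ≤ a'
    · rw [Finset.sum_eq_single a, Finset.sum_eq_single (a' - a)]
      · rw [if_pos ((h1 a ha).2 ⟨rfl, q⟩), if_pos ((h2 (a' - a) (by omega)).2 ⟨by omega, q⟩),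
          show a + (a' - a) = a' by omega, Nat.choose_symm ha]
      · intro k hk hne
        rw [Finset.mem_range] at hk
        rw [if_neg, mul_zero]
        rw [h2 k (by omega)]
        rintro ⟨h3, _⟩
        exact hne (by omega)
      · intro h3
        exfalso
        apply h3
        rw [Finset.mem_range]
        omega
      · intro m hm hne
        rw [Finset.mem_range] at hm
        rw [if_neg, mul_zero]
        rw [h1 m (by omega)]
        rintro ⟨h3, _⟩
        exact hne h3.symm
      · intro h3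
        exfalso
        apply h3
        rw [Finset.mem_range]
        omega
    · rw [Finset.sum_eq_zero, Finset.sum_eq_zero]
      · intro k hk
        rw [Finset.mem_range] at hk
        rw [if_neg, mul_zero]
        rw [h2 k (by omega)]
        rintro ⟨h3, _⟩
        omega
      · intro m hm
        rw [Finset.mem_range] at hm
        rw [if_neg, mul_zero]
        rw [h1 m (by omega)]
        rintro ⟨h3, _⟩
        omega
  · rw [Finset.sum_eq_zero, Finset.sum_eq_zero]
    · intro k hk
      rw [Finset.mem_range] at hk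
      rw [if_neg, mul_zero]
      rw [h2 k (by omega)]
      rintro ⟨_, h3⟩
      exact q h3
    · intro m hm
      rw [Finset.mem_range] at hm
      rw [if_neg, mul_zero]
      rw [h1 m (by omega)]
      rintro ⟨_, h3⟩
      exact q h3

private theorem sc_mo01 (a' b' c' : ℕ) (s : ℂ) :
    (mo a' b' c').subst (linMap (Sh 0 1 s)).toFun =
      ∑ m ∈ Finset.range (a' + 1),
        ((a'.choose m : ℂ) * s ^ (a' - m)) • mo m (b' + (a' - m)) c' := by
  have e : (mo a' b' c').subst (linMap (Sh 0 1 s)).toFun =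
      (X 0 + s • X 1) ^ a' * (X 1 ^ b' * X 2 ^ c') := by
    rw [mo, subst_mulC, subst_mulC, subst_powC, subst_powC, subst_powC, sc_X, sc_X, sc_X]
    simp
    ring
  rw [e, add_pow, Finset.sum_mul]
  refine Finset.sum_congr rfl (fun m _ => ?_)
  rw [smul_pow, mo, pow_add, Algebra.smul_def, Algebra.smul_def]
  simp only [map_mul, map_pow, map_natCast]
  ring

theorem cf3_sh01 {a b c : ℕ} {p : PS 3} (hp : O (a + b + c) p) (s : ℂ) :
    cf3 a b c (p.subst (linMap (Sh 0 1 s)).toFun) =
      ∑ k ∈ Finset.range (b + 1), ((a + k).choose k : ℂ) * s ^ k * cf3 (a + k) (b - k) c p := by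
  refine sc_gen (Sh 0 1 s) a b c (b + 1) (fun k => ((a + k).choose k : ℂ) * s ^ k)
    (fun k => a + k) (fun k => b - k) (fun k => c) ?_ ?_ hp
  · intro k hk
    rw [Finset.mem_range] at hk
    show a + k + (b - k) + (c) = a + b + c
    omega
  · intro a' b' c' h
    rw [sc_mo01, map_sum]
    simp only [map_smul, smul_eq_mul, cf3_mo]
    exact sc_comb a b a' b' s (c = c') (by omega) _ _ (by intro m hm; omega)
      (by intro k hk; omega)

private theorem sc_mo10 (a' b' c' : ℕ) (s : ℂ) :
    (mo a' b' c').subst (linMap (Sh 1 0 s)).toFun =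
      ∑ m ∈ Finset.range (b' + 1),
        ((b'.choose m : ℂ) * s ^ (b' - m)) • mo (a' + (b' - m)) m c' := by
  have e : (mo a' b' c').subst (linMap (Sh 1 0 s)).toFun =
      (X 1 + s • X 0) ^ b' * (X 0 ^ a' * X 2 ^ c') := by
    rw [mo, subst_mulC, subst_mulC, subst_powC, subst_powC, subst_powC, sc_X, sc_X, sc_X]
    simp
    ring
  rw [e, add_pow, Finset.sum_mul]
  refine Finset.sum_congr rfl (fun m _ => ?_)
  rw [smul_pow, mo, pow_add, Algebra.smul_def, Algebra.smul_def]
  simp only [map_mul, map_pow, map_natCast]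
  ring

theorem cf3_sh10 {a b c : ℕ} {p : PS 3} (hp : O (a + b + c) p) (s : ℂ) :
    cf3 a b c (p.subst (linMap (Sh 1 0 s)).toFun) =
      ∑ k ∈ Finset.range (a + 1), ((b + k).choose k : ℂ) * s ^ k * cf3 (a - k) (b + k) c p := by
  refine sc_gen (Sh 1 0 s) a b c (a + 1) (fun k => ((b + k).choose k : ℂ) * s ^ k)
    (fun k => a - k) (fun k => b + k) (fun k => c) ?_ ?_ hp
  · intro k hk
    rw [Finset.mem_range] at hk
    show a - k + (b + k) + (c) = a + b + c
    omega
  · intro a' b' c' h
    rw [sc_mo10, map_sum]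
    simp only [map_smul, smul_eq_mul, cf3_mo]
    exact sc_comb b a b' a' s (c = c') (by omega) _ _ (by intro m hm; omega)
      (by intro k hk; omega)

private theorem sc_mo02 (a' b' c' : ℕ) (s : ℂ) :
    (mo a' b' c').subst (linMap (Sh 0 2 s)).toFun =
      ∑ m ∈ Finset.range (a' + 1),
        ((a'.choose m : ℂ) * s ^ (a' - m)) • mo m b' (c' + (a' - m)) := by
  have e : (mo a' b' c').subst (linMap (Sh 0 2 s)).toFun =
      (X 0 + s • X 2) ^ a' * (X 2 ^ c' * X 1 ^ b') := by
    rw [mo, subst_mulC, subst_mulC, subst_powC, subst_powC, subst_powC, sc_X, sc_X, sc_X]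
    simp
    ring
  rw [e, add_pow, Finset.sum_mul]
  refine Finset.sum_congr rfl (fun m _ => ?_)
  rw [smul_pow, mo, pow_add, Algebra.smul_def, Algebra.smul_def]
  simp only [map_mul, map_pow, map_natCast]
  ring

theorem cf3_sh02 {a b c : ℕ} {p : PS 3} (hp : O (a + b + c) p) (s : ℂ) :
    cf3 a b c (p.subst (linMap (Sh 0 2 s)).toFun) =
      ∑ k ∈ Finset.range (c + 1), ((a + k).choose k : ℂ) * s ^ k * cf3 (a + k) b (c - k) p := by
  refine sc_gen (Sh 0 2 s) a b c (c + 1) (fun k => ((a + k).choose k : ℂ) * s ^ k)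
    (fun k => a + k) (fun k => b) (fun k => c - k) ?_ ?_ hp
  · intro k hk
    rw [Finset.mem_range] at hk
    show a + k + (b) + (c - k) = a + b + c
    omega
  · intro a' b' c' h
    rw [sc_mo02, map_sum]
    simp only [map_smul, smul_eq_mul, cf3_mo]
    exact sc_comb a c a' c' s (b = b') (by omega) _ _ (by intro m hm; omega)
      (by intro k hk; omega)

private theorem sc_mo12 (a' b' c' : ℕ) (s : ℂ) :
    (mo a' b' c').subst (linMap (Sh 1 2 s)).toFun =
      ∑ m ∈ Finset.range (b' + 1),
        ((b'.choose m : ℂ) * s ^ (b' - m)) • mo a' m (c' + (b' - m)) := by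
  have e : (mo a' b' c').subst (linMap (Sh 1 2 s)).toFun =
      (X 1 + s • X 2) ^ b' * (X 2 ^ c' * X 0 ^ a') := by
    rw [mo, subst_mulC, subst_mulC, subst_powC, subst_powC, subst_powC, sc_X, sc_X, sc_X]
    simp
    ring
  rw [e, add_pow, Finset.sum_mul]
  refine Finset.sum_congr rfl (fun m _ => ?_)
  rw [smul_pow, mo, pow_add, Algebra.smul_def, Algebra.smul_def]
  simp only [map_mul, map_pow, map_natCast]
  ring

theorem cf3_sh12 {a b c : ℕ} {p : PS 3} (hp : O (a + b + c) p) (s : ℂ) :
    cf3 a b c (p.subst (linMap (Sh 1 2 s)).toFun) =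
      ∑ k ∈ Finset.range (c + 1), ((b + k).choose k : ℂ) * s ^ k * cf3 a (b + k) (c - k) p := by
  refine sc_gen (Sh 1 2 s) a b c (c + 1) (fun k => ((b + k).choose k : ℂ) * s ^ k)
    (fun k => a) (fun k => b + k) (fun k => c - k) ?_ ?_ hp
  · intro k hk
    rw [Finset.mem_range] at hk
    show a + (b + k) + (c - k) = a + b + c
    omega
  · intro a' b' c' h
    rw [sc_mo12, map_sum]
    simp only [map_smul, smul_eq_mul, cf3_mo]
    exact sc_comb b c b' c' s (a = a') (by omega) _ _ (by intro m hm; omega)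
      (by intro k hk; omega)

private theorem sc_mo21 (a' b' c' : ℕ) (s : ℂ) :
    (mo a' b' c').subst (linMap (Sh 2 1 s)).toFun =
      ∑ m ∈ Finset.range (c' + 1),
        ((c'.choose m : ℂ) * s ^ (c' - m)) • mo a' (b' + (c' - m)) m := by
  have e : (mo a' b' c').subst (linMap (Sh 2 1 s)).toFun =
      (X 2 + s • X 1) ^ c' * (X 1 ^ b' * X 0 ^ a') := by
    rw [mo, subst_mulC, subst_mulC, subst_powC, subst_powC, subst_powC, sc_X, sc_X, sc_X]
    simp
    ring
  rw [e, add_pow, Finset.sum_mul]
  refine Finset.sum_congr rfl (fun m _ => ?_)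
  rw [smul_pow, mo, pow_add, Algebra.smul_def, Algebra.smul_def]
  simp only [map_mul, map_pow, map_natCast]
  ring

theorem cf3_sh21 {a b c : ℕ} {p : PS 3} (hp : O (a + b + c) p) (s : ℂ) :
    cf3 a b c (p.subst (linMap (Sh 2 1 s)).toFun) =
      ∑ k ∈ Finset.range (b + 1), ((c + k).choose k : ℂ) * s ^ k * cf3 a (b - k) (c + k) p := by
  refine sc_gen (Sh 2 1 s) a b c (b + 1) (fun k => ((c + k).choose k : ℂ) * s ^ k)
    (fun k => a) (fun k => b - k) (fun k => c + k) ?_ ?_ hp
  · intro k hk
    rw [Finset.mem_range] at hk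
    show a + (b - k) + (c + k) = a + b + c
    omega
  · intro a' b' c' h
    rw [sc_mo21, map_sum]
    simp only [map_smul, smul_eq_mul, cf3_mo]
    exact sc_comb c b c' b' s (a = a') (by omega) _ _ (by intro m hm; omega)
      (by intro k hk; omega)

end Pool.Agent.RTH
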