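import Mathlib
import Pool.Agent.RTH.SC

/-!
The coefficient of `x^k y^(m-k)` in `p(x + s y, y, z)` as a polynomial in `s`:
`F = ∑_{k'} C ((k+k').choose k' * cf3 (k+k') (m-k-k') 0 p) * X^k'`, `k' ≤ m - k` (`cf3_sh01`);
top coefficient `k' = m - k`: `m.choose (m-k) = m.choose k`.
-/

namespace Pool.Agent.RTH

open MvPowerSeries Pool.Agent.RevMaps

theorem sh01_poly {m k : ℕ} (hk : k ≤ m) {p : PS 3} (hp : O m p) :
    ∃ F : Polynomial ℂ, F.natDegree ≤ m - k ∧
      F.coeff (m - k) = (m.choose k : ℂ) * cf3 m 0 0 p ∧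
      ∀ s, F.eval s = cf3 k (m - k) 0 (p.subst (linMap (Sh 0 1 s)).toFun) := by
  refine ⟨∑ j ∈ Finset.range (m - k + 1),
    Polynomial.C (((k + j).choose j : ℂ) * cf3 (k + j) (m - k - j) 0 p) * Polynomial.X ^ j,
    ?_, ?_, ?_⟩
  · refine Polynomial.natDegree_sum_le_of_forall_le _ _ fun j hj => ?_
    refine (Polynomial.natDegree_C_mul_X_pow_le _ _).trans ?_
    have := Finset.mem_range.mp hj
    omega
  · rw [Polynomial.finsetSum_coeff]
    rw [Finset.sum_eq_single (m - k)]
    · rw [Polynomial.coeff_C_mul_X_pow, if_pos rfl]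
      have h1 : k + (m - k) = m := by omega
      rw [h1, Nat.sub_self, Nat.choose_symm hk]
    · intro j _ hj
      rw [Polynomial.coeff_C_mul_X_pow, if_neg (Ne.symm hj)]
    · intro h
      exact absurd (Finset.mem_range.mpr (Nat.lt_succ_self _)) h
  · intro s
    have hp' : O (k + (m - k) + 0) p := by
      have h1 : k + (m - k) + 0 = m := by omega
      rw [h1]; exact hp
    rw [cf3_sh01 hp' s, Polynomial.eval_finsetSum]
    refine Finset.sum_congr rfl fun j _ => ?_
    rw [Polynomial.eval_mul, Polynomial.eval_C, Polynomial.eval_pow, Polynomial.eval_X]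
    ring

end Pool.Agent.RTH
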