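import Mathlib
import Pool.Agent.RTH.SP
import Pool.Agent.RTH.EV
import Pool.Agent.RTH.N2
import Pool.Agent.RTH.CA

/-!
Coordinates for a homogeneous form `φ` of degree `k ≥ 1`, not `0`.
`rad_x`: `hpart k φ ≠ 0` (`hpart_eq_zero`) has a point `w` with `ev k φ w ≠ 0` (`MvPolynomial.funext`), `w ≠ 0`; `P` with
first column `w` (`col_one`), `coeff_subst_col`.
`rad_prep`: after `rad_x`, the shear `Sh 0 1 s`: `sh01_poly` gives a nonzero polynomial in `s` (top coefficient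
`k.choose i * (..) ≠ 0`), take a non-root; the two substitutions compose (`subst_comp_subst_apply` / `sb_sb`,
`linMap_mul`): `P := P1 * Sh 0 1 s`.
-/

namespace Pool.Agent.RTH

open MvPowerSeries Pool.Agent.RevMaps

theorem rad_x {k : ℕ} (hk : 1 ≤ k) {φ : PS 3} (hφ : O k φ) (hφ' : ¬ O (k + 1) φ) :
    ∃ P P' : Matrix (Fin 3) (Fin 3) ℂ, P * P' = 1 ∧ P' * P = 1 ∧
      cf3 k 0 0 (φ.subst (linMap P).toFun) ≠ 0 := by
  have h1 : hpart k φ ≠ 0 := fun h => hφ' ((hpart_eq_zero hφ).1 h)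
  have h2 : ∃ w : Fin 3 → ℂ, ev k φ w ≠ 0 := by
    by_contra hc
    apply h1
    apply MvPolynomial.funext
    intro w
    rw [map_zero]
    by_contra h
    exact hc ⟨w, h⟩
  obtain ⟨w, hw⟩ := h2
  have hw0 : w ≠ 0 := by
    intro h0
    apply hw
    subst h0
    unfold ev
    rw [MvPolynomial.eval_zero, MvPolynomial.constantCoeff_eq, coeff_hpart, if_neg]
    rw [map_zero]
    omega
  obtain ⟨P, P', hP, hP', hcol⟩ := col_one w hw0
  refine ⟨P, P', hP, hP', ?_⟩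
  have h3 := coeff_subst_col hφ P 0
  have h4 : (fun i => P i 0) = w := funext hcol
  rw [h4] at h3
  unfold cf3
  rw [ex_x, h3]
  exact hw

private theorem rp_sh (s : ℂ) : Sh 0 1 s * Sh 0 1 (-s) = 1 := by
  ext i j
  fin_cases i <;> fin_cases j <;>
    simp [Sh, Matrix.mul_apply, Fin.sum_univ_three, Matrix.single, Matrix.one_apply]

theorem rad_prep {k : ℕ} (hk : 1 ≤ k) {φ : PS 3} (hφ : O k φ) (hφ' : ¬ O (k + 1) φ) {i : ℕ}
    (hi : i ≤ k) : ∃ P P' : Matrix (Fin 3) (Fin 3) ℂ, P * P' = 1 ∧ P' * P = 1 ∧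
      cf3 i (k - i) 0 (φ.subst (linMap P).toFun) ≠ 0 := by
  obtain ⟨P, P', hP, hP', hne⟩ := rad_x hk hφ hφ'
  have hψ : O k (φ.subst (linMap P).toFun) := O_subst hφ (linMap P).O1
  obtain ⟨F, _, hF, hev⟩ := sh01_poly hi hψ
  have hF0 : F ≠ 0 := by
    intro h0
    rw [h0, Polynomial.coeff_zero] at hF
    have h1 : (k.choose i : ℂ) ≠ 0 := by
      exact_mod_cast (Nat.choose_pos hi).ne'
    exact mul_ne_zero h1 hne hF.symm
  obtain ⟨s, hs, _⟩ := avoid_two F F hF0 hF0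
  have hsh := rp_sh s
  have hsh' : Sh 0 1 (-s) * Sh 0 1 s = 1 := mul_eq_one_comm.1 hsh
  refine ⟨P * Sh 0 1 s, Sh 0 1 (-s) * P', ?_, ?_, ?_⟩
  · rw [mul_assoc, ← mul_assoc (Sh 0 1 s), hsh, one_mul, hP]
  · rw [mul_assoc, ← mul_assoc P', hP', one_mul, hsh']
  · have h2 := congrFun (sb_sb (linMap P) (linMap (Sh 0 1 s)) (fun _ => φ)) 0
    rw [← linMap_mul] at h2
    have h3 : (φ.subst (linMap P).toFun).subst (linMap (Sh 0 1 s)).toFun =
        φ.subst (linMap (P * Sh 0 1 s)).toFun := h2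
    rw [← h3, ← hev s]
    exact hs

end Pool.Agent.RTH
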