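import Mathlib
import Pool.Agent.RTH.RP
import Pool.Agent.RTH.SC

/-!
Coordinates for forms of degree 1 and 2.
`rad_1`: `rad_x`, then `x ↦ x + s z` with `s = 0` or `1`: coefficient of `z` becomes `φ[z] + s φ[x]`.
`rad_2`: `rad_x` (`φ[x²] ≠ 0`); `x ↦ x + s z`, `s` a root of `φ[z²] + s φ[x z] + s² φ[x²]` (`cf3_sh02`; `IsAlgClosed`);
`φ[x²]` unchanged; then `x ↦ x + s' y`: `φ[z²]` unchanged (`cf3_sh01` with `b = 0`), `φ[x y]` becomes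
`φ[x y] + 2 s' φ[x²]`, `s' = 0` or `1`.
-/

namespace Pool.Agent.RTH

open MvPowerSeries Pool.Agent.RevMaps

theorem rq_Sh_mul {i j : Fin 3} (hij : i ≠ j) (s t : ℂ) : Sh i j s * Sh i j t = Sh i j (s + t) := by
  unfold Sh
  rw [add_mul, mul_add, mul_add, one_mul, one_mul, mul_one, smul_mul_smul_comm,
    Matrix.single_mul_single_of_ne _ _ _ _ hij.symm, smul_zero, add_zero, add_smul]
  abel

theorem rq_Sh_zero (i j : Fin 3) : Sh i j 0 = 1 := by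
  unfold Sh
  rw [zero_smul, add_zero]

theorem rq_comp (P Q : Matrix (Fin 3) (Fin 3) ℂ) (φ : PS 3) :
    (φ.subst (linMap P).toFun).subst (linMap Q).toFun = φ.subst (linMap (P * Q)).toFun := by
  have := congrFun (sb_sb (linMap P) (linMap Q) (fun _ : Fin 3 => φ)) 0
  rw [← linMap_mul] at this
  exact this

theorem rq_inv {P P' : Matrix (Fin 3) (Fin 3) ℂ} (h1 : P * P' = 1) (h2 : P' * P = 1)
    {i j : Fin 3} (hij : i ≠ j) (s : ℂ) :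
    P * Sh i j s * (Sh i j (-s) * P') = 1 ∧ Sh i j (-s) * P' * (P * Sh i j s) = 1 := by
  constructor
  · calc P * Sh i j s * (Sh i j (-s) * P') = P * (Sh i j s * Sh i j (-s)) * P' := by
          simp only [mul_assoc]
      _ = 1 := by rw [rq_Sh_mul hij, add_neg_cancel, rq_Sh_zero, mul_one, h1]
  · calc Sh i j (-s) * P' * (P * Sh i j s) = Sh i j (-s) * (P' * P) * Sh i j s := by
          simp only [mul_assoc]
      _ = 1 := by rw [h2, mul_one, rq_Sh_mul hij, neg_add_cancel, rq_Sh_zero]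

theorem rad_1 {φ : PS 3} (hφ : O 1 φ) (hφ' : ¬ O 2 φ) :
    ∃ P P' : Matrix (Fin 3) (Fin 3) ℂ, P * P' = 1 ∧ P' * P = 1 ∧
      cf3 1 0 0 (φ.subst (linMap P).toFun) ≠ 0 ∧ cf3 0 0 1 (φ.subst (linMap P).toFun) ≠ 0 := by
  obtain ⟨P, P', h1, h2, h3⟩ := rad_x (le_refl 1) hφ hφ'
  set ψ := φ.subst (linMap P).toFun with hψ
  have hO : O 1 ψ := O_subst hφ (linMap P).O1
  have e1 : ∀ s : ℂ, cf3 1 0 0 (ψ.subst (linMap (Sh 0 2 s)).toFun) = cf3 1 0 0 ψ := by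
    intro s
    rw [cf3_sh02 (a := 1) (b := 0) (c := 0) hO s]
    simp
  have e2 : ∀ s : ℂ, cf3 0 0 1 (ψ.subst (linMap (Sh 0 2 s)).toFun) =
      cf3 0 0 1 ψ + s * cf3 1 0 0 ψ := by
    intro s
    rw [cf3_sh02 (a := 0) (b := 0) (c := 1) hO s, Finset.sum_range_succ, Finset.sum_range_one]
    simp
  have hne : (0 : Fin 3) ≠ 2 := by decide
  obtain ⟨s, hs⟩ : ∃ s : ℂ, cf3 0 0 1 ψ + s * cf3 1 0 0 ψ ≠ 0 := by
    by_cases h : cf3 0 0 1 ψ = 0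
    · exact ⟨1, by rw [h, zero_add, one_mul]; exact h3⟩
    · exact ⟨0, by rw [zero_mul, add_zero]; exact h⟩
  obtain ⟨g1, g2⟩ := rq_inv h1 h2 hne s
  refine ⟨P * Sh 0 2 s, Sh 0 2 (-s) * P', g1, g2, ?_, ?_⟩
  · rw [← rq_comp, ← hψ, e1]
    exact h3
  · rw [← rq_comp, ← hψ, e2]
    exact hs

theorem rad_2 {φ : PS 3} (hφ : O 2 φ) (hφ' : ¬ O 3 φ) :
    ∃ P P' : Matrix (Fin 3) (Fin 3) ℂ, P * P' = 1 ∧ P' * P = 1 ∧
      cf3 1 1 0 (φ.subst (linMap P).toFun) ≠ 0 ∧ cf3 0 0 2 (φ.subst (linMap P).toFun) = 0 := by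
  obtain ⟨P, P', h1, h2, h3⟩ := rad_x (by norm_num : 1 ≤ 2) hφ hφ'
  set ψ := φ.subst (linMap P).toFun with hψ
  have hO : O 2 ψ := O_subst hφ (linMap P).O1
  have hne2 : (0 : Fin 3) ≠ 2 := by decide
  have hne1 : (0 : Fin 3) ≠ 1 := by decide
  have e1 : ∀ s : ℂ, cf3 2 0 0 (ψ.subst (linMap (Sh 0 2 s)).toFun) = cf3 2 0 0 ψ := by
    intro s
    rw [cf3_sh02 (a := 2) (b := 0) (c := 0) hO s]
    simp
  have e2 : ∀ s : ℂ, cf3 0 0 2 (ψ.subst (linMap (Sh 0 2 s)).toFun) =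
      cf3 0 0 2 ψ + s * cf3 1 0 1 ψ + s ^ 2 * cf3 2 0 0 ψ := by
    intro s
    rw [cf3_sh02 (a := 0) (b := 0) (c := 2) hO s, Finset.sum_range_succ, Finset.sum_range_succ,
      Finset.sum_range_one]
    simp
  obtain ⟨s, hs⟩ : ∃ s : ℂ, cf3 0 0 2 ψ + s * cf3 1 0 1 ψ + s ^ 2 * cf3 2 0 0 ψ = 0 := by
    obtain ⟨z, hz⟩ := IsAlgClosed.exists_pow_nat_eq
      (cf3 1 0 1 ψ ^ 2 - 4 * cf3 2 0 0 ψ * cf3 0 0 2 ψ) (by norm_num : 0 < 2)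
    refine ⟨(-cf3 1 0 1 ψ + z) / (2 * cf3 2 0 0 ψ), ?_⟩
    field_simp
    linear_combination hz
  set χ := ψ.subst (linMap (Sh 0 2 s)).toFun with hχ
  have hOχ : O 2 χ := O_subst hO (linMap _).O1
  have h4 : cf3 2 0 0 χ ≠ 0 := by rw [e1]; exact h3
  have h5 : cf3 0 0 2 χ = 0 := by rw [e2]; exact hs
  obtain ⟨g1, g2⟩ := rq_inv h1 h2 hne2 s
  have e3 : ∀ s' : ℂ, cf3 0 0 2 (χ.subst (linMap (Sh 0 1 s')).toFun) = cf3 0 0 2 χ := by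
    intro s'
    rw [cf3_sh01 (a := 0) (b := 0) (c := 2) hOχ s']
    simp
  have e4 : ∀ s' : ℂ, cf3 1 1 0 (χ.subst (linMap (Sh 0 1 s')).toFun) =
      cf3 1 1 0 χ + 2 * s' * cf3 2 0 0 χ := by
    intro s'
    rw [cf3_sh01 (a := 1) (b := 1) (c := 0) hOχ s', Finset.sum_range_succ, Finset.sum_range_one]
    norm_num
  obtain ⟨s', hs'⟩ : ∃ s' : ℂ, cf3 1 1 0 χ + 2 * s' * cf3 2 0 0 χ ≠ 0 := by
    by_cases h : cf3 1 1 0 χ = 0
    · exact ⟨1, by rw [h, zero_add, mul_one]; exact mul_ne_zero two_ne_zero h4⟩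
    · exact ⟨0, by rw [mul_zero, zero_mul, add_zero]; exact h⟩
  obtain ⟨g3, g4⟩ := rq_inv g1 g2 hne1 s'
  refine ⟨_, _, g3, g4, ?_, ?_⟩
  · rw [← rq_comp, ← rq_comp, ← hψ, ← hχ, e4]
    exact hs'
  · rw [← rq_comp, ← rq_comp, ← hψ, ← hχ, e3]
    exact h5

end Pool.Agent.RTH
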