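import Mathlib
import Pool.Agent.RTH.KB
import Pool.Agent.RTH.K0
import Pool.Agent.RTH.KT
import Pool.Agent.RTH.RA
import Pool.Agent.RTH.RQ
import Pool.Agent.RTH.GB

/-!
`m = 2`, radial.  `rad_ne`, `rad_1`: coordinates with `α = φ[x] ≠ 0`, `γ = φ[z] ≠ 0` (`rad_conj`).
`caseTwo` with `b = 3`: `q_0[x z] = γ = q_1[y z]`; `hk`: `k = fl 2 l l 0`, `om_br_Theta0`:
`(2γ + 2γ - 6γ)/(3l-2) = -2γ/(3l-2) ≠ 0` (`q_2[z²] = γ`); `psi_zero` for `l = 1`; `hψ`: `k = fl 0 0 0 2`, `psi_k3`: `-q_2[x z] = -α`.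
-/

namespace Pool.Agent.RTH

open MvPowerSeries Pool.Agent.RevMaps

theorem case2r (q : V 3) (hq : OV 2 q) (hq3 : ¬ OV 3 q) (φ : PS 3) (hφ : O 1 φ)
    (hr : ∀ i, O 3 (q i - φ * X i)) : I4q q := by
  have hφ2 : ¬ O 2 φ := rad_ne (m := 2) (by norm_num) hφ hr hq3
  obtain ⟨P, P', hPP', hP'P, hα, hγ⟩ := rad_1 hφ hφ2
  have hc : Conj q (act P' P q) := ⟨P, P', hPP', hP'P, rfl⟩
  refine I4q_of_Conj hc ?_
  have hr' := rad_conj (m := 2) hr P P' hP'P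
  have hq' : OV 2 (act P' P q) := hq.act P' P
  set q' : V 3 := act P' P q with hq'def
  set ψ : PS 3 := φ.subst (linMap P).toFun with hψdef
  have c0 : cf3 1 0 1 (q' 0) = cf3 0 0 1 ψ := rad_cf0 (a := 0) (b := 0) (c := 1) hr' rfl
  have c1 : cf3 0 1 1 (q' 1) = cf3 0 0 1 ψ := rad_cf1 (a := 0) (b := 0) (c := 1) hr' rfl
  have c2 : cf3 0 0 2 (q' 2) = cf3 0 0 1 ψ := rad_cf2 (a := 0) (b := 0) (c := 1) hr' rfl
  have c3 : cf3 1 0 1 (q' 2) = cf3 1 0 0 ψ := rad_cf2 (a := 1) (b := 0) (c := 0) hr' rfl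
  refine caseTwo goodB_three q' hq' (c0.trans c1.symm) ?_ ⟨fl 0 0 0 2, OV_fl 0 0 0 2, ?_⟩
  · intro l hl
    have hb : (3 : ℂ) * (l : ℂ) ≠ 2 := goodB_three.2 l
    have hb' : (3 : ℂ) * (l : ℂ) - 2 ≠ 0 := sub_ne_zero.2 hb
    refine ⟨fl 2 l l 0, (OV_fl 2 l l 0).mono (by omega), ?_, ?_⟩
    · rw [om_br_Theta0 hb, c0, c1, c2]
      have e : 1 / ((3 : ℂ) * l - 2) * (2 * cf3 0 0 1 ψ + 2 * cf3 0 0 1 ψ - 2 * 3 * cf3 0 0 1 ψ) =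
          -2 * cf3 0 0 1 ψ / ((3 : ℂ) * l - 2) := by
        field_simp
        ring
      rw [e]
      exact div_ne_zero (mul_ne_zero (by norm_num) hγ) hb'
    · rintro rfl
      exact psi_zero q' rfl
  · rw [psi_k3, c3]
    exact neg_ne_zero.2 hα

end Pool.Agent.RTH
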