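import Mathlib
import Pool.Agent.RTH.SC
import Pool.Agent.RTH.CJ

/-!
`m = 3`, nonradial, first changes of coordinates (all formulas checked by computer).
`c3a`: `q' = shq 2 1 s q` (`z ↦ z + s y`, components: `q'_2 = (q_2 - s q_1)∘`, `q'_0 = q_0∘`):
`q'_0[y² z] = q_0[y² z] + 2 s q_0[y z²] + 3 s² q_0[z³]` (`cf3_sh21`), `q_0[z³] = 1`: nonzero for one of `s = 0, 1, -1`
(or `s = 0,1,2`); `q'_2[z³] = q_2[z³] - s q_1[z³] = 0`.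
`c3b`: `q' = shq 0 1 s q` (`x ↦ x + s y`).  With `β = q_0[x y²] + 3 q_1[y³] + 6 q_2[y² z]`,
`β_x = 3 q_0[x³] + q_1[x² y] + 6 q_2[x² z]`, `ω = om 3 1 q`:
`β' = β + 2 s ω + s² β_x`;  `q'_0[y² z] = q_0[y²z] + s (q_0[xyz] - q_1[y²z]) + s² (q_0[x²z] - q_1[xyz]) - s³ q_1[x²z]`,
`q'_2[z³] = q_2[z³]`.
-/

namespace Pool.Agent.RTH

open MvPowerSeries Pool.Agent.RevMaps

theorem c3a_x (q : V 3) (hq : OV 3 q) (s : ℂ) : cf3 0 2 1 (shq 2 1 s q 0) =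
    cf3 0 2 1 (q 0) + 2 * s * cf3 0 1 2 (q 0) + 3 * s ^ 2 * cf3 0 0 3 (q 0) := by
  rw [shq_ne 2 1 s q (by decide : (0 : Fin 3) ≠ 2), cf3_sh21 (hq 0) s]
  simp [Finset.sum_range_succ, Nat.choose]

theorem c3a_z (q : V 3) (hq : OV 3 q) (s : ℂ) : cf3 0 0 3 (shq 2 1 s q 2) =
    cf3 0 0 3 (q 2) - s * cf3 0 0 3 (q 1) := by
  rw [shq_self 2 1 (by decide) s q, map_sub, map_smul, cf3_sh21 (hq 2) s, cf3_sh21 (hq 1) s]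
  simp

theorem c3a (q : V 3) (hq : OV 3 q) (h0 : cf3 0 0 3 (q 0) = 1) (h1 : cf3 0 0 3 (q 1) = 0)
    (h2 : cf3 0 0 3 (q 2) = 0) :
    ∃ q', Conj q q' ∧ OV 3 q' ∧ cf3 0 2 1 (q' 0) ≠ 0 ∧ cf3 0 0 3 (q' 2) = 0 := by
  have key : ∀ s : ℂ, cf3 0 2 1 (shq 2 1 s q 0) ≠ 0 →
      ∃ q', Conj q q' ∧ OV 3 q' ∧ cf3 0 2 1 (q' 0) ≠ 0 ∧ cf3 0 0 3 (q' 2) = 0 := by
    intro s hs
    have hc := Conj_shq 2 1 (by decide) s q
    refine ⟨shq 2 1 s q, hc, hc.OV hq, hs, ?_⟩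
    rw [c3a_z q hq, h1, h2]; ring
  by_cases hA : cf3 0 2 1 (q 0) = 0
  · by_cases hB : cf3 0 2 1 (shq 2 1 1 q 0) = 0
    · apply key (-1)
      intro hC
      rw [c3a_x q hq, hA, h0] at hB hC
      have : (6 : ℂ) = 0 := by linear_combination hB + hC
      norm_num at this
    · exact key 1 hB
  · apply key 0
    rw [c3a_x q hq]
    simpa using hA

/-- `3 B(e_y, e_y)` for `b = 3` -/
noncomputable def bey (q : V 3) : ℂ :=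
  cf3 1 2 0 (q 0) + 3 * cf3 0 3 0 (q 1) + 6 * cf3 0 2 1 (q 2)

theorem c3b_bey (q : V 3) (hq : OV 3 q) (s : ℂ) : bey (shq 0 1 s q) =
    bey q + 2 * s * om 3 1 q +
      s ^ 2 * (3 * cf3 3 0 0 (q 0) + cf3 2 1 0 (q 1) + 6 * cf3 2 0 1 (q 2)) := by
  unfold bey om
  rw [shq_ne 0 1 s q (by decide : (1 : Fin 3) ≠ 0), shq_ne 0 1 s q (by decide : (2 : Fin 3) ≠ 0),
    shq_self 0 1 (by decide) s q, map_sub, map_smul, cf3_sh01 (hq 0) s, cf3_sh01 (hq 1) s,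
    cf3_sh01 (hq 1) s, cf3_sh01 (hq 2) s]
  simp [Finset.sum_range_succ, Nat.choose]
  ring

theorem c3b_x (q : V 3) (hq : OV 3 q) (s : ℂ) : cf3 0 2 1 (shq 0 1 s q 0) =
    cf3 0 2 1 (q 0) + s * (cf3 1 1 1 (q 0) - cf3 0 2 1 (q 1)) +
      s ^ 2 * (cf3 2 0 1 (q 0) - cf3 1 1 1 (q 1)) - s ^ 3 * cf3 2 0 1 (q 1) := by
  rw [shq_self 0 1 (by decide) s q, map_sub, map_smul, cf3_sh01 (hq 0) s, cf3_sh01 (hq 1) s]
  simp [Finset.sum_range_succ, Nat.choose]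
  ring

theorem c3b_z (q : V 3) (hq : OV 3 q) (s : ℂ) :
    cf3 0 0 3 (shq 0 1 s q 2) = cf3 0 0 3 (q 2) := by
  rw [shq_ne 0 1 s q (by decide : (2 : Fin 3) ≠ 0), cf3_sh01 (hq 2) s]
  simp

end Pool.Agent.RTH
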