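import Mathlib
import Pool.Agent.RTH.C3a
import Pool.Agent.RTH.CA

/-!
`m = 3`, nonradial: reaching `om 3 1 = 0`.
`c3c`: `q' = shq 1 0 t q` (`y ↦ y + t x`, `cf3_sh10`): `om 3 1 q' = om 3 1 q + t * bey q`,
`q'_0[y² z] = q_0[y² z]`, `q'_2[z³] = q_2[z³]` (checked by computer; `om 3 1`: `3/(3-2) = 3`).
`c3d`: if `om 3 1 q = 0`: nothing to do.  Otherwise, if `bey q = 0`: `s` such that `2 s ω + s² β_x ≠ 0` and the cubic
polynomial of `c3b_x` in `s` is nonzero at `s` (`avoid_two`; the first polynomial has linear coefficient `2ω ≠ 0`, the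
second constant coefficient `q_0[y²z] ≠ 0`); so we may assume `bey q ≠ 0`; then `t = - om 3 1 q / bey q`.
-/

namespace Pool.Agent.RTH

open MvPowerSeries Pool.Agent.RevMaps

theorem c3c_om (q : V 3) (hq : OV 3 q) (t : ℂ) : om 3 1 (shq 1 0 t q) = om 3 1 q + t * bey q := by
  have e0 : shq 1 0 t q 0 = (q 0).subst (linMap (Sh 1 0 t)).toFun := shq_ne 1 0 t q (by decide)
  have e2 : shq 1 0 t q 2 = (q 2).subst (linMap (Sh 1 0 t)).toFun := shq_ne 1 0 t q (by decide)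
  have e1 : shq 1 0 t q 1 = (q 1).subst (linMap (Sh 1 0 t)).toFun -
      t • (q 0).subst (linMap (Sh 1 0 t)).toFun := shq_self 1 0 (by decide) t q
  have f1 := cf3_sh10 (a := 2) (b := 1) (c := 0) (hq 0) t
  have f2 := cf3_sh10 (a := 1) (b := 2) (c := 0) (hq 1) t
  have f3 := cf3_sh10 (a := 1) (b := 2) (c := 0) (hq 0) t
  have f4 := cf3_sh10 (a := 1) (b := 1) (c := 1) (hq 2) t
  unfold om bey
  rw [e0, e1, e2, map_sub, map_smul, smul_eq_mul, f1, f2, f3, f4]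
  simp only [Finset.sum_range_succ, Finset.sum_range_zero]
  norm_num [Nat.choose]
  ring

theorem c3c_x (q : V 3) (hq : OV 3 q) (t : ℂ) :
    cf3 0 2 1 (shq 1 0 t q 0) = cf3 0 2 1 (q 0) := by
  have e0 : shq 1 0 t q 0 = (q 0).subst (linMap (Sh 1 0 t)).toFun := shq_ne 1 0 t q (by decide)
  rw [e0, cf3_sh10 (a := 0) (b := 2) (c := 1) (hq 0) t]
  simp

theorem c3c_z (q : V 3) (hq : OV 3 q) (t : ℂ) :
    cf3 0 0 3 (shq 1 0 t q 2) = cf3 0 0 3 (q 2) := by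
  have e2 : shq 1 0 t q 2 = (q 2).subst (linMap (Sh 1 0 t)).toFun := shq_ne 1 0 t q (by decide)
  rw [e2, cf3_sh10 (a := 0) (b := 0) (c := 3) (hq 2) t]
  simp

theorem c3d_step (q : V 3) (hq : OV 3 q) (h : cf3 0 2 1 (q 0) ≠ 0) (hz : cf3 0 0 3 (q 2) = 0)
    (hb : bey q ≠ 0) :
    ∃ q', Conj q q' ∧ OV 3 q' ∧ cf3 0 2 1 (q' 0) ≠ 0 ∧ cf3 0 0 3 (q' 2) = 0 ∧
      om 3 1 q' = 0 := by
  have hc : Conj q (shq 1 0 (-(om 3 1 q) / bey q) q) := Conj_shq 1 0 (by decide) _ q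
  refine ⟨_, hc, hc.OV hq, ?_, ?_, ?_⟩
  · rw [c3c_x q hq]
    exact h
  · rw [c3c_z q hq]
    exact hz
  · rw [c3c_om q hq, div_mul_cancel₀ _ hb]
    ring

theorem c3d_quad (u v : ℂ) (hu : u ≠ 0) :
    (Polynomial.C u * Polynomial.X + Polynomial.C v * Polynomial.X ^ 2 : Polynomial ℂ) ≠ 0 := by
  intro h0
  have h1 := congrArg (fun p => Polynomial.coeff p 1) h0
  simp [Polynomial.coeff_X_pow] at h1
  exact hu h1

theorem c3d_cub (u v w x : ℂ) (hu : u ≠ 0) :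
    (Polynomial.C u + Polynomial.C v * Polynomial.X + Polynomial.C w * Polynomial.X ^ 2 -
      Polynomial.C x * Polynomial.X ^ 3 : Polynomial ℂ) ≠ 0 := by
  intro h0
  have h1 := congrArg (fun p => Polynomial.coeff p 0) h0
  simp at h1
  exact hu h1

theorem c3d (q : V 3) (hq : OV 3 q) (h : cf3 0 2 1 (q 0) ≠ 0) (hz : cf3 0 0 3 (q 2) = 0) :
    ∃ q', Conj q q' ∧ OV 3 q' ∧ cf3 0 2 1 (q' 0) ≠ 0 ∧ cf3 0 0 3 (q' 2) = 0 ∧
      om 3 1 q' = 0 := by
  by_cases ho : om 3 1 q = 0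
  · exact ⟨q, Conj.refl q, hq, h, hz, ho⟩
  by_cases hb : bey q = 0
  · obtain ⟨s, hs1, hs2⟩ := avoid_two
      (Polynomial.C (2 * om 3 1 q) * Polynomial.X +
        Polynomial.C (3 * cf3 3 0 0 (q 0) + cf3 2 1 0 (q 1) + 6 * cf3 2 0 1 (q 2)) *
          Polynomial.X ^ 2)
      (Polynomial.C (cf3 0 2 1 (q 0)) +
        Polynomial.C (cf3 1 1 1 (q 0) - cf3 0 2 1 (q 1)) * Polynomial.X +
        Polynomial.C (cf3 2 0 1 (q 0) - cf3 1 1 1 (q 1)) * Polynomial.X ^ 2 -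
        Polynomial.C (cf3 2 0 1 (q 1)) * Polynomial.X ^ 3)
      (c3d_quad _ _ (mul_ne_zero two_ne_zero ho)) (c3d_cub _ _ _ _ h)
    simp only [Polynomial.eval_add, Polynomial.eval_sub, Polynomial.eval_mul, Polynomial.eval_C,
      Polynomial.eval_X, Polynomial.eval_pow] at hs1 hs2
    have hc : Conj q (shq 0 1 s q) := Conj_shq 0 1 (by decide) _ q
    have hq1 : OV 3 (shq 0 1 s q) := hc.OV hq
    have a1 := c3b_bey q hq s
    have a2 := c3b_x q hq s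
    have a3 := c3b_z q hq s
    have b1 : bey (shq 0 1 s q) ≠ 0 := by
      rw [a1, hb]
      intro h0
      apply hs1
      linear_combination h0
    have b2 : cf3 0 2 1 (shq 0 1 s q 0) ≠ 0 := by
      rw [a2]
      intro h0
      apply hs2
      linear_combination h0
    obtain ⟨q', c1, c2, c3, c4, c5⟩ := c3d_step _ hq1 b2 (a3.trans hz) b1
    exact ⟨q', hc.trans c1, c2, c3, c4, c5⟩
  · exact c3d_step q hq h hz hb

end Pool.Agent.RTH
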