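import Mathlib
import Pool.Agent.RTH.LE
import Pool.Agent.RTH.F1
import Pool.Agent.RTH.F3

/-!
The criterion for `m ≥ 3`.  `lift_mid` with `T0`, `tt`, `a2 b` (facts in `Ac`).
Base: `m` even: `F1`; `m = 2h+1 ≥ 5`: `F2`; `m = 3`: `F3`.  Step `d ≥ m + 1 ≥ 4`: `d` even: `k = 0`, `F1`;
`d = 2l+1`, `l ≥ 2`: `k0` with `om b l (br k0 q) ≠ 0`, `k = c • k0`, `c = - om b l r / om b l (br k0 q)`,
`om b l (r + br k q) = 0` (`om_add`, `om_smul`, `br_smul_left`), `F2`.
-/

namespace Pool.Agent.RTH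

open MvPowerSeries Pool.Agent.RevMaps

theorem caseGe3 {b : ℂ} (hb : GoodB b) {m : ℕ} (hm : 3 ≤ m) (q : V 3) (hq : OV m q)
    (h1 : ∀ h, m = 2 * h + 1 → om b h q = 0) (h3 : m = 3 → cf3 0 0 3 (q 2) = 0)
    (hk : ∀ l, m < 2 * l + 1 → ∃ k : V 3, OV (2 * l + 2 - m) k ∧ om b l (br k q) ≠ 0) :
    I4q q := by
  intro hq1
  have hbase : q ∈ ZB b m := by
    rcases Nat.even_or_odd m with he | ho
    · obtain ⟨t, ht⟩ := he
      exact F1 hb (by omega) ⟨t, ht⟩ q hq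
    · obtain ⟨h, rfl⟩ := ho
      by_cases hh : 2 ≤ h
      · exact F2 hb hh q hq (h1 h rfl)
      · have h1' : h = 1 := by omega
        subst h1'
        exact F3 hb q hq (h1 1 rfl) (h3 rfl)
  refine lift_mid T0 tt T0_sq tt_sq (a2 b) (OV_a2 b) (act_DD_a2 b) (act_T0_a2 b)
    (by omega : 2 ≤ m) q hq1 hq hbase ?_
  intro d hd r hr
  rcases Nat.even_or_odd d with he | ho
  · refine ⟨0, fun i => O_of_zero _, ?_⟩
    rw [br_zero_left, add_zero]
    exact F1 hb (by omega) he r hr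
  · obtain ⟨l, rfl⟩ := ho
    obtain ⟨k0, hk0, hne⟩ := hk l (by omega)
    have hm' : 2 * l + 1 + 1 - m = 2 * l + 2 - m := by omega
    refine ⟨(-(om b l r) / om b l (br k0 q)) • k0, ?_, ?_⟩
    · rw [hm']; exact hk0.smul _
    · refine F2 hb (by omega) _ ?_ ?_
      · refine hr.add ?_
        rw [br_smul_left]
        refine OV.smul _ ?_
        exact OV_br hk0 hq (by omega)
      · rw [om_add, br_smul_left, om_smul]
        field_simp
        ring

end Pool.Agent.RTH
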