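import Mathlib
import Pool.Agent.RTH.C3b
import Pool.Agent.RTH.N3
import Pool.Agent.RTH.KA
import Pool.Agent.RTH.KT
import Pool.Agent.RTH.GB

/-!
`m = 3`, nonradial.  `norm_z`, `c3a`, `c3d`, then `caseGe3` with `b = 3`: kill with `k = fl 2 (l+1) (l-2) 0`
(`l ≥ 2`), `om_br_Theta_x` with `m = 3`: `5/(3l-2) q_0[y² z] ≠ 0`.
-/

namespace Pool.Agent.RTH

open MvPowerSeries Pool.Agent.RevMaps

theorem case3n (q : V 3) (hq : OV 3 q) (w : Fin 3 → ℂ)
    (hw : LinearIndependent ℂ ![w, fun i => ev 3 (q i) w]) : I4q q := by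
  obtain ⟨q1, hc1, hq1, h10, h11, h12⟩ := norm_z q hq w hw
  obtain ⟨q2, hc2, hq2, h20, h22⟩ := c3a q1 hq1 h10 h11 h12
  obtain ⟨q3, hc3, hq3, h30, h32, h3o⟩ := c3d q2 hq2 h20 h22
  refine I4q_of_Conj ((hc1.trans hc2).trans hc3) ?_
  refine caseGe3 goodB_three (le_refl 3) q3 hq3 ?_ (fun _ => h32) ?_
  · intro h hh
    have : h = 1 := by omega
    subst this
    exact h3o
  · intro l hl
    have hl2 : 2 ≤ l := by omega
    have hb : (3 : ℂ) * (l : ℂ) ≠ 2 := goodB_three.2 l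
    refine ⟨fl 2 (l + 1) (l + 1 - 3) 0, ?_, ?_⟩
    · have h := OV_fl 2 (l + 1) (l + 1 - 3) 0
      have e : l + 1 + (l + 1 - 3) + 0 = 2 * l + 2 - 3 := by omega
      rwa [e] at h
    · rw [om_br_Theta_x hb (by norm_num) (by omega) q3]
      refine mul_ne_zero (div_ne_zero (by norm_num) (sub_ne_zero.mpr hb)) ?_
      simpa using h30

end Pool.Agent.RTH
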