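import Mathlib
import Pool.Agent.RTH.Pd

/-!
The functional of the field `k = x^(l-i) y^(l-j) z ∂_z` (exact, no assumption on `q`; checked by computer).
`br k q` has components `0, 1`: `- x^(l-i) y^(l-j) z ∂_z q_0`, ... : no contribution to the coefficients with `z^0`.
Component `2`: `(l-i) x^(l-i-1) y^(l-j) z q_0 + (l-j) x^(l-i) y^(l-j-1) z q_1 + x^(l-i) y^(l-j) q_2
 - x^(l-i) y^(l-j) z ∂_z q_2`; coefficient of `x^l y^l z`: the last two cancel.
-/

namespace Pool.Agent.RTH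

open MvPowerSeries Pool.Agent.RevMaps

/-- the bracket with a field `K ∂_z`, `K` a monomial -/
theorem br_fl2_KL (a b c : ℕ) (q : V 3) :
    br (fl 2 a b c) q 0 = -(mo a b c * pderiv ℂ 2 (q 0)) ∧
    br (fl 2 a b c) q 1 = -(mo a b c * pderiv ℂ 2 (q 1)) ∧
    br (fl 2 a b c) q 2 = (a : ℂ) • (mo (a - 1) b c * q 0) + (b : ℂ) • (mo a (b - 1) c * q 1) +
      (c : ℂ) • (mo a b (c - 1) * q 2) - mo a b c * pderiv ℂ 2 (q 2) := by
  have h0 : fl 2 a b c 0 = 0 := by rw [fl_apply, if_neg (by decide)]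
  have h1 : fl 2 a b c 1 = 0 := by rw [fl_apply, if_neg (by decide)]
  have h2 : fl 2 a b c 2 = mo a b c := by rw [fl_apply, if_pos rfl]
  have hD : ∀ p : PS 3, Dd (fl 2 a b c) p = mo a b c * pderiv ℂ 2 p := by
    intro p
    rw [Dd_three, h0, h1, h2]
    ring
  have hD0 : Dd q (0 : PS 3) = 0 := by
    rw [Dd_three]
    simp
  refine ⟨?_, ?_, ?_⟩
  · show Dd q (fl 2 a b c 0) - Dd (fl 2 a b c) (q 0) = _
    rw [h0, hD, hD0, zero_sub]
  · show Dd q (fl 2 a b c 1) - Dd (fl 2 a b c) (q 1) = _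
    rw [h1, hD, hD0, zero_sub]
  · show Dd q (fl 2 a b c 2) - Dd (fl 2 a b c) (q 2) = _
    rw [h2, hD, Dd_three, pderiv0_mo, pderiv1_mo, pderiv2_mo, smul_mul_assoc, smul_mul_assoc,
      smul_mul_assoc]

theorem om_br_Lam (b : ℂ) (q : V 3) {l i j : ℕ} (hi : i ≤ l) (hj : j ≤ l) :
    om b l (br (fl 2 (l - i) (l - j) 1) q) = b / (b * l - 2) *
      (((l : ℂ) - i) * cf3 (i + 1) j 0 (q 0) + ((l : ℂ) - j) * cf3 i (j + 1) 0 (q 1)) := by
  obtain ⟨e0, e1, e2⟩ := br_fl2_KL (l - i) (l - j) 1 q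
  have f0 : cf3 (l + 1) l 0 (br (fl 2 (l - i) (l - j) 1) q 0) = 0 := by
    rw [e0, map_neg, cf3_mo_mul_zero (Or.inr (Or.inr Nat.zero_lt_one)), neg_zero]
  have f1 : cf3 l (l + 1) 0 (br (fl 2 (l - i) (l - j) 1) q 1) = 0 := by
    rw [e1, map_neg, cf3_mo_mul_zero (Or.inr (Or.inr Nat.zero_lt_one)), neg_zero]
  have g0 : (((l - i : ℕ) : ℂ)) * cf3 l l 1 (mo (l - i - 1) (l - j) 1 * q 0) =
      ((l : ℂ) - i) * cf3 (i + 1) j 0 (q 0) := by
    rw [Nat.cast_sub hi]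
    rcases Nat.eq_or_lt_of_le hi with h | h
    · subst h; simp
    · rw [cf3_mo_mul' (by omega) (by omega) (le_refl _), show l - (l - i - 1) = i + 1 by omega,
        show l - (l - j) = j by omega]
  have g1 : (((l - j : ℕ) : ℂ)) * cf3 l l 1 (mo (l - i) (l - j - 1) 1 * q 1) =
      ((l : ℂ) - j) * cf3 i (j + 1) 0 (q 1) := by
    rw [Nat.cast_sub hj]
    rcases Nat.eq_or_lt_of_le hj with h | h
    · subst h; simp
    · rw [cf3_mo_mul' (by omega) (by omega) (le_refl _), show l - (l - i) = i by omega,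
        show l - (l - j - 1) = j + 1 by omega]
  have g2 : cf3 l l 1 (mo (l - i) (l - j) (1 - 1) * q 2) = cf3 i j 1 (q 2) := by
    rw [cf3_mo_mul' (by omega) (by omega) (by omega), show l - (l - i) = i by omega,
        show l - (l - j) = j by omega]
  have g3 : cf3 l l 1 (mo (l - i) (l - j) 1 * pderiv ℂ 2 (q 2)) = cf3 i j 1 (q 2) := by
    rw [cf3_mo_mul' (by omega) (by omega) (by omega), show l - (l - i) = i by omega,
        show l - (l - j) = j by omega, Nat.sub_self, cf3_pderiv2]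
    simp
  have f2 : cf3 l l 1 (br (fl 2 (l - i) (l - j) 1) q 2) =
      ((l : ℂ) - i) * cf3 (i + 1) j 0 (q 0) + ((l : ℂ) - j) * cf3 i (j + 1) 0 (q 1) := by
    rw [e2, map_sub, map_add, map_add, map_smul, map_smul, map_smul, smul_eq_mul, smul_eq_mul,
      smul_eq_mul, g0, g1, g2, g3]
    push_cast
    ring
  unfold om
  rw [f0, f1, f2]
  ring

end Pool.Agent.RTH
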