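import Mathlib
import Pool.Agent.RTH.KA
import Pool.Agent.RTH.KL
import Pool.Agent.RTH.RA
import Pool.Agent.RTH.RQ
import Pool.Agent.RTH.GB

/-!
`m = 3`, radial.  `rad_ne`, `rad_2`: coordinates with `c = φ[x y] ≠ 0`, `φ[z²] = 0`.  `b = 4/3` (`goodB_frac 1`).
`om b 1 q = c + c + b/(b-2) c`, `b/(b-2) = -2`: `0`.  `q_2[z³] = φ[z²] = 0`.  Kill: `i = j = 1`, `k = fl 2 (l-1) (l-1) 1`,
`om_br_Lam`: `b/(b l - 2) (2 (l - 1)) c ≠ 0` for `l ≥ 2`.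
-/

namespace Pool.Agent.RTH

open MvPowerSeries Pool.Agent.RevMaps

theorem case3r (q : V 3) (hq : OV 3 q) (hq4 : ¬ OV 4 q) (φ : PS 3) (hφ : O 2 φ)
    (hr : ∀ i, O 4 (q i - φ * X i)) : I4q q := by
  have hφ' : ¬ O 3 φ := rad_ne (m := 3) (by norm_num) hφ hr hq4
  obtain ⟨P, P', h1, h2, hc, hz⟩ := rad_2 hφ hφ'
  set ψ : PS 3 := φ.subst (linMap P).toFun with hψ
  set q' : V 3 := act P' P q with hq'
  have hconj : Conj q q' := ⟨P, P', h1, h2, rfl⟩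
  have hr' : ∀ i, O (3 + 1) (q' i - ψ * X i) := rad_conj (m := 3) hr P P' h2
  have hq3 : OV 3 q' := hconj.OV hq
  refine I4q_of_Conj hconj ?_
  have e0 : cf3 (1 + 1) 1 0 (q' 0) = cf3 1 1 0 ψ := rad_cf0 (m := 3) hr' (by norm_num)
  have e1 : cf3 1 (1 + 1) 0 (q' 1) = cf3 1 1 0 ψ := rad_cf1 (m := 3) hr' (by norm_num)
  have e2 : cf3 1 1 (0 + 1) (q' 2) = cf3 1 1 0 ψ := rad_cf2 (m := 3) hr' (by norm_num)
  have e3 : cf3 0 0 (2 + 1) (q' 2) = cf3 0 0 2 ψ := rad_cf2 (m := 3) hr' (by norm_num)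
  have hg := goodB_frac 1
  refine caseGe3 hg (le_refl 3) q' hq3 ?_ ?_ ?_
  · intro h hh
    have : h = 1 := by omega
    subst this
    unfold om
    have e2' : cf3 1 1 1 (q' 2) = cf3 1 1 0 ψ := e2
    rw [e0, e1, e2']
    push_cast
    norm_num
    ring
  · intro _
    have e3' : cf3 0 0 3 (q' 2) = cf3 0 0 2 ψ := e3
    rw [e3', hz]
  · intro l hl
    have hl2 : 2 ≤ l := by omega
    refine ⟨fl 2 (l - 1) (l - 1) 1, ?_, ?_⟩
    · have h := OV_fl 2 (l - 1) (l - 1) 1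
      have e : l - 1 + (l - 1) + 1 = 2 * l + 2 - 3 := by omega
      rwa [e] at h
    · rw [om_br_Lam _ q' (by omega : 1 ≤ l) (by omega : 1 ≤ l), e0, e1]
      have hb : (4 / (2 * ((1 : ℕ) : ℂ) + 1)) ≠ 0 := by norm_num
      have hbl : (4 / (2 * ((1 : ℕ) : ℂ) + 1)) * (l : ℂ) - 2 ≠ 0 := sub_ne_zero.2 (hg.2 l)
      have hl1 : ((l : ℂ) - ((1 : ℕ) : ℂ)) ≠ 0 := by
        have h3 : (l : ℂ) ≠ ((1 : ℕ) : ℂ) := by
          intro h3
          have := Nat.cast_injective (R := ℂ) h3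
          omega
        exact sub_ne_zero.2 h3
      refine mul_ne_zero (div_ne_zero hb hbl) ?_
      rw [← two_mul]
      exact mul_ne_zero two_ne_zero (mul_ne_zero hl1 hc)

end Pool.Agent.RTH
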