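import Mathlib
import Pool.Agent.RTH.SC
import Pool.Agent.RTH.CJ

/-!
The change of coordinates `e_z ↦ e_z + α e_x + β e_y` (`x ↦ x + α z`, `y ↦ y + β z`), checked by computer.
Coefficients without `z` are not changed by the substitutions; coefficients with `z^1`: `cf3_sh02`, `cf3_sh12`
with `c = 1` (two terms).
-/

namespace Pool.Agent.RTH

open MvPowerSeries Pool.Agent.RevMaps

/-- `e_z ↦ e_z + α e_x + β e_y` -/
noncomputable def zs (α β : ℂ) (q : V 3) : V 3 := shq 1 2 β (shq 0 2 α q)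

private theorem zs_h02_0 {a b : ℕ} {p : PS 3} (hp : O (a + b) p) (s : ℂ) :
    cf3 a b 0 (p.subst (linMap (Sh 0 2 s)).toFun) = cf3 a b 0 p := by
  rw [cf3_sh02 (c := 0) hp s]
  simp

private theorem zs_h12_0 {a b : ℕ} {p : PS 3} (hp : O (a + b) p) (s : ℂ) :
    cf3 a b 0 (p.subst (linMap (Sh 1 2 s)).toFun) = cf3 a b 0 p := by
  rw [cf3_sh12 (c := 0) hp s]
  simp

private theorem zs_h02_1 {a b : ℕ} {p : PS 3} (hp : O (a + b + 1) p) (s : ℂ) :
    cf3 a b 1 (p.subst (linMap (Sh 0 2 s)).toFun) =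
      cf3 a b 1 p + s * (a + 1) * cf3 (a + 1) b 0 p := by
  rw [cf3_sh02 (c := 1) hp s, Finset.sum_range_succ, Finset.sum_range_one]
  rw [Nat.choose_zero_right, Nat.choose_one_right, pow_zero, pow_one, Nat.add_zero, Nat.sub_zero,
    Nat.sub_self]
  push_cast
  ring

private theorem zs_h12_1 {a b : ℕ} {p : PS 3} (hp : O (a + b + 1) p) (s : ℂ) :
    cf3 a b 1 (p.subst (linMap (Sh 1 2 s)).toFun) =
      cf3 a b 1 p + s * (b + 1) * cf3 a (b + 1) 0 p := by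
  rw [cf3_sh12 (c := 1) hp s, Finset.sum_range_succ, Finset.sum_range_one]
  rw [Nat.choose_zero_right, Nat.choose_one_right, pow_zero, pow_one, Nat.add_zero, Nat.sub_zero,
    Nat.sub_self]
  push_cast
  ring

private theorem zs_OV (α : ℂ) {q : V 3} {m : ℕ} (hq : OV m q) : OV m (shq 0 2 α q) :=
  (Conj_shq 0 2 (by decide) α q).OV hq

private theorem zs_q2 (α : ℂ) (q : V 3) :
    shq 0 2 α q 2 = (q 2).subst (linMap (Sh 0 2 α)).toFun := shq_ne 0 2 α q (by decide)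

private theorem zs_q1 (α : ℂ) (q : V 3) :
    shq 0 2 α q 1 = (q 1).subst (linMap (Sh 0 2 α)).toFun := shq_ne 0 2 α q (by decide)

theorem Conj_zs (α β : ℂ) (q : V 3) : Conj q (zs α β q) :=
  (Conj_shq 0 2 (by decide) α q).trans (Conj_shq 1 2 (by decide) β _)

theorem zs_20 (α β : ℂ) {q : V 3} {m a b : ℕ} (hq : OV m q) (h : a + b = m) :
    cf3 a b 0 (zs α β q 2) = cf3 a b 0 (q 2) := by
  subst h
  rw [zs, shq_ne 1 2 β _ (by decide), zs_h12_0 (zs_OV α hq 2), zs_q2, zs_h02_0 (hq 2)]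

theorem zs_00 (α β : ℂ) {q : V 3} {m a b : ℕ} (hq : OV m q) (h : a + b = m) :
    cf3 a b 0 (zs α β q 0) = cf3 a b 0 (q 0) - α * cf3 a b 0 (q 2) := by
  subst h
  rw [zs, shq_ne 1 2 β _ (by decide), zs_h12_0 (zs_OV α hq 0), shq_self 0 2 (by decide), map_sub,
    map_smul, zs_h02_0 (hq 0), zs_h02_0 (hq 2), smul_eq_mul]

theorem zs_10 (α β : ℂ) {q : V 3} {m a b : ℕ} (hq : OV m q) (h : a + b = m) :
    cf3 a b 0 (zs α β q 1) = cf3 a b 0 (q 1) - β * cf3 a b 0 (q 2) := by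
  subst h
  rw [zs, shq_self 1 2 (by decide), map_sub, map_smul, zs_h12_0 (zs_OV α hq 1),
    zs_h12_0 (zs_OV α hq 2), zs_q1, zs_q2, zs_h02_0 (hq 1), zs_h02_0 (hq 2), smul_eq_mul]

theorem zs_21 (α β : ℂ) {q : V 3} {m a b : ℕ} (hq : OV m q) (h : a + b + 1 = m) :
    cf3 a b 1 (zs α β q 2) = cf3 a b 1 (q 2) + α * (a + 1) * cf3 (a + 1) b 0 (q 2) +
      β * (b + 1) * cf3 a (b + 1) 0 (q 2) := by
  subst h
  rw [zs, shq_ne 1 2 β _ (by decide), zs_h12_1 (zs_OV α hq 2), zs_q2, zs_h02_1 (hq 2),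
    zs_h02_0 (a := a) (b := b + 1) (hq 2)]

end Pool.Agent.RTH
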