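import Mathlib
import Pool.Agent.RTH.KA
import Pool.Agent.RTH.KL
import Pool.Agent.RTH.SP
import Pool.Agent.RTH.ZS
import Pool.Agent.RTH.CA
import Pool.Agent.RTH.GB

/-!
`m = 2h ≥ 4` even, `q_2[x^m] ≠ 0`.
(1) `shq 0 1 s`: `Q_h(s) := q'_2[x^h y^h]` is a polynomial in `s` with top coefficient `m.choose h * q_2[x^m] ≠ 0`
(`sh01_poly`; component `2` by `shq_ne`), choose `s` with `Q_h(s) ≠ 0`.
(2) `zs 0 β`: for `(i, j) = (h, h-1)` and `l ≥ h`:
`Λ_l := (l-h) q'_0[x^(h+1) y^(h-1)] + (l-h+1) q'_1[x^h y^h]` becomes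
`(l-h) q'_0[..] + (l-h+1)(q'_1[x^h y^h] - β Q_h)`: a polynomial of degree 1 in `β`, leading coefficient
`-(l-h+1) Q_h ≠ 0`; `avoid` gives `β` good for all `l ≥ h` (index `l = h + e`).
(3) `caseGe3` with `b = 3`, `k = fl 2 (l-h) (l-(h-1)) 1`, `om_br_Lam`.  Order: `(l-h)+(l-h+1)+1 = 2l+2-m`.
-/

namespace Pool.Agent.RTH

open MvPowerSeries Pool.Agent.RevMaps

theorem caseEven {h : ℕ} (hh : 2 ≤ h) (q : V 3) (hq : OV (2 * h) q)
    (hx : cf3 (2 * h) 0 0 (q 2) ≠ 0) : I4q q := by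
  -- first change of coordinates
  obtain ⟨s, hs⟩ : ∃ s : ℂ, cf3 h h 0 (shq 0 1 s q 2) ≠ 0 := by
    obtain ⟨F, -, hc, he⟩ := sh01_poly (m := 2 * h) (k := h) (by omega) (hq 2)
    have hF : F ≠ 0 := by
      intro h0
      rw [h0, Polynomial.coeff_zero] at hc
      have h1 : (((2 * h).choose h : ℕ) : ℂ) ≠ 0 := by
        have := Nat.choose_pos (n := 2 * h) (k := h) (by omega)
        exact_mod_cast this.ne'
      exact mul_ne_zero h1 hx hc.symm
    obtain ⟨s, hs⟩ := avoid (fun _ => F) (fun _ => hF)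
    refine ⟨s, ?_⟩
    have h2 := hs 0
    rw [he s] at h2
    rw [shq_ne 0 1 s q (by decide : (2 : Fin 3) ≠ 0)]
    have e : 2 * h - h = h := by omega
    rw [e] at h2
    exact h2
  set q' := shq 0 1 s q with hq'
  have hc1 : Conj q q' := Conj_shq 0 1 (by decide) s q
  have hO1 : OV (2 * h) q' := hc1.OV hq
  -- second change of coordinates
  set Q : ℂ := cf3 h h 0 (q' 2) with hQ
  set A0 : ℂ := cf3 (h + 1) (h - 1) 0 (q' 0) with hA0
  set A1 : ℂ := cf3 h h 0 (q' 1) with hA1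
  obtain ⟨β, hβ⟩ := avoid (fun e : ℕ => Polynomial.C ((e : ℂ) * A0 + ((e : ℂ) + 1) * A1) -
      Polynomial.C (((e : ℂ) + 1) * Q) * Polynomial.X) (by
    intro e h0
    have h1 := congrArg (fun p => Polynomial.coeff p 1) h0
    simp only [Polynomial.coeff_sub, Polynomial.coeff_C_mul, Polynomial.coeff_X_one, mul_one,
      Polynomial.coeff_zero, Polynomial.coeff_C_succ, zero_sub, neg_eq_zero] at h1
    have h2 : ((e : ℂ) + 1) ≠ 0 := by exact_mod_cast Nat.succ_ne_zero e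
    exact mul_ne_zero h2 hs h1)
  set q'' := zs 0 β q' with hq''
  have hc2 : Conj q' q'' := Conj_zs 0 β q'
  have hO2 : OV (2 * h) q'' := hc2.OV hO1
  have hB0 : cf3 (h + 1) (h - 1) 0 (q'' 0) = A0 := by
    rw [hq'', zs_00 0 β hO1 (by omega), zero_mul, sub_zero]
  have hB1 : cf3 h h 0 (q'' 1) = A1 - β * Q := by
    rw [hq'', zs_10 0 β hO1 (by omega)]
  apply I4q_of_Conj (hc1.trans hc2)
  apply caseGe3 goodB_three (m := 2 * h) (by omega) q'' hO2
  · intro h' hh'
    omega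
  · intro h3
    omega
  · intro l hl
    have hl' : h ≤ l := by omega
    refine ⟨fl 2 (l - h) (l - (h - 1)) 1, ?_, ?_⟩
    · have e : 2 * l + 2 - 2 * h = (l - h) + (l - (h - 1)) + 1 := by omega
      rw [e]
      exact OV_fl 2 _ _ _
    · rw [om_br_Lam 3 q'' hl' (by omega : h - 1 ≤ l)]
      have e1 : h - 1 + 1 = h := by omega
      rw [e1, hB0, hB1]
      have h1 : (3 : ℂ) * l ≠ 2 := goodB_three.2 l
      have h2 : (3 : ℂ) * l - 2 ≠ 0 := sub_ne_zero.2 h1
      apply mul_ne_zero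
      · exact div_ne_zero (by norm_num) h2
      · obtain ⟨e, rfl⟩ := Nat.exists_eq_add_of_le hl'
        have h3 := hβ e
        simp only [Polynomial.eval_sub, Polynomial.eval_mul, Polynomial.eval_C,
          Polynomial.eval_X] at h3
        have h4 : ((h - 1 : ℕ) : ℂ) = (h : ℂ) - 1 := by
          rw [Nat.cast_sub (by omega)]
          simp
        rw [h4]
        push_cast
        intro h5
        apply h3
        linear_combination h5

end Pool.Agent.RTH
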