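import Mathlib
import Pool.Agent.RTH.SP
import Pool.Agent.RTH.CJ
import Pool.Agent.RTH.CA

/-!
`m = 2h+1 ≥ 5` odd, step 1: the shear `x ↦ x + s y`.  `Q_k(s) = q'_2[x^k y^(m-k)]`, polynomials in `s` of degree
`≤ m - k` with coefficient `m.choose k * c` at `m - k`, `c = q_2[x^m] ≠ 0` (`sh01_poly`, `shq_ne`).  For `e ≥ 1` the polynomial
`D_e = (e+1) Q_{h+1}² - (e-1) Q_h Q_{h+2}` has degree `≤ 2h` and its coefficient at `2h` is
`c² ((e+1) C(m,h+1)² - (e-1) C(m,h) C(m,h+2))`.  Since `C(m,h) = C(m,h+1)` and `C(m,h+2) (h+2) = C(m,h+1) h`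
(`m - (h+1) = h`), it is `c² C(m,h+1)² ((e+1) - (e-1) h/(h+2)) = c² C(m,h+1)² (2e + 2h + 2)/(h+2) ≠ 0`.
`avoid` (index `e = e' + 1`).
-/

namespace Pool.Agent.RTH

open MvPowerSeries Pool.Agent.RevMaps

private theorem coa_coeff {h : ℕ} (hh : 2 ≤ h) (c : ℂ) (hc : c ≠ 0) (e : ℕ) (F0 F1 F2 : Polynomial ℂ)
    (d0 : F0.natDegree ≤ h + 1) (d1 : F1.natDegree ≤ h) (d2 : F2.natDegree ≤ h - 1)
    (c0 : F0.coeff (h + 1) = ((2 * h + 1).choose h : ℂ) * c)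
    (c1 : F1.coeff h = ((2 * h + 1).choose (h + 1) : ℂ) * c)
    (c2 : F2.coeff (h - 1) = ((2 * h + 1).choose (h + 2) : ℂ) * c) :
    Polynomial.C ((e : ℂ) + 2) * (F1 * F1) - Polynomial.C (e : ℂ) * (F0 * F2) ≠ 0 := by
  intro h0
  have h1 := congrArg (fun P : Polynomial ℂ => P.coeff (2 * h)) h0
  simp only [Polynomial.coeff_sub, Polynomial.coeff_C_mul, Polynomial.coeff_zero] at h1
  have h2 : (F1 * F1).coeff (2 * h) = F1.coeff h * F1.coeff h := by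
    rw [two_mul]
    exact Polynomial.coeff_mul_add_eq_of_natDegree_le d1 d1
  have h3 : (F0 * F2).coeff (2 * h) = F0.coeff (h + 1) * F2.coeff (h - 1) := by
    rw [show 2 * h = (h + 1) + (h - 1) by omega]
    exact Polynomial.coeff_mul_add_eq_of_natDegree_le d0 d2
  rw [h2, h3, c0, c1, c2] at h1
  have hs : (2 * h + 1).choose h = (2 * h + 1).choose (h + 1) :=
    Nat.choose_symm_of_eq_add (by omega)
  have hr : ((2 * h + 1).choose (h + 2) : ℂ) * ((h : ℂ) + 2) =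
      ((2 * h + 1).choose (h + 1) : ℂ) * h := by
    have h4 := Nat.choose_succ_right_eq (2 * h + 1) (h + 1)
    rw [show 2 * h + 1 - (h + 1) = h by omega] at h4
    have h5 : (((2 * h + 1).choose (h + 1 + 1) * (h + 1 + 1) : ℕ) : ℂ) =
      (((2 * h + 1).choose (h + 1) * h : ℕ) : ℂ) := by rw [h4]
    push_cast at h5
    rw [show h + 2 = h + 1 + 1 from rfl, show (h : ℂ) + 2 = (h : ℂ) + 1 + 1 by ring]
    exact h5
  rw [hs] at h1
  set A : ℂ := ((2 * h + 1).choose (h + 1) : ℂ) with hA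
  set E : ℂ := ((2 * h + 1).choose (h + 2) : ℂ) with hE
  have hA0 : A ≠ 0 := by
    rw [hA]
    exact_mod_cast (Nat.choose_pos (by omega)).ne'
  have h6 : c ^ 2 * A ^ 2 * (2 * (e : ℂ) + 2 * h + 4) = 0 := by
    have h7 : ((e : ℂ) + 2) * (A * c * (A * c)) * ((h : ℂ) + 2) -
        e * (A * c * (c * (E * ((h : ℂ) + 2)))) = 0 := by
      linear_combination ((h : ℂ) + 2) * h1
    rw [hr] at h7
    linear_combination h7
  have h8 : (2 * (e : ℂ) + 2 * h + 4) ≠ 0 := by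
    have : (2 * (e : ℂ) + 2 * h + 4) = ((2 * e + 2 * h + 4 : ℕ) : ℂ) := by push_cast; ring
    rw [this]
    exact_mod_cast (by omega : 2 * e + 2 * h + 4 ≠ 0)
  exact mul_ne_zero (mul_ne_zero (pow_ne_zero 2 hc) (pow_ne_zero 2 hA0)) h8 h6

theorem con_s {h : ℕ} (hh : 2 ≤ h) (q : V 3) (hq : OV (2 * h + 1) q)
    (hx : cf3 (2 * h + 1) 0 0 (q 2) ≠ 0) : ∃ q', Conj q q' ∧ OV (2 * h + 1) q' ∧
    ∀ e : ℕ, 1 ≤ e → ((e : ℂ) + 1) * cf3 (h + 1) h 0 (q' 2) ^ 2 -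
      ((e : ℂ) - 1) * cf3 h (h + 1) 0 (q' 2) * cf3 (h + 2) (h - 1) 0 (q' 2) ≠ 0 := by
  obtain ⟨F0, d0, c0, e0⟩ := sh01_poly (m := 2 * h + 1) (k := h) (by omega) (hq 2)
  obtain ⟨F1, d1, c1, e1⟩ := sh01_poly (m := 2 * h + 1) (k := h + 1) (by omega) (hq 2)
  obtain ⟨F2, d2, c2, e2⟩ := sh01_poly (m := 2 * h + 1) (k := h + 2) (by omega) (hq 2)
  rw [show 2 * h + 1 - h = h + 1 by omega] at d0 c0 e0
  rw [show 2 * h + 1 - (h + 1) = h by omega] at d1 c1 e1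
  rw [show 2 * h + 1 - (h + 2) = h - 1 by omega] at d2 c2 e2
  obtain ⟨s, hs⟩ := avoid (fun e => Polynomial.C ((e : ℂ) + 2) * (F1 * F1) -
    Polynomial.C (e : ℂ) * (F0 * F2)) (fun e => coa_coeff hh _ hx e F0 F1 F2 d0 d1 d2 c0 c1 c2)
  refine ⟨shq 0 1 s q, Conj_shq 0 1 (by decide) s q, (Conj_shq 0 1 (by decide) s q).OV hq, ?_⟩
  intro e he
  obtain ⟨e', rfl⟩ : ∃ e', e = e' + 1 := ⟨e - 1, by omega⟩
  have h1 := hs e'
  simp only [Polynomial.eval_sub, Polynomial.eval_mul, Polynomial.eval_C] at h1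
  rw [e0, e1, e2, ← shq_ne 0 1 s q (show (2 : Fin 3) ≠ 0 by decide)] at h1
  intro h2
  apply h1
  push_cast at h2
  linear_combination h2

end Pool.Agent.RTH
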