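import Mathlib
import Pool.Agent.RTH.ZS
import Pool.Agent.RTH.CA

/-!
`m = 2h+1 ≥ 5` odd, step 2: `zs α β`, `b = 3`.  `Q_k = q_2[x^k y^(m-k)]`; `e = 1` in `hD` gives `Q_{h+1} ≠ 0`.
`om 3 h (zs α β q) = om 3 h q + (3 (h+1)/(3h-2) - 1) (α Q_{h+1} + β Q_h)`, and
`3 (h+1)/(3h-2) - 1 = 5/(3h-2) ≠ 0` (`zs_00, zs_10, zs_21`).
Let `σ = - om 3 h q (3h-2)/5`, `α = σ/Q_{h+1} + t Q_h`, `β = - t Q_{h+1}`: then `om 3 h (zs α β q) = 0` for all `t`.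
`Λ_l(t) = (l-h-1) (q_0[x^(h+2) y^(h-1)] - α Q_{h+2}) + (l-h+1) (q_1[x^(h+1) y^h] - β Q_{h+1})`: degree `≤ 1` in `t`, the
coefficient of `t` is `(l-h+1) Q_{h+1}² - (l-h-1) Q_h Q_{h+2} ≠ 0` (`hD`, `e = l - h ≥ 1`).  `avoid` for all
`l = h + 1 + e'`.
-/

namespace Pool.Agent.RTH

open MvPowerSeries Pool.Agent.RevMaps

theorem con_t {h : ℕ} (hh : 2 ≤ h) (q : V 3) (hq : OV (2 * h + 1) q)
    (hD : ∀ e : ℕ, 1 ≤ e → ((e : ℂ) + 1) * cf3 (h + 1) h 0 (q 2) ^ 2 -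
      ((e : ℂ) - 1) * cf3 h (h + 1) 0 (q 2) * cf3 (h + 2) (h - 1) 0 (q 2) ≠ 0) :
    ∃ q', Conj q q' ∧ OV (2 * h + 1) q' ∧ om 3 h q' = 0 ∧
      ∀ l : ℕ, h + 1 ≤ l → ((l : ℂ) - (h + 1)) * cf3 (h + 2) (h - 1) 0 (q' 0) +
        ((l : ℂ) - (h - 1)) * cf3 (h + 1) h 0 (q' 1) ≠ 0 := by
  set Q0 := cf3 h (h + 1) 0 (q 2) with hQ0
  set Q1 := cf3 (h + 1) h 0 (q 2) with hQ1
  set Q2 := cf3 (h + 2) (h - 1) 0 (q 2) with hQ2
  have hQ1n : Q1 ≠ 0 := by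
    intro h0
    have h1 := hD 1 le_rfl
    apply h1
    rw [h0]
    push_cast
    ring
  have h3 : (3 * (h : ℂ) - 2) ≠ 0 := by
    have h4 : (3 * (h : ℂ) - 2) = ((3 * h - 2 : ℕ) : ℂ) := by
      rw [Nat.cast_sub (by omega)]
      push_cast
      ring
    rw [h4]
    exact_mod_cast (by omega : 3 * h - 2 ≠ 0)
  set σ := -(om 3 h q) * (3 * (h : ℂ) - 2) / 5 with hσ
  set P0 := cf3 (h + 2) (h - 1) 0 (q 0) with hP0
  set P1 := cf3 (h + 1) h 0 (q 1) with hP1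
  -- the polynomials
  have hF : ∀ e : ℕ, (Polynomial.C ((e : ℂ) * (P0 - σ / Q1 * Q2) + ((e : ℂ) + 2) * P1) +
      Polynomial.C (((e : ℂ) + 2) * Q1 ^ 2 - (e : ℂ) * Q0 * Q2) * Polynomial.X : Polynomial ℂ) ≠ 0 := by
    intro e h0
    have h1 := congrArg (fun P : Polynomial ℂ => P.coeff 1) h0
    simp only [Polynomial.coeff_add, Polynomial.coeff_C_mul, Polynomial.coeff_X_one,
      Polynomial.coeff_zero, Polynomial.coeff_C_succ, mul_one, zero_add] at h1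
    apply hD (e + 1) (by omega)
    push_cast
    linear_combination h1
  obtain ⟨t, ht⟩ := avoid _ hF
  refine ⟨zs (σ / Q1 + t * Q0) (-(t * Q1)) q, Conj_zs _ _ q, (Conj_zs _ _ q).OV hq, ?_, ?_⟩
  · have h5 : σ / Q1 * Q1 = σ := div_mul_cancel₀ _ hQ1n
    unfold om
    rw [zs_00 _ _ hq (show h + 1 + h = 2 * h + 1 by omega),
      zs_10 _ _ hq (show h + (h + 1) = 2 * h + 1 by omega),
      zs_21 _ _ hq (show h + h + 1 = 2 * h + 1 by omega), ← hQ0, ← hQ1]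
    have h6 : om 3 h q = cf3 (h + 1) h 0 (q 0) + cf3 h (h + 1) 0 (q 1) +
      3 / (3 * h - 2) * cf3 h h 1 (q 2) := rfl
    have h7 : σ = -(cf3 (h + 1) h 0 (q 0) + cf3 h (h + 1) 0 (q 1) +
      3 / (3 * h - 2) * cf3 h h 1 (q 2)) * (3 * (h : ℂ) - 2) / 5 := by rw [hσ, h6]
    have h8 : (σ / Q1 + t * Q0) * Q1 = σ + t * Q0 * Q1 := by rw [add_mul, h5]
    have h9 : cf3 (h + 1) h 0 (q 0) - (σ / Q1 + t * Q0) * Q1 +
        (cf3 h (h + 1) 0 (q 1) - -(t * Q1) * Q0) +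
        3 / (3 * (h : ℂ) - 2) * (cf3 h h 1 (q 2) + (σ / Q1 + t * Q0) * (h + 1) * Q1 +
          -(t * Q1) * (h + 1) * Q0) =
        cf3 (h + 1) h 0 (q 0) + cf3 h (h + 1) 0 (q 1) + 3 / (3 * (h : ℂ) - 2) * cf3 h h 1 (q 2) -
          σ + 3 / (3 * (h : ℂ) - 2) * ((h + 1) * σ) := by
      linear_combination (-1 + 3 / (3 * (h : ℂ) - 2) * (h + 1)) * h8
    rw [h9, h7]
    field_simp
    ring
  · intro l hl
    obtain ⟨e, rfl⟩ : ∃ e, l = h + 1 + e := ⟨l - (h + 1), by omega⟩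
    have h4 := ht e
    simp only [Polynomial.eval_add, Polynomial.eval_mul, Polynomial.eval_C, Polynomial.eval_X] at h4
    rw [zs_00 _ _ hq (show h + 2 + (h - 1) = 2 * h + 1 by omega),
      zs_10 _ _ hq (show h + 1 + h = 2 * h + 1 by omega), ← hQ2, ← hQ1, ← hP0, ← hP1]
    intro h5
    apply h4
    push_cast at h5
    linear_combination h5

end Pool.Agent.RTH
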