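import Mathlib
import Pool.Agent.RTH.KA
import Pool.Agent.RTH.KL
import Pool.Agent.RTH.COa
import Pool.Agent.RTH.COb
import Pool.Agent.RTH.GB
import Pool.Agent.RTH.Mo

/-!
`m = 2h+1 ≥ 5` odd, `q_2[x^m] ≠ 0`: `con_s`, `con_t`, then `caseGe3` with `b = 3`; kill with `(i, j) = (h+1, h-1)`,
`k = fl 2 (l-(h+1)) (l-(h-1)) 1`, `l ≥ h + 1`, `om_br_Lam` (cast `((h-1 : ℕ) : ℂ) = h - 1`).
Order: `(l-h-1) + (l-h+1) + 1 = 2l + 2 - m`.
-/

namespace Pool.Agent.RTH

open MvPowerSeries Pool.Agent.RevMaps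

theorem caseOdd {h : ℕ} (hh : 2 ≤ h) (q : V 3) (hq : OV (2 * h + 1) q)
    (hx : cf3 (2 * h + 1) 0 0 (q 2) ≠ 0) : I4q q := by
  obtain ⟨q1, hc1, hq1, hD⟩ := con_s hh q hq hx
  obtain ⟨q2, hc2, hq2, hom, hL⟩ := con_t hh q1 hq1 hD
  refine I4q_of_Conj (hc1.trans hc2) ?_
  refine caseGe3 goodB_three (m := 2 * h + 1) (by omega) q2 hq2 ?_ ?_ ?_
  · intro h' hh'
    have : h' = h := by omega
    rw [this]
    exact hom
  · intro h3
    omega
  · intro l hl
    refine ⟨fl 2 (l - (h + 1)) (l - (h - 1)) 1, ?_, ?_⟩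
    · have h1 := OV_fl 2 (l - (h + 1)) (l - (h - 1)) 1
      rw [show l - (h + 1) + (l - (h - 1)) + 1 = 2 * l + 2 - (2 * h + 1) by omega] at h1
      exact h1
    · rw [om_br_Lam 3 q2 (show h + 1 ≤ l by omega) (show h - 1 ≤ l by omega)]
      have h1 : (3 * (l : ℂ) - 2) ≠ 0 := by
        have h4 : (3 * (l : ℂ) - 2) = ((3 * l - 2 : ℕ) : ℂ) := by
          rw [Nat.cast_sub (by omega)]
          push_cast
          ring
        rw [h4]
        exact_mod_cast (by omega : 3 * l - 2 ≠ 0)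
      refine mul_ne_zero (div_ne_zero three_ne_zero h1) ?_
      have h2 := hL l (by omega)
      have h3 : ((h - 1 : ℕ) : ℂ) = (h : ℂ) - 1 := by
        rw [Nat.cast_sub (by omega)]
        push_cast
        ring
      rw [show h - 1 + 1 = h by omega, h3]
      intro h4
      apply h2
      push_cast at h4
      linear_combination h4

end Pool.Agent.RTH
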