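import Mathlib
import Pool.Agent.RTH.KA
import Pool.Agent.RTH.KL
import Pool.Agent.RTH.RA
import Pool.Agent.RTH.RP
import Pool.Agent.RTH.GB

/-!
`m ≥ 4`, radial.  `i = m / 2`, `j = m - 1 - i`; `rad_ne`, `rad_prep` (`k = m - 1`): coordinates with
`c = φ[x^i y^j] ≠ 0`.  `b = 3` if `m` is even, `b = 4/m` if `m = 2h+1` (`goodB_frac h`).
`m = 2h+1`: `i = j = h`, `om b h q = c + c + b/(b h - 2) c`, `b/(b h - 2) = 4/(4h - 2m) = -2`: `0`.
Kill: `k = fl 2 (l-i) (l-j) 1` (`i, j ≤ l` since `m < 2l+1`), `om_br_Lam`: `b/(b l-2) ((l-i) + (l-j)) c`,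
`(l - i) + (l - j) = 2 l + 1 - m > 0`.
-/

namespace Pool.Agent.RTH

open MvPowerSeries Pool.Agent.RevMaps

private theorem cr_core {b : ℂ} (hb : GoodB b) (hb0 : b ≠ 0) {m : ℕ} (hm : 4 ≤ m) (q : V 3)
    (hq : OV m q) (φ : PS 3) (hr : ∀ i, O (m + 1) (q i - φ * X i)) {i j : ℕ} (hij : i + j + 1 = m)
    (hi : 2 * i ≤ m) (hj : 2 * j ≤ m) (hc : cf3 i j 0 φ ≠ 0)
    (h1 : ∀ h, m = 2 * h + 1 → om b h q = 0) : I4q q := by
  refine caseGe3 hb (by omega) q hq h1 (fun h => by omega) fun l hl => ?_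
  refine ⟨fl 2 (l - i) (l - j) 1, ?_, ?_⟩
  · have e : 2 * l + 2 - m = (l - i) + (l - j) + 1 := by omega
    rw [e]
    exact OV_fl 2 _ _ _
  · rw [om_br_Lam b q (by omega) (by omega), rad_cf0 hr (c := 0) (by omega),
      rad_cf1 hr (c := 0) (by omega)]
    have e1 : b * (l : ℂ) - 2 ≠ 0 := sub_ne_zero.2 (hb.2 l)
    have e2 : ((2 * l + 1 - m : ℕ) : ℂ) ≠ 0 := Nat.cast_ne_zero.2 (by omega)
    rw [Nat.cast_sub (by omega)] at e2
    have e3 : (m : ℂ) = i + j + 1 := by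
      rw [← hij]
      push_cast
      ring
    push_cast at e2
    rw [e3] at e2
    have e4 : ((l : ℂ) - i) * cf3 i j 0 φ + ((l : ℂ) - j) * cf3 i j 0 φ =
        (2 * (l : ℂ) + 1 - (i + j + 1)) * cf3 i j 0 φ := by ring
    rw [e4]
    exact mul_ne_zero (div_ne_zero hb0 e1) (mul_ne_zero e2 hc)

theorem caseRad {m : ℕ} (hm : 4 ≤ m) (q : V 3) (hq : OV m q) (hq' : ¬ OV (m + 1) q) (φ : PS 3)
    (hφ : O (m - 1) φ) (hr : ∀ i, O (m + 1) (q i - φ * X i)) : I4q q := by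
  have hne := rad_ne (by omega) hφ hr hq'
  obtain ⟨P, P', hP, hP', hc⟩ := rad_prep (k := m - 1) (by omega) hφ
    (by rw [Nat.sub_add_cancel (by omega)]; exact hne) (i := m / 2) (by omega)
  have hC : Conj q (act P' P q) := ⟨P, P', hP, hP', rfl⟩
  refine I4q_of_Conj hC ?_
  have hq2 : OV m (act P' P q) := hC.OV hq
  have hr2 := rad_conj hr P P' hP'
  rcases Nat.even_or_odd m with he | ho
  · obtain ⟨k, hk⟩ := he
    exact cr_core goodB_three (by norm_num) hm _ hq2 _ hr2 (i := m / 2) (j := m - 1 - m / 2)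
      (by omega) (by omega) (by omega) hc (fun h hh => by omega)
  · obtain ⟨h, hh⟩ := ho
    have hd : m / 2 = h := by omega
    have hd' : m - 1 - m / 2 = h := by omega
    rw [hd', hd] at hc
    have hm0 : (2 * (h : ℂ) + 1) ≠ 0 := by
      have h1 : ((2 * h + 1 : ℕ) : ℂ) ≠ 0 := Nat.cast_ne_zero.2 (by omega)
      push_cast at h1
      exact h1
    refine cr_core (goodB_frac h) (div_ne_zero (by norm_num) hm0) hm _ hq2 _ hr2 (i := h) (j := h)
      (by omega) (by omega) (by omega) hc fun h' hh' => ?_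
    have e : h' = h := by omega
    rw [e, om, rad_cf0 hr2 (by omega), rad_cf1 hr2 (by omega), rad_cf2 hr2 (c := 0) (by omega)]
    have e1 : 4 / (2 * (h : ℂ) + 1) / (4 / (2 * (h : ℂ) + 1) * h - 2) = -2 := by
      have e2 : 4 / (2 * (h : ℂ) + 1) * h - 2 = -2 / (2 * (h : ℂ) + 1) := by
        field_simp
        ring
      rw [e2, div_div_div_cancel_right₀ hm0]
      norm_num
    rw [e1]
    ring

end Pool.Agent.RTH
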