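import Mathlib
import Pool.Agent.RTH.EV

/-!
The dichotomy radial / nonradial.
Suppose `w`, `v(w) := (ev m (q i) w)_i` are linearly dependent for every `w`.  Let `Q_i = hpart m (q i)`.  For every
`w`: `w 0 * Q_2(w) = w 2 * Q_0(w)` and `w 0 * Q_1(w) = w 1 * Q_0(w)` (dependence of two vectors: all `2 × 2` minors
vanish), so `X_0 Q_2 = X_2 Q_0`, `X_0 Q_1 = X_1 Q_0` as polynomials (`MvPolynomial.funext`).  Comparing coefficients at
exponents without `X_0`: `Q_0` is divisible by `X_0`: `Q_0 = X_0 F`, `Q_1 = X_1 F`, `Q_2 = X_2 F`.  `φ := F` as a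
power series (its coefficients of degree `≠ m - 1` are `0`).  [Alternatively define `φ` by
`coeff e φ = coeff (e + δ_0) (q 0)` if `e.degree = m - 1`, else `0`, and compare coefficients.]
-/

namespace Pool.Agent.RTH

open MvPowerSeries Pool.Agent.RevMaps

theorem radial_or {m : ℕ} (hm : 1 ≤ m) (q : V 3) (hq : OV m q) :
    (∃ w : Fin 3 → ℂ, LinearIndependent ℂ ![w, fun i => ev m (q i) w]) ∨
    (∃ φ : PS 3, O (m - 1) φ ∧ ∀ i, O (m + 1) (q i - φ * X i)) := by
  classical
  by_cases hLI : ∃ w : Fin 3 → ℂ, LinearIndependent ℂ ![w, fun i => ev m (q i) w]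
  · exact Or.inl hLI
  refine Or.inr ?_
  push Not at hLI
  -- all minors vanish
  have hmin : ∀ (w : Fin 3 → ℂ) (i j : Fin 3), w i * ev m (q j) w = w j * ev m (q i) w := by
    intro w i j
    by_contra hne
    apply hLI w
    rw [LinearIndependent.pair_iff]
    intro s t hst
    have h1 := congrFun hst i
    have h2 := congrFun hst j
    simp only [Pi.add_apply, Pi.smul_apply, smul_eq_mul, Pi.zero_apply] at h1 h2
    have hd : w i * ev m (q j) w - w j * ev m (q i) w ≠ 0 := sub_ne_zero.2 hne
    constructor
    · have h3 : s * (w i * ev m (q j) w - w j * ev m (q i) w) = 0 := by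
        linear_combination ev m (q j) w * h1 - ev m (q i) w * h2
      exact (mul_eq_zero.1 h3).resolve_right hd
    · have h3 : t * (w i * ev m (q j) w - w j * ev m (q i) w) = 0 := by
        linear_combination w i * h2 - w j * h1
      exact (mul_eq_zero.1 h3).resolve_right hd
  have hpoly : ∀ i j : Fin 3, MvPolynomial.X i * hpart m (q j) = MvPolynomial.X j * hpart m (q i) := by
    intro i j
    apply MvPolynomial.funext
    intro w
    rw [map_mul, map_mul, MvPolynomial.eval_X, MvPolynomial.eval_X]
    exact hmin w i j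
  have hc : ∀ (i j : Fin 3) (e : Fin 3 →₀ ℕ), (hpart m (q j)).coeff e =
      if i = j ∨ 1 ≤ e j then (hpart m (q i)).coeff (e + Finsupp.single i 1 - Finsupp.single j 1)
      else 0 := by
    intro i j e
    have h1 := congrArg (MvPolynomial.coeff (Finsupp.single i 1 + e)) (hpoly i j)
    rw [MvPolynomial.coeff_X_mul, MvPolynomial.coeff_X_mul'] at h1
    rw [h1, add_comm (Finsupp.single i 1) e]
    have h2 : (j ∈ (e + Finsupp.single i 1).support) ↔ (i = j ∨ 1 ≤ e j) := by
      rw [Finsupp.mem_support_iff, Finsupp.add_apply, Finsupp.single_apply]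
      split_ifs with h <;> simp [h]
      omega
    simp only [h2]
  obtain ⟨φ, hφ⟩ : ∃ φ : PS 3, ∀ e, coeff e φ =
      (hpart m (q 0)).coeff (e + Finsupp.single 0 1) :=
    ⟨fun e => (hpart m (q 0)).coeff (e + Finsupp.single 0 1), fun e => rfl⟩
  have hdeg : ∀ (i : Fin 3) (e : Fin 3 →₀ ℕ), e.degree ≠ m → (hpart m (q i)).coeff e = 0 := by
    intro i e he
    rw [coeff_hpart, if_neg he]
  refine ⟨φ, ?_, fun i => ?_⟩
  · intro e he
    rw [hφ, hdeg]
    rw [map_add, Finsupp.degree_single]
    omega
  · intro e he
    rw [map_sub, X_def, coeff_mul_monomial, mul_one, hφ]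
    by_cases hei : Finsupp.single i 1 ≤ e
    · rw [if_pos hei]
      have hei' : 1 ≤ e i := by
        have := hei i
        rwa [Finsupp.single_eq_same] at this
      have hswap : e - Finsupp.single i 1 + Finsupp.single 0 1 =
          e + Finsupp.single 0 1 - Finsupp.single i 1 := by
        rw [tsub_add_eq_add_tsub hei]
      rw [hswap]
      have h3 := hc 0 i e
      rw [if_pos (Or.inr hei')] at h3
      rw [← h3, coeff_hpart]
      split_ifs with h4
      · rw [sub_self]
      · rw [sub_zero]
        exact hq i e (by omega)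
    · rw [if_neg hei, sub_zero]
      have hei' : ¬ 1 ≤ e i := by
        intro h
        apply hei
        rw [Finsupp.single_le_iff]
        exact h
      by_cases hdg : e.degree = m
      · have h5 : coeff e (q i) = (hpart m (q i)).coeff e := by
          rw [coeff_hpart, if_pos hdg]
        rw [h5]
        obtain ⟨j, hj⟩ : ∃ j : Fin 3, j ≠ i := by
          fin_cases i
          · exact ⟨1, by decide⟩
          · exact ⟨0, by decide⟩
          · exact ⟨0, by decide⟩
        rw [hc j i e, if_neg]
        rintro (h | h)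
        · exact hj h
        · exact hei' h
      · exact hq i e (by omega)

end Pool.Agent.RTH
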