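import Mathlib
import Pool.Agent.RTH.C2r
import Pool.Agent.RTH.C2n
import Pool.Agent.RTH.C3r
import Pool.Agent.RTH.C3n
import Pool.Agent.RTH.CR
import Pool.Agent.RTH.CE
import Pool.Agent.RTH.CO
import Pool.Agent.RTH.N1

/-!
Maps tangent to the identity.  `f = 1 + q`, `q = nl f` (`eq_oneAdd_nl`), `OV 2 q` (`OV_nl`).  If `q = 0`: `1 = 1·1·1·1`.
Otherwise there is `m ≥ 2` with `OV m q`, `¬ OV (m+1) q` (`eq_of_forall_O`).  `radial_or`: nonradial: `m = 2`: `case2n`;
`m = 3`: `case3n`; `m ≥ 4`: `norm_x`, `I4q_of_Conj`, `caseEven` / `caseOdd`.  Radial: `case2r`, `case3r`, `caseRad`.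
-/

namespace Pool.Agent.RTH

open MvPowerSeries Pool.Agent.RevMaps

/-- a nonzero tuple of order at least two has an exact order -/
theorem exact_order {q : V 3} (hq : OV 2 q) (h0 : q ≠ 0) :
    ∃ m, 2 ≤ m ∧ OV m q ∧ ¬ OV (m + 1) q := by
  by_contra hcon
  have hcon' : ∀ m, 2 ≤ m → OV m q → OV (m + 1) q := by
    intro m hm hO
    by_contra hn
    exact hcon ⟨m, hm, hO, hn⟩
  have hall : ∀ k, OV (k + 2) q := by
    intro k
    induction k with
    | zero => exact hq
    | succ k ih => exact hcon' (k + 2) (by omega) ih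
  apply h0
  funext i
  apply eq_of_forall_O
  intro k
  have h1 : O k (q i) := (hall k i).mono (by omega)
  simpa using h1

theorem tangent_three_aux (q : V 3) (hq : OV 2 q) (h0 : q ≠ 0) : I4q q := by
  obtain ⟨m, hm, hO, hn⟩ := exact_order hq h0
  rcases radial_or (by omega : 1 ≤ m) q hO with ⟨w, hw⟩ | ⟨φ, hφ, hr⟩
  · rcases Nat.lt_or_ge m 4 with h4 | h4
    · rcases Nat.lt_or_ge m 3 with h3 | h3
      · have e : m = 2 := by omega
        subst e
        exact case2n q hO w hw
      · have e : m = 3 := by omega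
        subst e
        exact case3n q hO w hw
    · obtain ⟨q', hc, hO', hx⟩ := norm_x q hO w hw
      apply I4q_of_Conj hc
      have hx' : cf3 m 0 0 (q' 2) ≠ 0 := by
        rw [hx]
        exact one_ne_zero
      rcases Nat.even_or_odd m with he | ho
      · obtain ⟨h, hh⟩ := he
        have e : m = 2 * h := by omega
        subst e
        exact caseEven (by omega) q' hO' hx'
      · obtain ⟨h, hh⟩ := ho
        subst hh
        exact caseOdd (by omega) q' hO' hx'
  · rcases Nat.lt_or_ge m 4 with h4 | h4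
    · rcases Nat.lt_or_ge m 3 with h3 | h3
      · have e : m = 2 := by omega
        subst e
        exact case2r q hO hn φ hφ hr
      · have e : m = 3 := by omega
        subst e
        exact case3r q hO hn φ hφ hr
    · exact caseRad h4 q hO hn φ hφ hr

theorem tangent_three (f : FMap 3) (hf : lin f = 1) : I4 f := by
  by_cases h0 : nl f = 0
  · have h1 : f = 1 := by
      apply FMap.ext
      intro i
      have h2 : nl f i = 0 := by rw [h0]; rfl
      have h3 : f.toFun i - X i = 0 := h2
      rw [FMap.one_def]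
      exact sub_eq_zero.1 h3
    refine ⟨fun _ => 1, fun _ => mul_one 1, ?_⟩
    rw [h1]
    simp
  · rw [eq_oneAdd_nl f]
    exact tangent_three_aux (nl f) (OV_nl hf) h0 (OV_nl_one f)

end Pool.Agent.RTH
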