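import Mathlib
import Pool.Agent.RTH.TG

/-!
Final assembly for `n = 3`, given the structure theorem for linear part `≠ 1` (other board).
-/

namespace Pool.Agent.RTH

open MvPowerSeries Pool.Agent.RevMaps

theorem four_of_struct (hs : ∀ f : FMap 3, (lin f).det ^ 2 = 1 → lin f ≠ 1 → I4 f) (f : FMap 3)
    (hf : (lin f).det ^ 2 = 1) : I4 f := by
  by_cases h : lin f = 1
  · exact tangent_three f h
  · exact hs f hf h

end Pool.Agent.RTH
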